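import Mathlib

open Finset Polynomial

namespace MP0e3347

section Basic

variable {p : ℕ} [hp : Fact p.Prime] {F : Type*} [Field F]

/-- The quadratic character of `ZMod p`, with values in a ring. -/
def chi (F : Type*) [Ring F] (a : ZMod p) : F := ((quadraticChar (ZMod p) a : ℤ) : F)

lemma ringChar_ne_two (h2 : p ≠ 2) : ringChar (ZMod p) ≠ 2 := by
  rwa [ZMod.ringChar_zmod_n]

@[simp] lemma chi_zero : chi F (0 : ZMod p) = 0 := by
  simp [chi]

@[simp] lemma chi_one : chi F (1 : ZMod p) = 1 := by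
  simp [chi]

lemma chi_mul (a b : ZMod p) : chi F (a * b) = chi F a * chi F b := by
  unfold chi
  rw [map_mul, Int.cast_mul]

lemma chi_mul_self {a : ZMod p} (ha : a ≠ 0) : chi F a * chi F a = 1 := by
  have := quadraticChar_sq_one ha
  unfold chi
  rw [← Int.cast_mul, ← sq, this, Int.cast_one]

lemma chi_sq {a : ZMod p} (ha : a ≠ 0) : chi F a ^ 2 = 1 := by
  rw [sq, chi_mul_self ha]

lemma chi_inv (a : ZMod p) : chi F a⁻¹ = chi F a := by
  by_cases ha : a = 0
  · simp [ha]
  · have h1 : chi F a * chi F a⁻¹ = 1 := by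
      rw [← chi_mul, mul_inv_cancel₀ ha, chi_one]
    have h2 := chi_mul_self (F := F) ha
    have h3 : chi F a ≠ 0 := by
      intro h; rw [h] at h2; simp at h2
    exact mul_left_cancel₀ h3 (h1.trans h2.symm)

lemma chi_dich {a : ZMod p} (ha : a ≠ 0) : chi F a = 1 ∨ chi F a = -1 := by
  rcases quadraticChar_dichotomy ha with h | h <;> simp [chi, h]

lemma chi_sum (h2 : p ≠ 2) : ∑ a : ZMod p, chi F a = 0 := by
  unfold chi
  rw [← Int.cast_sum, quadraticChar_sum_zero (ringChar_ne_two h2), Int.cast_zero]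

/-- The Gauss sum. -/
noncomputable def tau (e : AddChar (ZMod p) F) : F := ∑ r, chi F r * e r

lemma sum_chi_mul (h2 : p ≠ 2) (e : AddChar (ZMod p) F) (a : ZMod p) :
    ∑ r, chi F r * e (r * a) = chi F a * tau e := by
  by_cases ha : a = 0
  · simp [ha, chi_sum h2]
  · unfold tau
    rw [Finset.mul_sum]
    refine Fintype.sum_bijective (fun r => r * a) (mulRight_bijective₀ a ha) _ _ ?_
    intro r
    rw [chi_mul, ← mul_assoc, mul_comm (chi F a) (chi F r * chi F a), mul_assoc (chi F r),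
      chi_mul_self ha, mul_one]

lemma sum_e {e : AddChar (ZMod p) F} (he : e.IsPrimitive) {a : ZMod p} (ha : a ≠ 0) :
    ∑ i, e (i * a) = 0 := by
  rw [AddChar.sum_mulShift a he, if_neg ha, Nat.cast_zero]

lemma sum_e_erase {e : AddChar (ZMod p) F} (he : e.IsPrimitive) {a : ZMod p} (ha : a ≠ 0) :
    ∑ i ∈ univ.erase (0 : ZMod p), e (i * a) = -1 := by
  have h := sum_e he ha
  rw [← Finset.add_sum_erase _ _ (mem_univ (0 : ZMod p)), zero_mul, AddChar.map_zero_eq_one] at h
  linear_combination h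

lemma tau_sq (h2 : p ≠ 2) {e : AddChar (ZMod p) F} (he : e.IsPrimitive) :
    tau e ^ 2 = chi F (-1 : ZMod p) * p := by
  have h1 : tau e ^ 2 = ∑ r : ZMod p, ∑ s : ZMod p, chi F s * e (r * (s + 1)) := by
    rw [sq]
    nth_rewrite 1 [tau]
    rw [Finset.sum_mul]
    refine Finset.sum_congr rfl fun r _ => ?_
    rw [mul_right_comm, ← sum_chi_mul h2, Finset.sum_mul]
    refine Finset.sum_congr rfl fun s _ => ?_
    rw [mul_add, mul_one, AddChar.map_add_eq_mul, mul_comm s r]
    ring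
  rw [h1, Finset.sum_comm]
  have h3 : ∀ s : ZMod p, ∑ r : ZMod p, chi F s * e (r * (s + 1)) =
      if s = -1 then chi F (-1 : ZMod p) * p else 0 := by
    intro s
    rw [← Finset.mul_sum, AddChar.sum_mulShift (s + 1) he]
    by_cases hs : s = -1
    · simp [hs, ZMod.card]
    · have : s + 1 ≠ 0 := fun h => hs (eq_neg_of_add_eq_zero_left h)
      simp [hs, this]
  rw [Finset.sum_congr rfl fun s _ => h3 s]
  simp

end Basic

section Star

variable {p : ℕ} [hp : Fact p.Prime] {F : Type*} [Field F]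

lemma two_ne_zero' (h2 : p ≠ 2) : (2 : ZMod p) ≠ 0 := by
  intro h
  have : ((2 : ℕ) : ZMod p) = 0 := by exact_mod_cast h
  rw [ZMod.natCast_eq_zero_iff] at this
  have := (Nat.prime_dvd_prime_iff_eq hp.out Nat.prime_two).mp this
  exact h2 this

lemma star {n : ℕ} (hn : p = 2 * n + 1) (h2 : p ≠ 2) {e : AddChar (ZMod p) F} (he : e.IsPrimitive)
    (a b : ℕ → F)
    (H : ∀ i : ZMod p, i ≠ 0 → ∑ m ∈ range (n + 2), a m * e (2 * m * i) +
      chi F (2 * i) * ∑ m ∈ range (n + 1), b m * e ((2 * m + 1) * i) = 0)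
    {k : ℕ} (hk : k < n) :
    tau e * ∑ m ∈ range (n + 2), a m * chi F ((m : ZMod p) - (k : ZMod p) - 1) = ∑ m ∈ range (n + 1), b m := by
  have h2' : (2 : ZMod p) ≠ 0 := two_ne_zero' h2
  have hE : ∑ i ∈ univ.erase (0 : ZMod p), chi F (2 * i) * e (- 2 * (k + 1) * i) *
      (∑ m ∈ range (n + 2), a m * e (2 * m * i)) =
      tau e * ∑ m ∈ range (n + 2), a m * chi F ((m : ZMod p) - (k : ZMod p) - 1) := by
    rw [Finset.sum_erase _ (by simp)]
    simp_rw [Finset.mul_sum]
    rw [Finset.sum_comm]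
    refine Finset.sum_congr rfl fun m _ => ?_
    have : ∀ i : ZMod p, chi F (2 * i) * e (-2 * (k + 1) * i) * (a m * e (2 * m * i)) =
        a m * (chi F (2 * i) * e ((2 * i) * ((m : ZMod p) - (k : ZMod p) - 1))) := by
      intro i
      have : (2 * i) * ((m : ZMod p) - (k : ZMod p) - 1) = -2 * (k + 1) * i + 2 * m * i := by ring
      rw [this, AddChar.map_add_eq_mul]
      ring
    rw [Finset.sum_congr rfl fun i _ => this i, ← Finset.mul_sum]
    have h3 : ∑ i : ZMod p, chi F (2 * i) * e ((2 * i) * ((m : ZMod p) - (k : ZMod p) - 1)) =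
        chi F ((m : ZMod p) - (k : ZMod p) - 1) * tau e := by
      rw [← sum_chi_mul h2]
      exact Fintype.sum_bijective (fun i => 2 * i) (mulLeft_bijective₀ 2 h2') _ _ (fun i => rfl)
    rw [h3]
    ring
  have hO : ∑ i ∈ univ.erase (0 : ZMod p), chi F (2 * i) * e (- 2 * (k + 1) * i) *
      (chi F (2 * i) * ∑ m ∈ range (n + 1), b m * e ((2 * m + 1) * i)) =
      - ∑ m ∈ range (n + 1), b m := by
    have h4 : ∀ i ∈ univ.erase (0 : ZMod p), chi F (2 * i) * e (- 2 * (k + 1) * i) *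
      (chi F (2 * i) * ∑ m ∈ range (n + 1), b m * e ((2 * m + 1) * i)) =
      ∑ m ∈ range (n + 1), b m * e (i * (2 * m + 1 - 2 * (k + 1))) := by
      intro i hi
      have hi' : 2 * i ≠ 0 := mul_ne_zero h2' (ne_of_mem_erase hi)
      have : chi F (2 * i) * e (- 2 * (k + 1) * i) *
        (chi F (2 * i) * ∑ m ∈ range (n + 1), b m * e ((2 * m + 1) * i)) =
        (chi F (2 * i) * chi F (2 * i)) * (e (- 2 * (k + 1) * i) *
          ∑ m ∈ range (n + 1), b m * e ((2 * m + 1) * i)) := by ring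
      rw [this, chi_mul_self hi', one_mul, Finset.mul_sum]
      refine Finset.sum_congr rfl fun m _ => ?_
      have : i * (2 * m + 1 - 2 * (k + 1)) = - 2 * (k + 1) * i + (2 * m + 1) * i := by ring
      rw [this, AddChar.map_add_eq_mul]
      ring
    rw [Finset.sum_congr rfl h4, Finset.sum_comm, ← Finset.sum_neg_distrib]
    refine Finset.sum_congr rfl fun m hm => ?_
    rw [← Finset.mul_sum, sum_e_erase he, mul_neg, mul_one]
    intro h
    have h5 : (((2 * m + 1 - 2 * (k + 1) : ℤ)) : ZMod p) = 0 := by push_cast; exact h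
    rw [ZMod.intCast_zmod_eq_zero_iff_dvd] at h5
    rw [mem_range] at hm
    obtain ⟨c, hc⟩ := h5
    have : c = 0 := by
      by_contra hc0
      have h6 : (p : ℤ) ≤ |(p : ℤ) * c| := by
        rw [abs_mul, Nat.abs_cast]
        have : 1 ≤ |c| := Int.one_le_abs hc0
        nlinarith
      rw [← hc] at h6
      have h7 : |(2 * m + 1 - 2 * (k + 1) : ℤ)| < p := by
        rw [abs_lt]; constructor <;> (rw [hn]; push_cast; omega)
      omega
    rw [this, mul_zero] at hc
    omega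
  have h8 : ∑ i ∈ univ.erase (0 : ZMod p), chi F (2 * i) * e (- 2 * (k + 1) * i) *
      (∑ m ∈ range (n + 2), a m * e (2 * m * i) +
      chi F (2 * i) * ∑ m ∈ range (n + 1), b m * e ((2 * m + 1) * i)) = 0 := by
    refine Finset.sum_eq_zero fun i hi => ?_
    rw [H i (ne_of_mem_erase hi), mul_zero]
  simp_rw [mul_add] at h8
  rw [Finset.sum_add_distrib] at h8
  simp_rw [mul_add] at hE hO
  rw [hE, hO] at h8
  linear_combination h8

end Star

end MP0e3347

namespace MP0e3347

section Split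

lemma sum_range_split {M : Type*} [AddCommMonoid M] (f : ℕ → M) (N : ℕ) :
    ∑ m ∈ range (2 * N + 1), f m =
      ∑ m ∈ range (N + 1), f (2 * m) + ∑ m ∈ range N, f (2 * m + 1) := by
  induction N with
  | zero => simp
  | succ N ih =>
    rw [show 2 * (N + 1) + 1 = (2 * N + 1) + 1 + 1 by ring, Finset.sum_range_succ,
      Finset.sum_range_succ, ih, Finset.sum_range_succ (fun m => f (2 * m)) (N + 1),
      Finset.sum_range_succ (fun m => f (2 * m + 1)) N]
    rw [show 2 * N + 1 + 1 = 2 * (N + 1) by ring]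
    abel

end Split

section Coeff

variable {F : Type*} [Field F] {ι : Type*} [DecidableEq ι]

lemma coeff_prod (s : Finset ι) (u : ι → F) (hu : ∀ i ∈ s, u i ≠ 0) :
    (∏ i ∈ s, (X - C (u i))).coeff 1 =
      - (∏ i ∈ s, (X - C (u i))).coeff 0 * ∑ i ∈ s, (u i)⁻¹ ∧
    2 * (∏ i ∈ s, (X - C (u i))).coeff 2 =
      (∏ i ∈ s, (X - C (u i))).coeff 0 * ((∑ i ∈ s, (u i)⁻¹) ^ 2 - ∑ i ∈ s, ((u i)⁻¹) ^ 2) := by
  induction s using Finset.induction_on with
  | empty => simp [Polynomial.coeff_one]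
  | insert a s has ih =>
    obtain ⟨ih1, ih2⟩ := ih (fun i hi => hu i (mem_insert_of_mem hi))
    have ha : u a ≠ 0 := hu a (mem_insert_self a s)
    rw [Finset.prod_insert has, Finset.sum_insert has, Finset.sum_insert has]
    set Q := ∏ i ∈ s, (X - C (u i)) with hQ
    have c0 : ((X - C (u a)) * Q).coeff 0 = - u a * Q.coeff 0 := by
      rw [sub_mul, coeff_sub, coeff_X_mul_zero, coeff_C_mul]; ring
    have c1 : ((X - C (u a)) * Q).coeff 1 = Q.coeff 0 - u a * Q.coeff 1 := by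
      rw [sub_mul, coeff_sub, show (1 : ℕ) = 0 + 1 from rfl, coeff_X_mul, coeff_C_mul]
    have c2 : ((X - C (u a)) * Q).coeff 2 = Q.coeff 1 - u a * Q.coeff 2 := by
      rw [sub_mul, coeff_sub, show (2 : ℕ) = 1 + 1 from rfl, coeff_X_mul, coeff_C_mul]
    rw [c0, c1, c2, ih1]
    refine ⟨?_, ?_⟩
    · field_simp
      ring
    · rw [mul_sub, show 2 * (u a * Q.coeff 2) = u a * (2 * Q.coeff 2) by ring, ih2]
      field_simp
      ring

end Coeff

section EE

variable {p : ℕ} [hp : Fact p.Prime] {F : Type*} [Field F]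

/-- The interpolation nodes. -/
def uu (e : AddChar (ZMod p) F) (i : ZMod p) : F := chi F (2 * i) * e i

/-- The node polynomial. -/
noncomputable def EE (e : AddChar (ZMod p) F) : F[X] :=
  ∏ i ∈ univ.erase (0 : ZMod p), (X - C (uu e i))

lemma e_mul_neg (e : AddChar (ZMod p) F) (a : ZMod p) : e a * e (-a) = 1 := by
  rw [← AddChar.map_add_eq_mul, add_neg_cancel, AddChar.map_zero_eq_one]

lemma e_inv (e : AddChar (ZMod p) F) (a : ZMod p) : (e a)⁻¹ = e (-a) :=
  inv_eq_of_mul_eq_one_right (e_mul_neg e a)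

lemma e_ne_zero (e : AddChar (ZMod p) F) (a : ZMod p) : e a ≠ 0 := by
  intro h
  have := e_mul_neg e a
  rw [h, zero_mul] at this
  exact zero_ne_one this

lemma e_pow (e : AddChar (ZMod p) F) (a : ZMod p) (k : ℕ) : e a ^ k = e (k * a) := by
  rw [← AddChar.map_nsmul_eq_pow, nsmul_eq_mul]

lemma chi_ne_zero {a : ZMod p} (ha : a ≠ 0) : chi F a ≠ 0 := by
  intro h
  have := chi_mul_self (F := F) ha
  rw [h, zero_mul] at this
  exact zero_ne_one this

lemma uu_ne_zero (h2 : p ≠ 2) (e : AddChar (ZMod p) F) {i : ZMod p} (hi : i ≠ 0) :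
    uu e i ≠ 0 :=
  mul_ne_zero (chi_ne_zero (mul_ne_zero (two_ne_zero' h2) hi)) (e_ne_zero e i)

lemma uu_sq (h2 : p ≠ 2) (e : AddChar (ZMod p) F) {i : ZMod p} (hi : i ≠ 0) :
    uu e i ^ 2 = e (2 * i) := by
  rw [uu, mul_pow, chi_sq (mul_ne_zero (two_ne_zero' h2) hi), one_mul, e_pow, Nat.cast_ofNat]

lemma uu_pow_even (h2 : p ≠ 2) (e : AddChar (ZMod p) F) {i : ZMod p} (hi : i ≠ 0) (m : ℕ) :
    uu e i ^ (2 * m) = e (2 * m * i) := by
  rw [pow_mul, uu_sq h2 e hi, e_pow]
  congr 1; ring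

lemma uu_pow_odd (h2 : p ≠ 2) (e : AddChar (ZMod p) F) {i : ZMod p} (hi : i ≠ 0) (m : ℕ) :
    uu e i ^ (2 * m + 1) = chi F (2 * i) * e ((2 * m + 1) * i) := by
  rw [pow_succ, uu_pow_even h2 e hi, uu, show (2 * (m : ZMod p) + 1) * i = 2 * m * i + i by ring,
    AddChar.map_add_eq_mul]
  ring

lemma uu_inv (h2 : p ≠ 2) (e : AddChar (ZMod p) F) {i : ZMod p} (hi : i ≠ 0) :
    (uu e i)⁻¹ = chi F (2 * i) * e (-i) := by
  have h := chi_mul_self (F := F) (mul_ne_zero (two_ne_zero' h2) hi)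
  refine inv_eq_of_mul_eq_one_right ?_
  rw [uu]
  calc chi F (2 * i) * e i * (chi F (2 * i) * e (-i))
      = (chi F (2 * i) * chi F (2 * i)) * (e i * e (-i)) := by ring
    _ = 1 := by rw [h, e_mul_neg, one_mul]

lemma sum_uu_inv (h2 : p ≠ 2) (e : AddChar (ZMod p) F) :
    ∑ i ∈ univ.erase (0 : ZMod p), (uu e i)⁻¹ = chi F (2 : ZMod p) * chi F (-1 : ZMod p) * tau e := by
  rw [Finset.sum_congr rfl fun i hi => uu_inv h2 e (ne_of_mem_erase hi),
    Finset.sum_erase _ (by simp)]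
  have : ∀ i : ZMod p, chi F (2 * i) * e (-i) = chi F (2 : ZMod p) * (chi F i * e (i * (-1))) := by
    intro i
    rw [chi_mul, mul_neg_one]; ring
  rw [Finset.sum_congr rfl fun i _ => this i, ← Finset.mul_sum, sum_chi_mul h2]
  ring

lemma sum_uu_inv_sq (h2 : p ≠ 2) {e : AddChar (ZMod p) F} (he : e.IsPrimitive) :
    ∑ i ∈ univ.erase (0 : ZMod p), ((uu e i)⁻¹) ^ 2 = -1 := by
  rw [← sum_e_erase he (a := -2) (neg_ne_zero.mpr (two_ne_zero' h2))]
  refine Finset.sum_congr rfl fun i hi => ?_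
  rw [inv_pow, uu_sq h2 e (ne_of_mem_erase hi), e_inv]
  congr 1; ring

lemma prod_erase_id : ∏ i ∈ univ.erase (0 : ZMod p), i = -1 := by
  have h := FiniteField.prod_univ_units_id_eq_neg_one (K := ZMod p)
  have h' : ((∏ x : (ZMod p)ˣ, x : (ZMod p)ˣ) : ZMod p) = -1 := by
    rw [h]; simp
  rw [← h', Units.coe_prod]
  symm
  refine Finset.prod_bij' (fun x _ => (x : ZMod p))
    (fun i hi => Units.mk0 i (ne_of_mem_erase hi)) ?_ ?_ ?_ ?_ ?_
  · intro x _; simp
  · intro i hi; simp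
  · intro x _; simp
  · intro i hi; simp
  · intro x _; rfl

lemma card_erase' {n : ℕ} (hn : p = 2 * n + 1) : (univ.erase (0 : ZMod p)).card = 2 * n := by
  rw [Finset.card_erase_of_mem (mem_univ _), Finset.card_univ, ZMod.card, hn]
  simp

lemma sum_erase_id (h2 : p ≠ 2) : ∑ i ∈ univ.erase (0 : ZMod p), (i : ZMod p) = 0 := by
  rw [Finset.sum_erase (f := fun i : ZMod p => i) _ rfl]
  have h : ∑ i : ZMod p, i = ∑ i : ZMod p, 2 * i :=
    (Fintype.sum_bijective (fun i => 2 * i) (mulLeft_bijective₀ 2 (two_ne_zero' h2)) _ _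
      (fun i => rfl)).symm
  rw [← Finset.mul_sum] at h
  linear_combination -h

lemma prod_e {ι : Type*} (s : Finset ι) (e : AddChar (ZMod p) F) (f : ι → ZMod p) :
    ∏ i ∈ s, e (f i) = e (∑ i ∈ s, f i) := by
  classical
  induction s using Finset.induction_on with
  | empty => simp
  | insert a s has ih => rw [Finset.prod_insert has, Finset.sum_insert has, ih,
      AddChar.map_add_eq_mul]

lemma chi_prod {ι : Type*} (s : Finset ι) (f : ι → ZMod p) :
    ∏ i ∈ s, chi F (f i) = chi F (∏ i ∈ s, f i) := by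
  classical
  induction s using Finset.induction_on with
  | empty => simp
  | insert a s has ih => rw [Finset.prod_insert has, Finset.prod_insert has, ih, chi_mul]

lemma EE_coeff_zero {n : ℕ} (hn : p = 2 * n + 1) (h2 : p ≠ 2) (e : AddChar (ZMod p) F) :
    (EE e).coeff 0 = chi F (-1 : ZMod p) := by
  rw [coeff_zero_eq_eval_zero, EE, eval_prod]
  have : ∀ i ∈ univ.erase (0 : ZMod p), eval 0 (X - C (uu e i)) = (-1) * (chi F (2 * i) * e i) := by
    intro i _
    simp [uu]
  rw [Finset.prod_congr rfl this, Finset.prod_mul_distrib, Finset.prod_const, card_erase' hn,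
    Finset.prod_mul_distrib, prod_e, sum_erase_id h2, AddChar.map_zero_eq_one, chi_prod,
    Finset.prod_mul_distrib, prod_erase_id, Finset.prod_const, card_erase' hn, pow_mul, pow_mul,
    neg_one_sq, one_pow, chi_mul, sq]
  have h5 : ∀ m : ℕ, chi F (((2 : ZMod p) * 2) ^ m) = 1 := by
    intro m
    induction m with
    | zero => simp
    | succ m ih => rw [pow_succ, chi_mul, ih, chi_mul, chi_mul_self (two_ne_zero' h2), one_mul]
  rw [h5]; ring

/-- `κ = χ(2)χ(-1)τ`. -/
noncomputable def kap (e : AddChar (ZMod p) F) : F :=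
  chi F (2 : ZMod p) * chi F (-1 : ZMod p) * tau e

lemma neg_one_ne_zero' : (-1 : ZMod p) ≠ 0 := neg_ne_zero.mpr one_ne_zero

lemma kap_sq (h2 : p ≠ 2) {e : AddChar (ZMod p) F} (he : e.IsPrimitive) :
    kap e ^ 2 = chi F (-1 : ZMod p) * p := by
  rw [kap, mul_pow, mul_pow, chi_sq (two_ne_zero' h2), chi_sq neg_one_ne_zero', tau_sq h2 he]
  ring

lemma EE_coeff_one {n : ℕ} (hn : p = 2 * n + 1) (h2 : p ≠ 2) (e : AddChar (ZMod p) F) :
    (EE e).coeff 1 = - (chi F (-1 : ZMod p) * kap e) := by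
  have h := (coeff_prod (univ.erase (0 : ZMod p)) (uu e)
    (fun i hi => uu_ne_zero h2 e (ne_of_mem_erase hi))).1
  rw [← EE, EE_coeff_zero hn h2, sum_uu_inv h2] at h
  rw [h, kap]; ring

lemma EE_coeff_two {n : ℕ} (hn : p = 2 * n + 1) (h2 : p ≠ 2) {e : AddChar (ZMod p) F}
    (he : e.IsPrimitive) :
    2 * (EE e).coeff 2 = chi F (-1 : ZMod p) * (chi F (-1 : ZMod p) * p + 1) := by
  have h := (coeff_prod (univ.erase (0 : ZMod p)) (uu e)
    (fun i hi => uu_ne_zero h2 e (ne_of_mem_erase hi))).2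
  rw [← EE, EE_coeff_zero hn h2, sum_uu_inv h2, sum_uu_inv_sq h2 he, ← kap, kap_sq h2 he] at h
  rw [h]; ring

lemma EE_monic (e : AddChar (ZMod p) F) : (EE e).Monic :=
  monic_prod_of_monic _ _ fun _ _ => monic_X_sub_C _

lemma EE_natDegree {n : ℕ} (hn : p = 2 * n + 1) (e : AddChar (ZMod p) F) :
    (EE e).natDegree = 2 * n := by
  rw [EE, natDegree_prod_of_monic _ _ fun i _ => monic_X_sub_C _]
  simp only [natDegree_X_sub_C, Finset.sum_const, smul_eq_mul, mul_one]
  exact card_erase' hn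

lemma EE_eval_uu (e : AddChar (ZMod p) F) {i : ZMod p} (hi : i ≠ 0) :
    (EE e).eval (uu e i) = 0 := by
  rw [EE, eval_prod]
  exact Finset.prod_eq_zero (mem_erase.mpr ⟨hi, mem_univ _⟩) (by simp)

end EE

end MP0e3347

namespace MP0e3347

variable {p : ℕ} [hp : Fact p.Prime] {F : Type*} [Field F]

lemma e_one_ne_one {e : AddChar (ZMod p) F} (he : e.IsPrimitive) : e 1 ≠ 1 := by
  intro h
  have h1 := sum_e he (a := 1) one_ne_zero
  have : ∀ i : ZMod p, e (i * 1) = 1 := by
    intro i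
    have : i * 1 = ((i.val : ℕ) : ZMod p) * 1 := by
      rw [ZMod.natCast_zmod_val]
    rw [this, ← e_pow, h, one_pow]
  rw [Finset.sum_congr rfl fun i _ => this i] at h1
  have h3 : e.IsPrimitive := he
  exact (he one_ne_zero) (by
    ext i
    rw [AddChar.mulShift_apply, mul_comm, this i]
    rfl)

lemma e_one_prim {e : AddChar (ZMod p) F} (he : e.IsPrimitive) : IsPrimitiveRoot (e 1) p := by
  have h1 : (e 1) ^ p = 1 := by
    rw [e_pow]; simp
  have h2 := orderOf_eq_prime h1 (e_one_ne_one he)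
  have h3 := IsPrimitiveRoot.orderOf (e 1)
  rwa [h2] at h3

lemma prod_one_sub_e {e : AddChar (ZMod p) F} (he : e.IsPrimitive) :
    ∏ i ∈ univ.erase (0 : ZMod p), (1 - e i) = p := by
  obtain ⟨m, hm⟩ : ∃ m, p = m + 1 := ⟨p - 1, by have := hp.out.pos; omega⟩
  have h := e_one_prim he
  have h' : IsPrimitiveRoot (e 1) (m + 1) := by rw [← hm]; exact h
  have h3 := h'.prod_one_sub_pow_eq_order
  have h4 : (p : F) = (m : F) + 1 := by
    rw [hm]; push_cast; ring
  rw [h4, ← h3]
  refine Finset.prod_bij' (fun i _ => i.val - 1) (fun k _ => ((k + 1 : ℕ) : ZMod p)) ?_ ?_ ?_ ?_ ?_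
  · intro i hi
    have h5 : i.val < p := ZMod.val_lt i
    have h6 : i.val ≠ 0 := by
      intro h
      exact (ne_of_mem_erase hi) ((ZMod.val_eq_zero i).mp h)
    rw [Finset.mem_range]
    omega
  · intro k hk
    rw [Finset.mem_range] at hk
    rw [mem_erase]
    refine ⟨?_, mem_univ _⟩
    intro h
    rw [ZMod.natCast_eq_zero_iff] at h
    have := Nat.le_of_dvd (by omega) h
    omega
  · intro i hi
    have h6 : i.val ≠ 0 := by
      intro h
      exact (ne_of_mem_erase hi) ((ZMod.val_eq_zero i).mp h)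
    rw [Nat.sub_add_cancel (by omega), ZMod.natCast_zmod_val]
  · intro k hk
    rw [Finset.mem_range] at hk
    rw [ZMod.val_natCast, Nat.mod_eq_of_lt (by omega)]
    omega
  · intro i hi
    have h6 : i.val ≠ 0 := by
      intro h
      exact (ne_of_mem_erase hi) ((ZMod.val_eq_zero i).mp h)
    rw [Nat.sub_add_cancel (by omega), e_pow, ZMod.natCast_zmod_val, mul_one]

lemma prod_erase_mul {M : Type*} [CommMonoid M] (f : ZMod p → M) {a : ZMod p} (ha : a ≠ 0) :
    ∏ i ∈ univ.erase (0 : ZMod p), f (a * i) = ∏ i ∈ univ.erase (0 : ZMod p), f i := by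
  refine Finset.prod_bij' (fun i _ => a * i) (fun i _ => a⁻¹ * i) ?_ ?_ ?_ ?_ ?_
  · intro i hi
    exact mem_erase.mpr ⟨mul_ne_zero ha (ne_of_mem_erase hi), mem_univ _⟩
  · intro i hi
    exact mem_erase.mpr ⟨mul_ne_zero (inv_ne_zero ha) (ne_of_mem_erase hi), mem_univ _⟩
  · intro i _
    rw [inv_mul_cancel_left₀ ha]
  · intro i _
    rw [mul_inv_cancel_left₀ ha]
  · intro i _; rfl

/-- `P = E(1)`. -/
noncomputable def PP (e : AddChar (ZMod p) F) : F := (EE e).eval 1

/-- `Q = E(-1)`. -/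
noncomputable def QQ (e : AddChar (ZMod p) F) : F := (EE e).eval (-1)

lemma PP_mul_QQ {n : ℕ} (hn : p = 2 * n + 1) (h2 : p ≠ 2) {e : AddChar (ZMod p) F}
    (he : e.IsPrimitive) : PP e * QQ e = p := by
  rw [PP, QQ, EE, eval_prod, eval_prod, ← Finset.prod_mul_distrib]
  have h3 : ∀ i ∈ univ.erase (0 : ZMod p),
      eval 1 (X - C (uu e i)) * eval (-1) (X - C (uu e i)) = (-1) * (1 - e (2 * i)) := by
    intro i hi
    rw [← uu_sq h2 e (ne_of_mem_erase hi)]
    simp
    ring
  rw [Finset.prod_congr rfl h3, Finset.prod_mul_distrib, Finset.prod_const, card_erase' hn,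
    pow_mul, neg_one_sq, one_pow, one_mul, prod_erase_mul (fun i => 1 - e i) (two_ne_zero' h2),
    prod_one_sub_e he]

/-- The polynomial form of `star`. -/
lemma star_poly {n : ℕ} (hn : p = 2 * n + 1) (h2 : p ≠ 2) {e : AddChar (ZMod p) F}
    (he : e.IsPrimitive) (Q : F[X]) (hdeg : Q.natDegree ≤ 2 * n + 2) (hc2 : Q.coeff 2 = 0)
    (hev : ∀ i : ZMod p, i ≠ 0 → Q.eval (uu e i) = 0) {k : ℕ} (hk : k < n) :
    2 * tau e * (∑ j ∈ range n, Q.coeff (4 + 2 * j) * chi F ((j : ZMod p) - (k : ZMod p) + 1) +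
      chi F (-1 : ZMod p) * Q.coeff 0 * chi F ((k : ZMod p) + 1)) = Q.eval 1 - Q.eval (-1) := by
  have hsum : ∀ x : F, Q.eval x = ∑ m ∈ range (n + 2), Q.coeff (2 * m) * x ^ (2 * m) +
      ∑ m ∈ range (n + 1), Q.coeff (2 * m + 1) * x ^ (2 * m + 1) := by
    intro x
    rw [eval_eq_sum_range' (n := 2 * (n + 1) + 1) (by omega), sum_range_split]
  have H : ∀ i : ZMod p, i ≠ 0 → ∑ m ∈ range (n + 2), Q.coeff (2 * m) * e (2 * m * i) +
      chi F (2 * i) * ∑ m ∈ range (n + 1), Q.coeff (2 * m + 1) * e ((2 * m + 1) * i) = 0 := by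
    intro i hi
    rw [← hev i hi, hsum, Finset.mul_sum]
    congr 1
    · refine Finset.sum_congr rfl fun m _ => ?_
      rw [uu_pow_even h2 e hi]
    · refine Finset.sum_congr rfl fun m _ => ?_
      rw [uu_pow_odd h2 e hi]; ring
  have h3 := star hn h2 he _ _ H hk
  have h4 : Q.eval 1 - Q.eval (-1) = 2 * ∑ m ∈ range (n + 1), Q.coeff (2 * m + 1) := by
    rw [hsum 1, hsum (-1)]
    have : ∀ m ∈ range (n + 2), Q.coeff (2 * m) * (-1 : F) ^ (2 * m) =
        Q.coeff (2 * m) * (1 : F) ^ (2 * m) := by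
      intro m _
      rw [pow_mul, neg_one_sq, one_pow, one_pow]
    rw [Finset.sum_congr rfl this]
    have : ∀ m ∈ range (n + 1), Q.coeff (2 * m + 1) * (-1 : F) ^ (2 * m + 1) =
        - Q.coeff (2 * m + 1) := by
      intro m _
      rw [pow_succ, pow_mul, neg_one_sq, one_pow]; ring
    rw [Finset.sum_congr rfl this, Finset.sum_neg_distrib]
    simp only [one_pow, mul_one]
    ring
  rw [h4, ← h3]
  have h5 : ∑ m ∈ range (n + 2), Q.coeff (2 * m) * chi F ((m : ZMod p) - (k : ZMod p) - 1) =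
      ∑ j ∈ range n, Q.coeff (4 + 2 * j) * chi F ((j : ZMod p) - (k : ZMod p) + 1) +
      chi F (-1 : ZMod p) * Q.coeff 0 * chi F ((k : ZMod p) + 1) := by
    rw [Finset.sum_range_succ', Finset.sum_range_succ']
    have e1 : Q.coeff (2 * (0 + 1)) = 0 := hc2
    rw [e1, zero_mul, add_zero]
    congr 1
    · refine Finset.sum_congr rfl fun m _ => ?_
      rw [show 2 * (m + 1 + 1) = 4 + 2 * m by ring]
      congr 2
      push_cast
      ring
    · rw [mul_zero, Nat.cast_zero, show (0 : ZMod p) - (k : ZMod p) - 1 = (-1) * ((k : ZMod p) + 1)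
        by ring, chi_mul]
      ring
  rw [h5]
  ring

lemma star_sum {n : ℕ} (Q : F[X]) (hdeg : Q.natDegree ≤ 2 * n + 2) (hc2 : Q.coeff 2 = 0) :
    2 * (∑ j ∈ range n, Q.coeff (4 + 2 * j) + Q.coeff 0) = Q.eval 1 + Q.eval (-1) := by
  have hsum : ∀ x : F, Q.eval x = ∑ m ∈ range (n + 2), Q.coeff (2 * m) * x ^ (2 * m) +
      ∑ m ∈ range (n + 1), Q.coeff (2 * m + 1) * x ^ (2 * m + 1) := by
    intro x
    rw [eval_eq_sum_range' (n := 2 * (n + 1) + 1) (by omega), sum_range_split]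
  rw [hsum 1, hsum (-1)]
  have : ∀ m ∈ range (n + 2), Q.coeff (2 * m) * (-1 : F) ^ (2 * m) =
      Q.coeff (2 * m) * (1 : F) ^ (2 * m) := by
    intro m _
    rw [pow_mul, neg_one_sq, one_pow, one_pow]
  rw [Finset.sum_congr rfl this]
  have : ∀ m ∈ range (n + 1), Q.coeff (2 * m + 1) * (-1 : F) ^ (2 * m + 1) =
      - Q.coeff (2 * m + 1) := by
    intro m _
    rw [pow_succ, pow_mul, neg_one_sq, one_pow]; ring
  rw [Finset.sum_congr rfl this, Finset.sum_neg_distrib]
  simp only [one_pow, mul_one]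
  rw [Finset.sum_range_succ', Finset.sum_range_succ']
  have e1 : Q.coeff (2 * (0 + 1)) = 0 := hc2
  rw [e1, add_zero, mul_zero]
  have : ∀ m ∈ range n, Q.coeff (2 * (m + 1 + 1)) = Q.coeff (4 + 2 * m) := by
    intro m _
    rw [show 2 * (m + 1 + 1) = 4 + 2 * m by ring]
  rw [Finset.sum_congr rfl this]
  ring

/-- `D`. -/
noncomputable def DD (e : AddChar (ZMod p) F) : F := PP e * (1 + kap e) + QQ e * (1 - kap e)

/-- `D'`. -/
noncomputable def DD' (e : AddChar (ZMod p) F) : F := PP e * (1 + kap e) - QQ e * (1 - kap e)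

/-- first polynomial -/
noncomputable def pol1 (e : AddChar (ZMod p) F) : F[X] := EE e * (X + C (kap e) * X ^ 2)

/-- second polynomial, in terms of `e₂` -/
noncomputable def pol2 (e : AddChar (ZMod p) F) (c : F) : F[X] := EE e * (1 - C c * X ^ 2)

lemma pol1_coeff_zero (e : AddChar (ZMod p) F) : (pol1 e).coeff 0 = 0 := by
  rw [pol1, mul_coeff_zero]; simp

lemma coeff_mul_two (A B : F[X]) : (A * B).coeff 2 =
    A.coeff 0 * B.coeff 2 + A.coeff 1 * B.coeff 1 + A.coeff 2 * B.coeff 0 := by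
  rw [coeff_mul, Finset.Nat.sum_antidiagonal_eq_sum_range_succ_mk]
  simp [Finset.sum_range_succ]

lemma pol1_coeff_two {n : ℕ} (hn : p = 2 * n + 1) (h2 : p ≠ 2) (e : AddChar (ZMod p) F) :
    (pol1 e).coeff 2 = 0 := by
  rw [pol1, coeff_mul_two, EE_coeff_zero hn h2, EE_coeff_one hn h2]
  simp [coeff_X, coeff_X_pow]

lemma pol1_natDegree_le {n : ℕ} (hn : p = 2 * n + 1) (e : AddChar (ZMod p) F) :
    (pol1 e).natDegree ≤ 2 * n + 2 := by
  unfold pol1
  refine natDegree_mul_le_of_le (EE_natDegree hn e).le ?_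
  compute_degree!

lemma pol1_coeff_top {n : ℕ} (hn : p = 2 * n + 1) (e : AddChar (ZMod p) F) :
    (pol1 e).coeff (2 * n + 2) = kap e := by
  unfold pol1
  rw [coeff_mul_add_eq_of_natDegree_le (EE_natDegree hn e).le (by compute_degree!)]
  have h1 : (EE e).coeff (2 * n) = 1 := by
    have := (EE_monic e).coeff_natDegree
    rwa [EE_natDegree hn] at this
  rw [h1]
  simp [coeff_X]

lemma pol1_eval (e : AddChar (ZMod p) F) {i : ZMod p} (hi : i ≠ 0) :
    (pol1 e).eval (uu e i) = 0 := by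
  rw [pol1, eval_mul, EE_eval_uu e hi, zero_mul]

lemma pol2_eval (e : AddChar (ZMod p) F) (c : F) {i : ZMod p} (hi : i ≠ 0) :
    (pol2 e c).eval (uu e i) = 0 := by
  rw [pol2, eval_mul, EE_eval_uu e hi, zero_mul]

lemma pol2_natDegree_le {n : ℕ} (hn : p = 2 * n + 1) (e : AddChar (ZMod p) F) (c : F) :
    (pol2 e c).natDegree ≤ 2 * n + 2 := by
  unfold pol2
  refine natDegree_mul_le_of_le (EE_natDegree hn e).le ?_
  compute_degree!

lemma pol2_coeff_zero {n : ℕ} (hn : p = 2 * n + 1) (h2 : p ≠ 2) (e : AddChar (ZMod p) F) (c : F) :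
    (pol2 e c).coeff 0 = chi F (-1 : ZMod p) := by
  rw [pol2, mul_coeff_zero, EE_coeff_zero hn h2]; simp

lemma pol2_coeff_two {n : ℕ} (hn : p = 2 * n + 1) (h2 : p ≠ 2) {e : AddChar (ZMod p) F}
    (he : e.IsPrimitive) (h2F : (2 : F) ≠ 0) (c : F)
    (hc : 2 * c = chi F (-1 : ZMod p) * p + 1) :
    (pol2 e c).coeff 2 = 0 := by
  have h3 := EE_coeff_two hn h2 he
  have h4 : (pol2 e c).coeff 2 = (EE e).coeff 2 - chi F (-1 : ZMod p) * c := by
    rw [pol2, coeff_mul_two, EE_coeff_zero hn h2]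
    simp [coeff_one, coeff_X_pow]
    ring
  rw [h4]
  refine mul_left_cancel₀ h2F ?_
  rw [mul_sub, h3, mul_zero]
  linear_combination - chi F (-1 : ZMod p) * hc

theorem f1_row {n : ℕ} (hn : p = 2 * n + 1) (h2 : p ≠ 2) {e : AddChar (ZMod p) F}
    (he : e.IsPrimitive) {k : ℕ} (hk : k < n) :
    2 * tau e * (∑ j ∈ range n, (pol1 e).coeff (4 + 2 * j) *
      chi F ((j : ZMod p) - (k : ZMod p) + 1)) = DD e := by
  have h := star_poly hn h2 he (pol1 e) (pol1_natDegree_le hn e) (pol1_coeff_two hn h2 e)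
    (fun i hi => pol1_eval e hi) hk
  rw [pol1_coeff_zero, mul_zero, zero_mul, add_zero] at h
  rw [h, pol1, DD, PP, QQ]
  simp
  ring

theorem f1_sum {n : ℕ} (hn : p = 2 * n + 1) (h2 : p ≠ 2) (e : AddChar (ZMod p) F) :
    2 * (∑ j ∈ range n, (pol1 e).coeff (4 + 2 * j)) = DD' e := by
  have h := star_sum (pol1 e) (pol1_natDegree_le hn e) (pol1_coeff_two hn h2 e)
  rw [pol1_coeff_zero, add_zero] at h
  rw [h, pol1, DD', PP, QQ]
  simp
  ring

theorem f2_row {n : ℕ} (hn : p = 2 * n + 1) (h2 : p ≠ 2) {e : AddChar (ZMod p) F}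
    (he : e.IsPrimitive) (h2F : (2 : F) ≠ 0) {c : F} (hc : 2 * c = chi F (-1 : ZMod p) * p + 1)
    {k : ℕ} (hk : k < n) :
    2 * tau e * (∑ j ∈ range n, (pol2 e c).coeff (4 + 2 * j) *
      chi F ((j : ZMod p) - (k : ZMod p) + 1) + chi F ((k : ZMod p) + 1)) =
      (1 - c) * (PP e - QQ e) := by
  have h := star_poly hn h2 he (pol2 e c) (pol2_natDegree_le hn e c)
    (pol2_coeff_two hn h2 he h2F c hc) (fun i hi => pol2_eval e c hi) hk
  rw [pol2_coeff_zero hn h2, chi_mul_self neg_one_ne_zero', one_mul] at h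
  rw [h, pol2, PP, QQ]
  simp
  ring

theorem f2_sum {n : ℕ} (hn : p = 2 * n + 1) (h2 : p ≠ 2) {e : AddChar (ZMod p) F}
    (he : e.IsPrimitive) (h2F : (2 : F) ≠ 0) {c : F} (hc : 2 * c = chi F (-1 : ZMod p) * p + 1) :
    2 * (∑ j ∈ range n, (pol2 e c).coeff (4 + 2 * j) + chi F (-1 : ZMod p)) =
      (1 - c) * (PP e + QQ e) := by
  have h := star_sum (pol2 e c) (pol2_natDegree_le hn e c) (pol2_coeff_two hn h2 he h2F c hc)
  rw [pol2_coeff_zero hn h2] at h
  rw [h, pol2, PP, QQ]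
  simp
  ring

end MP0e3347

namespace MP0e3347

section mk

variable {F : Type*} [Field F]

/-- Polynomial with prescribed even and odd coefficients. -/
noncomputable def mkPol (n : ℕ) (a b : ℕ → F) : F[X] :=
  ∑ m ∈ range (n + 2), C (a m) * X ^ (2 * m) + ∑ m ∈ range (n + 1), C (b m) * X ^ (2 * m + 1)

lemma mkPol_coeff_even (n : ℕ) (a b : ℕ → F) {m : ℕ} (hm : m < n + 2) :
    (mkPol n a b).coeff (2 * m) = a m := by
  rw [mkPol, coeff_add, finsetSum_coeff, finsetSum_coeff]
  have h1 : ∀ k ∈ range (n + 2), (C (a k) * X ^ (2 * k)).coeff (2 * m) = if k = m then a m else 0 := by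
    intro k _
    rw [coeff_C_mul_X_pow]
    by_cases h : k = m
    · simp [h]
    · rw [if_neg h, if_neg (by omega)]
  have h2 : ∀ k ∈ range (n + 1), (C (b k) * X ^ (2 * k + 1)).coeff (2 * m) = 0 := by
    intro k _
    rw [coeff_C_mul_X_pow, if_neg (by omega)]
  rw [Finset.sum_congr rfl h1, Finset.sum_congr rfl h2]
  simp [hm]

lemma mkPol_coeff_odd (n : ℕ) (a b : ℕ → F) {m : ℕ} (hm : m < n + 1) :
    (mkPol n a b).coeff (2 * m + 1) = b m := by
  rw [mkPol, coeff_add, finsetSum_coeff, finsetSum_coeff]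
  have h1 : ∀ k ∈ range (n + 2), (C (a k) * X ^ (2 * k)).coeff (2 * m + 1) = 0 := by
    intro k _
    rw [coeff_C_mul_X_pow, if_neg (by omega)]
  have h2 : ∀ k ∈ range (n + 1), (C (b k) * X ^ (2 * k + 1)).coeff (2 * m + 1) =
      if k = m then b m else 0 := by
    intro k _
    rw [coeff_C_mul_X_pow]
    by_cases h : k = m
    · simp [h]
    · rw [if_neg h, if_neg (by omega)]
  rw [Finset.sum_congr rfl h1, Finset.sum_congr rfl h2]
  simp [hm]

lemma mkPol_eval (n : ℕ) (a b : ℕ → F) (x : F) :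
    (mkPol n a b).eval x =
      ∑ m ∈ range (n + 2), a m * x ^ (2 * m) + ∑ m ∈ range (n + 1), b m * x ^ (2 * m + 1) := by
  rw [mkPol, eval_add, eval_finsetSum, eval_finsetSum]
  simp

lemma mkPol_natDegree (n : ℕ) (a b : ℕ → F) (ha : a (n + 1) = 0) :
    (mkPol n a b).natDegree ≤ 2 * n + 1 := by
  unfold mkPol
  refine natDegree_add_le_of_degree_le ?_ ?_
  · refine natDegree_sum_le_of_forall_le _ _ fun m hm => ?_
    rw [mem_range] at hm
    by_cases h : m = n + 1
    · rw [h, ha]; simp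
    · exact (natDegree_C_mul_X_pow_le _ _).trans (by omega)
  · refine natDegree_sum_le_of_forall_le _ _ fun m hm => ?_
    rw [mem_range] at hm
    exact (natDegree_C_mul_X_pow_le _ _).trans (by omega)

end mk

variable {p : ℕ} [hp : Fact p.Prime] {F : Type*} [Field F]

lemma uu_injOn (h2 : p ≠ 2) {e : AddChar (ZMod p) F} (he : e.IsPrimitive) :
    Set.InjOn (uu e) (univ.erase (0 : ZMod p) : Finset (ZMod p)) := by
  intro i hi j hj hij
  have hi' : i ≠ 0 := ne_of_mem_erase (Finset.mem_coe.mp hi)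
  have hj' : j ≠ 0 := ne_of_mem_erase (Finset.mem_coe.mp hj)
  have h3 : e (2 * i) = e (2 * j) := by
    rw [← uu_sq h2 e hi', ← uu_sq h2 e hj', hij]
  have h4 : e (2 * i - 2 * j) = 1 := by
    rw [sub_eq_add_neg, AddChar.map_add_eq_mul, h3, e_mul_neg]
  by_contra hne
  have h5 : 2 * i - 2 * j ≠ 0 := by
    rw [← mul_sub]
    exact mul_ne_zero (two_ne_zero' h2) (sub_ne_zero.mpr hne)
  refine (he h5) ?_
  ext k
  rw [AddChar.mulShift_apply, mul_comm, ← ZMod.natCast_zmod_val k, ← e_pow, h4, one_pow]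
  rfl

lemma EE_dvd (h2 : p ≠ 2) {e : AddChar (ZMod p) F} (he : e.IsPrimitive) (Q : F[X])
    (hQ : ∀ i : ZMod p, i ≠ 0 → Q.eval (uu e i) = 0) : EE e ∣ Q := by
  unfold EE
  refine Finset.prod_dvd_of_coprime ?_ ?_
  · intro i hi j hj hij
    exact isCoprime_X_sub_C_of_isUnit_sub
      (sub_ne_zero.mpr fun h => hij (uu_injOn h2 he hi hj h)).isUnit
  · intro i hi
    rw [dvd_iff_isRoot]
    exact hQ i (ne_of_mem_erase hi)

lemma kap_ne_zero (h2 : p ≠ 2) {e : AddChar (ZMod p) F} (he : e.IsPrimitive)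
    (hpF : (p : F) ≠ 0) : kap e ≠ 0 := by
  intro h
  have := kap_sq h2 he
  rw [h] at this
  have h3 := mul_ne_zero (chi_ne_zero (F := F) (neg_one_ne_zero' (p := p))) hpF
  rw [← this] at h3
  simp at h3

lemma tau_ne_zero (h2 : p ≠ 2) {e : AddChar (ZMod p) F} (he : e.IsPrimitive)
    (hpF : (p : F) ≠ 0) : tau e ≠ 0 := by
  intro h
  have := tau_sq h2 he
  rw [h] at this
  have h3 := mul_ne_zero (chi_ne_zero (F := F) (neg_one_ne_zero' (p := p))) hpF
  rw [← this] at h3
  simp at h3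

/-- a polynomial of degree at most `2n+1` vanishing at the nodes, with no constant and no
quadratic coefficient, is zero -/
lemma poly_zero {n : ℕ} (hn : p = 2 * n + 1) (h2 : p ≠ 2) {e : AddChar (ZMod p) F}
    (he : e.IsPrimitive) (hpF : (p : F) ≠ 0) (Q : F[X]) (hdeg : Q.natDegree ≤ 2 * n + 1)
    (h0 : Q.coeff 0 = 0) (hc2 : Q.coeff 2 = 0)
    (hQ : ∀ i : ZMod p, i ≠ 0 → Q.eval (uu e i) = 0) : Q = 0 := by
  obtain ⟨q, hq⟩ := EE_dvd h2 he Q hQ
  by_contra hne
  have hq0 : q ≠ 0 := by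
    rintro rfl
    exact hne (by rw [hq, mul_zero])
  have hdq : q.natDegree ≤ 1 := by
    have h3 : Q.natDegree = 2 * n + q.natDegree := by
      rw [hq, (EE_monic e).natDegree_mul' hq0, EE_natDegree hn]
    omega
  have hq2 : q.coeff 2 = 0 := coeff_eq_zero_of_natDegree_lt (by omega)
  have hc0 : q.coeff 0 = 0 := by
    rw [hq, mul_coeff_zero, EE_coeff_zero hn h2] at h0
    exact (mul_eq_zero.mp h0).resolve_left (chi_ne_zero neg_one_ne_zero')
  have hc1 : q.coeff 1 = 0 := by
    rw [hq, coeff_mul_two, hq2, hc0, EE_coeff_one hn h2, mul_zero, mul_zero, zero_add,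
      add_zero] at hc2
    exact (mul_eq_zero.mp hc2).resolve_left
      (neg_ne_zero.mpr (mul_ne_zero (chi_ne_zero neg_one_ne_zero') (kap_ne_zero h2 he hpF)))
  apply hq0
  rw [eq_X_add_C_of_natDegree_le_one hdq, hc0, hc1]
  simp

lemma sum_zmod_split {n : ℕ} (hn : p = 2 * n + 1) (G : ZMod p → F)
    (hG : ∀ k < n, G (k : ZMod p) = 0) :
    ∑ k : ZMod p, G k = ∑ m ∈ range (n + 1), G ((n + m : ℕ) : ZMod p) := by
  have h1 : ∑ k : ZMod p, G k = ∑ k ∈ range p, G (k : ZMod p) := by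
    symm
    refine Finset.sum_bij' (fun k _ => (k : ZMod p)) (fun k _ => k.val) ?_ ?_ ?_ ?_ ?_
    · intro k _; exact mem_univ _
    · intro k _; exact mem_range.mpr (ZMod.val_lt k)
    · intro k hk
      exact ZMod.val_cast_of_lt (mem_range.mp hk)
    · intro k _
      exact ZMod.natCast_zmod_val k
    · intro k _; rfl
  rw [h1]
  have h3 : ∀ q : ℕ, q = n + (n + 1) → ∑ k ∈ range q, G (k : ZMod p) =
      ∑ m ∈ range (n + 1), G ((n + m : ℕ) : ZMod p) := by
    intro q hq
    rw [hq, Finset.sum_range_add, Finset.sum_eq_zero (s := range n), zero_add]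
    intro k hk
    exact hG k (mem_range.mp hk)
  exact h3 p (by omega)

/-- The kernel argument. -/
theorem kernel {m n : ℕ} (hm : n = m + 1) (hn : p = 2 * n + 1) (h2 : p ≠ 2)
    {e : AddChar (ZMod p) F}
    (he : e.IsPrimitive) (hpF : (p : F) ≠ 0) (f : ℕ → F) (g : F)
    (H : ∀ k < n, ∑ j ∈ range m, f j * chi F ((j : ZMod p) - (k : ZMod p) + 1) + g = 0) :
    (∀ j < m, f j = 0) ∧ g = 0 := by
  have ht := tau_ne_zero h2 he hpF
  -- the function G
  set G : ZMod p → F := fun k => tau e *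
    (∑ j ∈ range m, f j * chi F ((j : ZMod p) - k + 1) + g) with hG
  have hG0 : ∀ k < n, G (k : ZMod p) = 0 := by
    intro k hk
    rw [hG]
    simp only
    rw [H k hk, mul_zero]
  set a : ℕ → F := fun s => if 2 ≤ s ∧ s < m + 2 then f (s - 2) else 0 with ha
  set b : ℕ → F := fun s => - (p : F)⁻¹ * G ((n + s : ℕ) : ZMod p) with hb
  have hpz : (2 * n + 1 : ZMod p) = 0 := by
    have : ((2 * n + 1 : ℕ) : ZMod p) = 0 := by rw [← hn]; exact ZMod.natCast_self p
    exact_mod_cast this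
  -- odd part
  have hbs : ∀ i : ZMod p, ∑ s ∈ range (n + 1), b s * e ((2 * s + 1) * i) =
      - (p : F)⁻¹ * ∑ k : ZMod p, G k * e (2 * i * (k + 1)) := by
    intro i
    rw [sum_zmod_split hn (fun k => G k * e (2 * i * (k + 1)))
      (fun k hk => by rw [hG0 k hk, zero_mul]), Finset.mul_sum]
    refine Finset.sum_congr rfl fun s _ => ?_
    have : (2 * (s : ZMod p) + 1) * i = 2 * i * (((n + s : ℕ) : ZMod p) + 1) := by
      push_cast
      linear_combination (-i) * hpz
    rw [this, hb]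
    ring
  have hGi : ∀ i : ZMod p, ∑ k : ZMod p, G k * e (2 * i * (k + 1)) =
      p * (∑ j ∈ range m, f j * (chi F (2 * i) * e (2 * ((j : ZMod p) + 2) * i))) +
      tau e * g * ∑ k : ZMod p, e (2 * i * (k + 1)) := by
    intro i
    have h4 : ∀ j : ℕ, ∑ k : ZMod p, chi F ((j : ZMod p) - k + 1) * e (2 * i * (k + 1)) =
        e (2 * ((j : ZMod p) + 2) * i) * (chi F (-1 : ZMod p) * chi F (2 * i) * tau e) := by
      intro j
      have h5 : ∑ k : ZMod p, chi F ((j : ZMod p) - k + 1) * e (2 * i * (k + 1)) =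
          ∑ r : ZMod p, chi F r * e (2 * i * ((j : ZMod p) + 2 - r)) := by
        refine Fintype.sum_bijective (fun k => (j : ZMod p) - k + 1) ?_ _ _ ?_
        · refine Function.bijective_iff_has_inverse.mpr ⟨fun r => (j : ZMod p) - r + 1, ?_, ?_⟩
          · intro k; ring
          · intro k; ring
        · intro k
          congr 2
          ring
      rw [h5]
      have h6 : ∀ r : ZMod p, chi F r * e (2 * i * ((j : ZMod p) + 2 - r)) =
          e (2 * ((j : ZMod p) + 2) * i) * (chi F r * e (r * (-1 * (2 * i)))) := by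
        intro r
        have : 2 * i * ((j : ZMod p) + 2 - r) = 2 * ((j : ZMod p) + 2) * i + r * (-1 * (2 * i)) := by
          ring
        rw [this, AddChar.map_add_eq_mul]
        ring
      rw [Finset.sum_congr rfl fun r _ => h6 r, ← Finset.mul_sum, sum_chi_mul h2, chi_mul]
    have h7 : ∑ k : ZMod p, G k * e (2 * i * (k + 1)) =
        tau e * (∑ j ∈ range m, f j *
          (∑ k : ZMod p, chi F ((j : ZMod p) - k + 1) * e (2 * i * (k + 1)))) +
        tau e * g * ∑ k : ZMod p, e (2 * i * (k + 1)) := by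
      rw [hG]
      simp only
      have : ∀ k : ZMod p, tau e * (∑ j ∈ range m, f j * chi F ((j : ZMod p) - k + 1) + g) *
          e (2 * i * (k + 1)) =
          tau e * (∑ j ∈ range m, f j * (chi F ((j : ZMod p) - k + 1) * e (2 * i * (k + 1)))) +
          tau e * g * e (2 * i * (k + 1)) := by
        intro k
        have : ∑ j ∈ range m, f j * (chi F ((j : ZMod p) - k + 1) * e (2 * i * (k + 1))) =
            (∑ j ∈ range m, f j * chi F ((j : ZMod p) - k + 1)) * e (2 * i * (k + 1)) := by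
          rw [Finset.sum_mul]
          refine Finset.sum_congr rfl fun j _ => by ring
        rw [this]; ring
      rw [Finset.sum_congr rfl fun k _ => this k, Finset.sum_add_distrib, ← Finset.mul_sum,
        ← Finset.mul_sum, Finset.sum_comm]
      simp_rw [Finset.mul_sum]
    rw [h7]
    congr 1
    rw [Finset.mul_sum, Finset.mul_sum]
    refine Finset.sum_congr rfl fun j _ => ?_
    rw [h4]
    have h8 := tau_sq h2 he
    have h9 : chi F (-1 : ZMod p) * chi F (-1 : ZMod p) = 1 := chi_mul_self neg_one_ne_zero'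
    linear_combination (f j * e (2 * ((j : ZMod p) + 2) * i) * chi F (-1 : ZMod p) *
      chi F (2 * i)) * h8 + (f j * e (2 * ((j : ZMod p) + 2) * i) * chi F (2 * i) * p) * h9
  -- even part
  have has : ∀ x : ℕ → F, ∑ s ∈ range (n + 2), a s * x s = ∑ j ∈ range m, f j * x (j + 2) := by
    intro x
    rw [Finset.sum_range_succ', Finset.sum_range_succ', hm, Finset.sum_range_succ]
    have e0 : a 0 = 0 := by simp [ha]
    have e1 : a (0 + 1) = 0 := by simp [ha]
    have e2 : a (m + 1 + 1) = 0 := by simp [ha]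
    rw [e0, e1, e2, zero_mul, zero_mul, zero_mul, add_zero, add_zero, add_zero]
    refine Finset.sum_congr rfl fun j hj => ?_
    rw [mem_range] at hj
    congr 1
    rw [ha]
    simp only
    rw [if_pos ⟨by omega, by omega⟩]
    rfl
  set Q := mkPol n a b with hQ
  have hQ0 : Q = 0 := by
    refine poly_zero hn h2 he hpF Q ?_ ?_ ?_ ?_
    · refine mkPol_natDegree n a b ?_
      rw [ha]; simp only
      rw [if_neg (by omega)]
    · have := mkPol_coeff_even n a b (m := 0) (by omega)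
      rw [mul_zero] at this
      rw [hQ, this, ha]
      simp
    · have := mkPol_coeff_even n a b (m := 1) (by omega)
      rw [mul_one] at this
      rw [hQ, this, ha]
      simp
    · intro i hi
      rw [hQ, mkPol_eval]
      have e1 : ∑ s ∈ range (n + 2), a s * uu e i ^ (2 * s) =
          ∑ j ∈ range m, f j * e (2 * ((j : ZMod p) + 2) * i) := by
        rw [has]
        refine Finset.sum_congr rfl fun j _ => ?_
        rw [uu_pow_even h2 e hi]
        push_cast
        rfl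
      have e2 : ∑ s ∈ range (n + 1), b s * uu e i ^ (2 * s + 1) =
          chi F (2 * i) * ∑ s ∈ range (n + 1), b s * e ((2 * s + 1) * i) := by
        rw [Finset.mul_sum]
        refine Finset.sum_congr rfl fun s _ => ?_
        rw [uu_pow_odd h2 e hi]
        ring
      have e3 : ∑ k : ZMod p, e (2 * i * (k + 1)) = 0 := by
        have h2i : 2 * i ≠ 0 := mul_ne_zero (two_ne_zero' h2) hi
        rw [← sum_e he h2i]
        refine Fintype.sum_bijective (fun k => k + 1) (Equiv.addRight (1 : ZMod p)).bijective _ _ ?_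
        intro k
        rw [mul_comm]
      rw [e1, e2, hbs, hGi, e3, mul_zero, add_zero, Finset.mul_sum, Finset.mul_sum,
        Finset.mul_sum, ← Finset.sum_add_distrib]
      refine Finset.sum_eq_zero fun j _ => ?_
      have h9 : chi F (2 * i) * chi F (2 * i) = 1 :=
        chi_mul_self (mul_ne_zero (two_ne_zero' h2) hi)
      field_simp
      linear_combination (-f j * e (2 * ((j : ZMod p) + 2) * i)) * h9
  constructor
  · intro j hj
    have h3 := mkPol_coeff_even n a b (m := j + 2) (by omega)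
    rw [← hQ, hQ0, coeff_zero, ha] at h3
    simp only at h3
    rw [if_pos ⟨by omega, by omega⟩, Nat.add_sub_cancel] at h3
    exact h3.symm
  · have hb0 : ∀ s < n + 1, b s = 0 := by
      intro s hs
      have h3 := mkPol_coeff_odd n a b hs
      rw [← hQ, hQ0, coeff_zero] at h3
      exact h3.symm
    have h3 := hbs 0
    rw [Finset.sum_eq_zero (fun s hs => by rw [hb0 s (mem_range.mp hs), zero_mul]), hGi] at h3
    simp only [mul_zero, chi_zero, zero_mul, Finset.sum_const_zero, AddChar.map_zero_eq_one,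
      zero_add, Finset.sum_const, Finset.card_univ, ZMod.card, nsmul_eq_mul, mul_one] at h3
    have h4 : (p : F)⁻¹ * p = 1 := inv_mul_cancel₀ hpF
    have h5 : tau e * g = 0 := by
      linear_combination (-tau e * g) * h4 + h3
    exact (mul_eq_zero.mp h5).resolve_left ht

end MP0e3347
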