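import Pool.Agent.Lib.MP_0e3347_nt.AlgA

open Finset Polynomial

namespace MP0e3347

section DetFormula

variable {R : Type*} [CommRing R] {m : ℕ}

/-- The sum of all entries of the adjugate. -/
def GG (A : Matrix (Fin (m + 1)) (Fin (m + 1)) R) : R := ∑ i, ∑ j, A.adjugate i j

/-- The sum of all entries of the adjugate, weighted by the first column. -/
def HH (A : Matrix (Fin (m + 1)) (Fin (m + 1)) R) : R := ∑ i, ∑ j, A i 0 * A.adjugate i j

theorem det_formula (A : Matrix (Fin (m + 1)) (Fin (m + 1)) R) (hA : IsUnit A.det)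
    (h0 : A 0 0 = 1) (x y z w : R) :
    (Matrix.of fun i j => x + A i j + A i 0 * y + A j 0 * z + A i 0 * A j 0 * w).det =
      A.det * (1 + y + w) + GG A * ((w + 1) * x - y * z) + HH A * ((y + 1) * z - w * x) := by
  set u : Fin (m + 1) → R := fun i => A i 0 with hu
  set o : Fin (m + 1) → R := fun _ => 1 with ho
  set U : Matrix (Fin (m + 1)) (Fin 2) R := Matrix.of fun i s => ![o, u] s i with hU
  set V : Matrix (Fin 2) (Fin (m + 1)) R := Matrix.of ![x • o + z • u, y • o + w • u] with hV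
  have hM : (Matrix.of fun i j => x + A i j + A i 0 * y + A j 0 * z + A i 0 * A j 0 * w) =
      A + U * V := by
    ext i j
    simp [hU, hV, Matrix.mul_apply, Fin.sum_univ_two, ho, hu]
    ring
  have hAu : A⁻¹.mulVec u = Pi.single 0 1 := by
    have h1 : A.mulVec (Pi.single 0 1) = u := by
      ext i
      simp [hu]
    rw [← h1, Matrix.mulVec_mulVec, Matrix.nonsing_inv_mul _ hA, Matrix.one_mulVec]
  set g : R := o ⬝ᵥ A⁻¹.mulVec o with hg
  set h : R := u ⬝ᵥ A⁻¹.mulVec o with hh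
  have hadj : ∀ v : Fin (m + 1) → R, A.det * (v ⬝ᵥ A⁻¹.mulVec o) = ∑ i, ∑ j, v i * A.adjugate i j := by
    intro v
    have h2 : A.det • A⁻¹ = A.adjugate := by
      rw [Matrix.inv_def, smul_smul, Ring.mul_inverse_cancel _ hA, one_smul]
    rw [← smul_eq_mul, ← dotProduct_smul, ← Matrix.smul_mulVec, h2]
    simp only [dotProduct, Matrix.mulVec, ho, mul_one, Finset.mul_sum]
  have hG : A.det * g = GG A := by
    rw [hg, hadj, GG]; simp [ho]
  have hH : A.det * h = HH A := by
    rw [hh, hadj, HH]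
  have e00 : (V * A⁻¹ * U) 0 0 = x * g + z * h := by
    have : (V * A⁻¹ * U) 0 0 = (x • o + z • u) ⬝ᵥ A⁻¹.mulVec o := by
      rw [Matrix.mul_assoc, Matrix.mul_apply_eq_vecMul]
      simp [hV, hU, Matrix.vecMul, dotProduct, Matrix.mul_apply, Matrix.mulVec]
    rw [this, add_dotProduct, smul_dotProduct, smul_dotProduct]
    rfl
  have e01 : (V * A⁻¹ * U) 0 1 = x + z := by
    have : (V * A⁻¹ * U) 0 1 = (x • o + z • u) ⬝ᵥ A⁻¹.mulVec u := by
      rw [Matrix.mul_assoc, Matrix.mul_apply_eq_vecMul]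
      simp [hV, hU, Matrix.vecMul, dotProduct, Matrix.mul_apply, Matrix.mulVec]
    rw [this, hAu]
    simp [ho, hu, h0]
  have e10 : (V * A⁻¹ * U) 1 0 = y * g + w * h := by
    have : (V * A⁻¹ * U) 1 0 = (y • o + w • u) ⬝ᵥ A⁻¹.mulVec o := by
      rw [Matrix.mul_assoc, Matrix.mul_apply_eq_vecMul]
      simp [hV, hU, Matrix.vecMul, dotProduct, Matrix.mul_apply, Matrix.mulVec]
    rw [this, add_dotProduct, smul_dotProduct, smul_dotProduct]
    rfl
  have e11 : (V * A⁻¹ * U) 1 1 = y + w := by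
    have : (V * A⁻¹ * U) 1 1 = (y • o + w • u) ⬝ᵥ A⁻¹.mulVec u := by
      rw [Matrix.mul_assoc, Matrix.mul_apply_eq_vecMul]
      simp [hV, hU, Matrix.vecMul, dotProduct, Matrix.mul_apply, Matrix.mulVec]
    rw [this, hAu]
    simp [ho, hu, h0]
  rw [hM, Matrix.det_add_mul U V hA, Matrix.det_fin_two, Matrix.add_apply, Matrix.add_apply,
    Matrix.add_apply, Matrix.add_apply, e00, e01, e10, e11, Matrix.one_apply_eq,
    Matrix.one_apply_eq, Matrix.one_apply_ne (by decide), Matrix.one_apply_ne (by decide),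
    ← hG, ← hH]
  ring

lemma GG_map {S : Type*} [CommRing S] (f : R →+* S) (A : Matrix (Fin (m + 1)) (Fin (m + 1)) R) :
    GG (A.map f) = f (GG A) := by
  unfold GG
  rw [map_sum]
  refine Finset.sum_congr rfl fun i _ => ?_
  rw [map_sum]
  refine Finset.sum_congr rfl fun j _ => ?_
  have := RingHom.map_adjugate f A
  rw [← RingHom.mapMatrix_apply, ← this]
  rfl

lemma HH_map {S : Type*} [CommRing S] (f : R →+* S) (A : Matrix (Fin (m + 1)) (Fin (m + 1)) R) :
    HH (A.map f) = f (HH A) := by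
  unfold HH
  rw [map_sum]
  refine Finset.sum_congr rfl fun i _ => ?_
  rw [map_sum]
  refine Finset.sum_congr rfl fun j _ => ?_
  have := RingHom.map_adjugate f A
  rw [← RingHom.mapMatrix_apply, ← this, map_mul]
  rfl

end DetFormula

section Mat

variable {p : ℕ} [hp : Fact p.Prime]

/-- The matrix `[χ(i - j + 1)]` over `ℤ`. -/
def AA (p : ℕ) [Fact p.Prime] (m : ℕ) : Matrix (Fin (m + 1)) (Fin (m + 1)) ℤ :=
  Matrix.of fun i j => quadraticChar (ZMod p) (((i : ℕ) : ZMod p) - ((j : ℕ) : ZMod p) + 1)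

/-- `AA` with the last row replaced by ones. -/
def AL (p : ℕ) [Fact p.Prime] (m : ℕ) : Matrix (Fin (m + 1)) (Fin (m + 1)) ℤ :=
  (AA p m).updateRow (Fin.last m) (fun _ => 1)

lemma AA_zero (m : ℕ) : AA p m 0 0 = 1 := by
  simp [AA]

variable {F : Type*} [Field F]

lemma AA_map_apply (m : ℕ) (i j : Fin (m + 1)) :
    ((AA p m).map (Int.castRingHom F)) i j =
      chi F (((i : ℕ) : ZMod p) - ((j : ℕ) : ZMod p) + 1) := by
  simp [AA, chi]

/-- Nonsingularity of the modified matrix over fields of characteristic `≠ p`. -/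
theorem AL_det_ne_zero {m : ℕ} (hn : p = 2 * (m + 1) + 1) {e : AddChar (ZMod p) F}
    (he : e.IsPrimitive) (hpF : (p : F) ≠ 0) :
    ((AL p m).map (Int.castRingHom F)).det ≠ 0 := by
  have h2 : p ≠ 2 := by omega
  intro hdet
  obtain ⟨v, hv, hv0⟩ := Matrix.exists_vecMul_eq_zero_iff.mpr hdet
  have hk := kernel (m := m) rfl hn h2 he hpF
    (fun j => if h : j < m then v (Fin.castSucc ⟨j, h⟩) else 0) (v (Fin.last m)) (by
      intro k hk
      have h3 := congrFun hv0 ⟨k, hk⟩
      rw [Matrix.vecMul, dotProduct, Fin.sum_univ_castSucc] at h3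
      rw [Finset.sum_range]
      rw [← h3.trans (by rfl : (0 : Fin (m + 1) → F) ⟨k, hk⟩ = 0)]
      congr 1
      · refine Finset.sum_congr rfl fun j _ => ?_
        have hj : (j : ℕ) < m := j.2
        simp only [hj, dite_true]
        congr 1
        rw [AL, Matrix.map_apply, Matrix.updateRow_ne (Fin.castSucc_lt_last j).ne]
        simp [AA, chi]
      · simp [AL])
  obtain ⟨hk1, hk2⟩ := hk
  apply hv
  ext i
  refine Fin.lastCases ?_ ?_ i
  · exact hk2
  · intro j
    have := hk1 j j.2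
    simpa using this

lemma exists_char (F : Type*) [Field F] [IsSepClosed F] (hpF : (p : F) ≠ 0) :
    ∃ e : AddChar (ZMod p) F, e.IsPrimitive := by
  have : NeZero (p : F) := ⟨hpF⟩
  obtain ⟨ζ, hζ⟩ := HasEnoughRootsOfUnity.exists_primitiveRoot F p
  exact ⟨_, AddChar.zmodChar_primitive_of_primitive_root p hζ⟩

theorem AL_not_dvd {m : ℕ} (hn : p = 2 * (m + 1) + 1) {l : ℕ} (hl : l.Prime) (hlp : l ≠ p) :
    ¬ (l : ℤ) ∣ (AL p m).det := by
  have : Fact l.Prime := ⟨hl⟩
  have hpF : (p : AlgebraicClosure (ZMod l)) ≠ 0 := by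
    intro h
    have h1 : ((p : ℕ) : AlgebraicClosure (ZMod l)) = 0 := h
    rw [CharP.cast_eq_zero_iff (AlgebraicClosure (ZMod l)) l] at h1
    exact hlp ((Nat.prime_dvd_prime_iff_eq hl hp.out).mp h1)
  obtain ⟨e, he⟩ := exists_char (p := p) (AlgebraicClosure (ZMod l)) hpF
  have h3 := AL_det_ne_zero (F := AlgebraicClosure (ZMod l)) hn he hpF
  intro hdvd
  apply h3
  have h4 : ((AL p m).map (Int.castRingHom (AlgebraicClosure (ZMod l)))).det =
      ((AL p m).det : AlgebraicClosure (ZMod l)) := by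
    rw [← RingHom.mapMatrix_apply, ← RingHom.map_det]
    rfl
  rw [h4]
  exact (CharP.intCast_eq_zero_iff (AlgebraicClosure (ZMod l)) l _).mpr hdvd

lemma two_not_dvd_AA {m : ℕ} (hn : p = 2 * (m + 1) + 1) : ¬ (2 : ℤ) ∣ (AA p m).det := by
  have h1 := AL_not_dvd hn Nat.prime_two (by omega)
  intro h
  apply h1
  have h3 : (AA p m).map (Int.castRingHom (ZMod 2)) = (AL p m).map (Int.castRingHom (ZMod 2)) := by
    ext i j
    refine Fin.lastCases ?_ ?_ i
    · rw [AL, Matrix.map_apply, Matrix.map_apply, Matrix.updateRow_self]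
      have hne : (((Fin.last m : Fin (m + 1)) : ℕ) : ZMod p) - ((j : ℕ) : ZMod p) + 1 ≠ 0 := by
        intro h0
        have hj := j.2
        have h5 : (((m - (j : ℕ) + 1 : ℕ)) : ZMod p) = 0 := by
          have : (j : ℕ) ≤ m := by omega
          push_cast [this]
          simpa using h0
        rw [ZMod.natCast_eq_zero_iff] at h5
        have := Nat.le_of_dvd (by omega) h5
        omega
      rcases quadraticChar_dichotomy hne with h | h <;> simp only [AA, Matrix.of_apply, h] <;> decide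
    · intro k
      rw [AL, Matrix.map_apply, Matrix.map_apply, Matrix.updateRow_ne (Fin.castSucc_lt_last k).ne]
  have h4 : (((AA p m).det : ℤ) : ZMod 2) = (((AL p m).det : ℤ) : ZMod 2) := by
    have e1 : (((AA p m).det : ℤ) : ZMod 2) = ((AA p m).map (Int.castRingHom (ZMod 2))).det := by
      rw [← RingHom.mapMatrix_apply, ← RingHom.map_det]
      rfl
    have e2 : (((AL p m).det : ℤ) : ZMod 2) = ((AL p m).map (Int.castRingHom (ZMod 2))).det := by
      rw [← RingHom.mapMatrix_apply, ← RingHom.map_det]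
      rfl
    rw [e1, e2, h3]
  have h5 : (((AA p m).det : ℤ) : ZMod 2) = 0 :=
    (ZMod.intCast_zmod_eq_zero_iff_dvd _ 2).mpr (by exact_mod_cast h)
  rw [h5] at h4
  have := (ZMod.intCast_zmod_eq_zero_iff_dvd _ 2).mp h4.symm
  exact_mod_cast this

lemma AA_det_ne_zero {m : ℕ} (hn : p = 2 * (m + 1) + 1) : (AA p m).det ≠ 0 := by
  intro h
  exact two_not_dvd_AA hn (by rw [h]; exact dvd_zero 2)

end Mat

end MP0e3347

namespace MP0e3347

variable {p : ℕ} [hp : Fact p.Prime] {F : Type*} [Field F]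

lemma vecMul_pair {m : ℕ} (A : Matrix (Fin (m + 1)) (Fin (m + 1)) F) (v w : Fin (m + 1) → F)
    (h : Matrix.vecMul v A = w) : A.det * ∑ i, v i = ∑ i, ∑ j, w i * A.adjugate i j := by
  have h1 : A.mulVec (A.adjugate.mulVec (fun _ => 1)) = A.det • (fun _ => (1 : F)) := by
    rw [Matrix.mulVec_mulVec, Matrix.mul_adjugate, Matrix.smul_mulVec, Matrix.one_mulVec]
  have h2 : v ⬝ᵥ A.mulVec (A.adjugate.mulVec (fun _ => 1)) = A.det * ∑ i, v i := by
    rw [h1, dotProduct_smul, smul_eq_mul]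
    simp [dotProduct]
  rw [← h2, Matrix.dotProduct_mulVec, h]
  simp [dotProduct, Matrix.mulVec, Finset.mul_sum]

/-- `κ · 2τ · det A = D · det A'`. -/
theorem det_rel {m : ℕ} (hn : p = 2 * (m + 1) + 1) {e : AddChar (ZMod p) F}
    (he : e.IsPrimitive) :
    kap e * (2 * tau e) * ((AA p m).det : F) = DD e * ((AL p m).det : F) := by
  have h2 : p ≠ 2 := by omega
  set M : Matrix (Fin (m + 1)) (Fin (m + 1)) F := (AA p m).map (Int.castRingHom F) with hM
  have hMd : ((AA p m).det : F) = M.det := by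
    rw [hM, ← RingHom.mapMatrix_apply, ← RingHom.map_det]
    rfl
  have hLd : ((AL p m).det : F) = (M.updateRow (Fin.last m) (fun _ => 1)).det := by
    have : (AL p m).map (Int.castRingHom F) = M.updateRow (Fin.last m) (fun _ => 1) := by
      ext i j
      refine Fin.lastCases ?_ ?_ i
      · simp [AL]
      · intro k
        rw [AL, Matrix.map_apply, Matrix.updateRow_ne (Fin.castSucc_lt_last k).ne,
          Matrix.updateRow_ne (Fin.castSucc_lt_last k).ne]
        rfl
    rw [← this, ← RingHom.mapMatrix_apply, ← RingHom.map_det]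
    rfl
  set f : Fin (m + 1) → F := fun j => 2 * tau e * (pol1 e).coeff (4 + 2 * (j : ℕ)) with hf
  have hrow : ∑ k, f k • M k = DD e • (fun _ => (1 : F)) := by
    ext k
    have h3 := f1_row hn h2 he k.2
    rw [Finset.sum_range, Finset.mul_sum] at h3
    simp only [Finset.sum_apply, Pi.smul_apply, smul_eq_mul, mul_one]
    rw [← h3]
    refine Finset.sum_congr rfl fun j _ => ?_
    rw [hM, AA_map_apply, hf]
    ring
  have h4 := Matrix.det_updateRow_sum M (Fin.last m) f
  rw [hrow, Matrix.det_updateRow_smul] at h4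
  rw [hMd, hLd, h4]
  rw [smul_eq_mul, hf]
  simp only [Fin.val_last]
  rw [show 4 + 2 * m = 2 * (m + 1) + 2 by ring, pol1_coeff_top hn]
  ring

/-- `D · G = τ D' det A`. -/
theorem GG_rel {m : ℕ} (hn : p = 2 * (m + 1) + 1) {e : AddChar (ZMod p) F}
    (he : e.IsPrimitive) :
    DD e * ((GG (AA p m) : ℤ) : F) = tau e * DD' e * ((AA p m).det : F) := by
  have h2 : p ≠ 2 := by omega
  set M : Matrix (Fin (m + 1)) (Fin (m + 1)) F := (AA p m).map (Int.castRingHom F) with hM
  have hMd : ((AA p m).det : F) = M.det := by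
    rw [hM, ← RingHom.mapMatrix_apply, ← RingHom.map_det]
    rfl
  have hMG : ((GG (AA p m) : ℤ) : F) = GG M := by
    rw [hM, GG_map]; rfl
  set f : Fin (m + 1) → F := fun j => 2 * tau e * (pol1 e).coeff (4 + 2 * (j : ℕ)) with hf
  have hrow : Matrix.vecMul f M = fun _ => DD e := by
    ext k
    have h3 := f1_row hn h2 he k.2
    rw [Finset.sum_range, Finset.mul_sum] at h3
    rw [Matrix.vecMul, dotProduct, ← h3]
    refine Finset.sum_congr rfl fun j _ => ?_
    rw [hM, AA_map_apply, hf]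
    ring
  have h4 := vecMul_pair M f _ hrow
  have h5 : ∑ i, ∑ j, DD e * M.adjugate i j = DD e * GG M := by
    rw [GG, Finset.mul_sum]
    simp_rw [Finset.mul_sum]
  have h6 : ∑ i, f i = tau e * DD' e := by
    have h7 := f1_sum hn h2 e
    rw [Finset.sum_range] at h7
    rw [← h7, hf, ← Finset.mul_sum]
    ring
  rw [h5, h6] at h4
  rw [hMG, hMd, ← h4]
  ring

/-- the relation for `H` -/
theorem HH_rel {m : ℕ} (hn : p = 2 * (m + 1) + 1) (h2F : (2 : F) ≠ 0) {e : AddChar (ZMod p) F}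
    (he : e.IsPrimitive) {c : F} (hc : 2 * c = chi F (-1 : ZMod p) * p + 1) :
    tau e * (((1 - c) * (PP e + QQ e) - 2 * chi F (-1 : ZMod p)) * ((AA p m).det : F) +
      2 * ((HH (AA p m) : ℤ) : F)) =
      (1 - c) * (PP e - QQ e) * ((GG (AA p m) : ℤ) : F) := by
  have h2 : p ≠ 2 := by omega
  set M : Matrix (Fin (m + 1)) (Fin (m + 1)) F := (AA p m).map (Int.castRingHom F) with hM
  have hMd : ((AA p m).det : F) = M.det := by
    rw [hM, ← RingHom.mapMatrix_apply, ← RingHom.map_det]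
    rfl
  have hMG : ((GG (AA p m) : ℤ) : F) = GG M := by
    rw [hM, GG_map]; rfl
  have hMH : ((HH (AA p m) : ℤ) : F) = HH M := by
    rw [hM, HH_map]; rfl
  set f : Fin (m + 1) → F := fun j => 2 * tau e * (pol2 e c).coeff (4 + 2 * (j : ℕ)) with hf
  have hrow : Matrix.vecMul f M =
      fun k => (1 - c) * (PP e - QQ e) - 2 * tau e * M k 0 := by
    ext k
    have h3 := f2_row hn h2 he h2F hc k.2
    rw [Finset.sum_range, mul_add, Finset.mul_sum] at h3
    rw [Matrix.vecMul, dotProduct, ← h3]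
    have h4 : M k 0 = chi F (((k : ℕ) : ZMod p) + 1) := by
      rw [hM, AA_map_apply]; simp
    rw [h4, add_sub_cancel_right]
    refine Finset.sum_congr rfl fun j _ => ?_
    rw [hM, AA_map_apply, hf]
    ring
  have h4 := vecMul_pair M f _ hrow
  have h5 : ∑ i, ∑ j, ((1 - c) * (PP e - QQ e) - 2 * tau e * M i 0) * M.adjugate i j =
      (1 - c) * (PP e - QQ e) * GG M - 2 * tau e * HH M := by
    rw [GG, HH, Finset.mul_sum, Finset.mul_sum, ← Finset.sum_sub_distrib]
    refine Finset.sum_congr rfl fun i _ => ?_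
    rw [Finset.mul_sum, Finset.mul_sum, ← Finset.sum_sub_distrib]
    refine Finset.sum_congr rfl fun j _ => ?_
    ring
  have h6 : ∑ i, f i = tau e * ((1 - c) * (PP e + QQ e) - 2 * chi F (-1 : ZMod p)) := by
    have h7 := f2_sum hn h2 he h2F hc
    rw [Finset.sum_range] at h7
    rw [← h7, hf, ← Finset.mul_sum]
    ring
  rw [h5, h6] at h4
  rw [hMG, hMd, hMH]
  linear_combination h4

/-- `θ = χ(2) det A'`. -/
def theta (p : ℕ) [Fact p.Prime] (m : ℕ) : ℤ := quadraticChar (ZMod p) 2 * (AL p m).det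

lemma theta_cast (m : ℕ) : (theta p m : F) = chi F (2 : ZMod p) * ((AL p m).det : F) := by
  unfold theta chi
  rw [Int.cast_mul]

theorem det_eq {m : ℕ} (hn : p = 2 * (m + 1) + 1) {e : AddChar (ZMod p) F}
    (he : e.IsPrimitive) :
    2 * p * ((AA p m).det : F) = theta p m * DD e := by
  have h2 : p ≠ 2 := by omega
  have h := det_rel hn he
  have h3 := tau_sq h2 he
  have h4 : chi F (-1 : ZMod p) * chi F (-1 : ZMod p) = 1 := chi_mul_self neg_one_ne_zero'
  have h5 : chi F (2 : ZMod p) * chi F (2 : ZMod p) = 1 := chi_mul_self (two_ne_zero' h2)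
  rw [theta_cast, mul_right_comm, mul_assoc, mul_assoc (chi F (2 : ZMod p)),
    mul_comm _ (DD e), ← h, kap]
  linear_combination (-2 * ((AA p m).det : F) * (chi F (2 : ZMod p)) ^ 2 *
    chi F (-1 : ZMod p)) * h3 - (2 * p * ((AA p m).det : F)) * h5 -
    (2 * p * ((AA p m).det : F) * (chi F (2 : ZMod p)) ^ 2) * h4

theorem DD_ne_zero [CharZero F] {m : ℕ} (hn : p = 2 * (m + 1) + 1) {e : AddChar (ZMod p) F}
    (he : e.IsPrimitive) : DD e ≠ 0 := by
  intro h
  have h1 := det_eq hn he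
  rw [h, mul_zero] at h1
  have h3 : ((AA p m).det : F) ≠ 0 := by exact_mod_cast AA_det_ne_zero hn
  have h4 : (p : F) ≠ 0 := by exact_mod_cast hp.out.ne_zero
  exact (mul_ne_zero (mul_ne_zero two_ne_zero h4) h3) h1

theorem GG_eq [CharZero F] {m : ℕ} (hn : p = 2 * (m + 1) + 1) {e : AddChar (ZMod p) F}
    (he : e.IsPrimitive) :
    2 * p * ((GG (AA p m) : ℤ) : F) = theta p m * tau e * DD' e := by
  have h1 := det_eq hn he
  have h2 := GG_rel hn he
  refine mul_left_cancel₀ (DD_ne_zero hn he) ?_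
  linear_combination (2 * p : F) * h2 + (tau e * DD' e) * h1

theorem HH_eq {m : ℕ} (hn : p = 2 * (m + 1) + 1) :
    2 * HH (AA p m) = 2 * quadraticChar (ZMod p) (-1) * (AA p m).det +
      theta p m * (quadraticChar (ZMod p) (-1) * p - 1) := by
  have hp2 : p ≠ 2 := by omega
  have hpF : (p : ℂ) ≠ 0 := by exact_mod_cast hp.out.ne_zero
  obtain ⟨e, he⟩ := exists_char (p := p) ℂ hpF
  have h1 := det_eq hn he
  have h2 := GG_eq hn he
  have h3 := HH_rel hn two_ne_zero he
    (c := (chi ℂ (-1 : ZMod p) * p + 1) / 2) (by ring)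
  have h4 := PP_mul_QQ hn hp2 he
  have ht := tau_ne_zero hp2 he hpF
  set c : ℂ := (chi ℂ (-1 : ZMod p) * p + 1) / 2 with hc
  have h5 : tau e * (4 * p * ((HH (AA p m) : ℤ) : ℂ)) =
      tau e * (2 * p * (2 * chi ℂ (-1 : ZMod p) * ((AA p m).det : ℂ) +
      theta p m * (chi ℂ (-1 : ZMod p) * p - 1))) := by
    rw [DD] at h1
    rw [DD'] at h2
    linear_combination (2 * p : ℂ) * h3 + ((1 - c) * (PP e - QQ e)) * h2 -
      (tau e * ((1 - c) * (PP e + QQ e))) * h1 -
      (4 * (1 - c) * tau e * theta p m) * h4 + (-4 * p * theta p m * tau e) * hc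
  have h6 := mul_left_cancel₀ ht h5
  have h7 : (2 : ℂ) * ((HH (AA p m) : ℤ) : ℂ) = 2 * chi ℂ (-1 : ZMod p) * ((AA p m).det : ℂ) +
      theta p m * (chi ℂ (-1 : ZMod p) * p - 1) := by
    refine mul_left_cancel₀ (mul_ne_zero two_ne_zero hpF) ?_
    linear_combination h6
  unfold chi at h7
  exact_mod_cast h7

end MP0e3347

namespace MP0e3347

section Comb

open Nat

lemma prod_factorial_eq (k : ℕ) : ∏ a ∈ range (k + 1), a ! = superFactorial k := by
  induction k with
  | zero => simp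
  | succ k ih => rw [Finset.prod_range_succ, ih, superFactorial_succ, mul_comm]

lemma choose_prod (m : ℕ) :
    (∏ a ∈ range (m + 1), (m + 1).choose (a + 1)) * (superFactorial m) ^ 2 = ((m + 1)!) ^ m := by
  have h1 : (∏ a ∈ range (m + 2), (m + 1).choose a) * (∏ a ∈ range (m + 2), a !) *
      (∏ a ∈ range (m + 2), (m + 1 - a)!) = ((m + 1)!) ^ (m + 2) := by
    rw [← Finset.prod_mul_distrib, ← Finset.prod_mul_distrib]
    have : ∀ a ∈ range (m + 2), (m + 1).choose a * a ! * (m + 1 - a)! = (m + 1)! := by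
      intro a ha
      rw [mem_range] at ha
      exact choose_mul_factorial_mul_factorial (by omega)
    rw [Finset.prod_congr rfl this, Finset.prod_const, card_range]
  have h2 : ∏ a ∈ range (m + 2), (m + 1 - a)! = ∏ a ∈ range (m + 2), a ! := by
    have := Finset.prod_range_reflect (fun a => a !) (m + 2)
    rw [← this]
    refine Finset.prod_congr rfl fun a _ => ?_
    congr 1
  have h3 : ∏ a ∈ range (m + 2), (m + 1).choose a =
      ∏ a ∈ range (m + 1), (m + 1).choose (a + 1) := by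
    rw [Finset.prod_range_succ']
    simp
  rw [h2, h3, prod_factorial_eq (m + 1), superFactorial_succ] at h1
  have h4 : 0 < ((m + 1)!) ^ 2 := by positivity
  refine Nat.eq_of_mul_eq_mul_right h4 ?_
  calc _ = (∏ a ∈ range (m + 1), (m + 1).choose (a + 1)) * ((m + 1)! * superFactorial m) *
        ((m + 1)! * superFactorial m) := by ring
    _ = _ := by rw [h1]; ring

end Comb

section Vand

variable {R : Type*} [CommRing R]

lemma vand_shift (k : ℕ) (c : R) :
    (Matrix.vandermonde (fun i : Fin (k + 1) => ((i : ℕ) : R) + c)).det =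
      (Nat.superFactorial k : R) := by
  rw [Matrix.det_vandermonde_add (fun i : Fin (k + 1) => ((i : ℕ) : R)) c]
  exact Matrix.det_vandermonde_id_eq_superFactorial k

lemma rev_vand (k : ℕ) (c : R) :
    (Matrix.of fun a b : Fin (k + 1) => (c - ((b : ℕ) : R)) ^ (k - (a : ℕ))).det =
      (Nat.superFactorial k : R) := by
  rw [← vand_shift k (c - (k : R)), ← Matrix.det_transpose,
    ← Matrix.det_submatrix_equiv_self (Fin.revPerm)]
  congr 1
  ext i j
  simp only [Matrix.submatrix_apply, Matrix.transpose_apply, Matrix.of_apply,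
    Matrix.vandermonde_apply, Fin.revPerm_apply, Fin.val_rev]
  have hi : (i : ℕ) ≤ k := by omega
  have hj : (j : ℕ) ≤ k := by omega
  have h1 : k + 1 - ((i : ℕ) + 1) = k - i := by omega
  have h2 : k - (k + 1 - ((j : ℕ) + 1)) = j := by omega
  rw [h1, h2]
  congr 1
  rw [Nat.cast_sub hi]
  ring

end Vand

section ModP

variable {p : ℕ} [hp : Fact p.Prime]

lemma chi_zmod {n : ℕ} (hn : p = 2 * n + 1) (h2 : p ≠ 2) (a : ZMod p) :
    ((quadraticChar (ZMod p) a : ℤ) : ZMod p) = a ^ n := by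
  rw [quadraticChar_eq_pow_of_char_ne_two' (ringChar_ne_two h2), ZMod.card]
  congr 1
  omega

lemma det_one_mod {m : ℕ} :
    (Matrix.of fun i j : Fin (m + 1) =>
      ((((i : ℕ) : ZMod p) - ((j : ℕ) : ZMod p) + 1) ^ (m + 1) -
        (-(((j : ℕ) : ZMod p) + 1)) ^ (m + 1))).det =
      ((m : ZMod p) + 2) * (((m + 1).factorial : ℕ) : ZMod p) ^ (m + 1) := by
  set L : Matrix (Fin (m + 1)) (Fin (m + 1)) (ZMod p) :=
    Matrix.of fun i a => (((i : ℕ) : ZMod p) + 2) *
      (Matrix.vandermonde (fun i : Fin (m + 1) => ((i : ℕ) : ZMod p) + 2)) i a with hL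
  set Rm : Matrix (Fin (m + 1)) (Fin (m + 1)) (ZMod p) :=
    Matrix.of fun a j => (((m + 1).choose ((a : ℕ) + 1) : ℕ) : ZMod p) *
      (Matrix.of fun a b : Fin (m + 1) => ((-1 : ZMod p) - ((b : ℕ) : ZMod p)) ^ (m - (a : ℕ))) a j
    with hR
  have hfac : (Matrix.of fun i j : Fin (m + 1) =>
      ((((i : ℕ) : ZMod p) - ((j : ℕ) : ZMod p) + 1) ^ (m + 1) -
        (-(((j : ℕ) : ZMod p) + 1)) ^ (m + 1))) = L * Rm := by
    ext i j
    rw [Matrix.mul_apply]
    simp only [Matrix.of_apply, hL, hR, Matrix.vandermonde_apply]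
    have h1 : ((i : ℕ) : ZMod p) - ((j : ℕ) : ZMod p) + 1 =
      (((i : ℕ) : ZMod p) + 2) + (-(((j : ℕ) : ZMod p) + 1)) := by ring
    rw [h1, add_pow, Finset.sum_range_succ']
    simp only [pow_zero, one_mul, Nat.sub_zero, Nat.choose_zero_right, Nat.cast_one, mul_one,
      add_sub_cancel_right]
    rw [Finset.sum_range]
    refine Finset.sum_congr rfl fun a _ => ?_
    have h3 : m + 1 - ((a : ℕ) + 1) = m - a := by omega
    rw [h3, pow_succ]
    ring
  rw [hfac, Matrix.det_mul, hL, hR, Matrix.det_mul_column, Matrix.det_mul_column, vand_shift,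
    rev_vand]
  have h4 : ∏ i : Fin (m + 1), (((i : ℕ) : ZMod p) + 2) = (((m + 2).factorial : ℕ) : ZMod p) := by
    have h4' : ∀ k : ℕ, ∏ i ∈ range k, (i + 2) = (k + 1).factorial := by
      intro k
      induction k with
      | zero => simp
      | succ k ih => rw [Finset.prod_range_succ, ih, Nat.factorial_succ (k + 1)]; ring
    rw [← Finset.prod_range (fun i => ((i : ZMod p) + 2)), ← h4' (m + 1)]
    push_cast
    rfl
  have h5 : ∏ a : Fin (m + 1), (((m + 1).choose ((a : ℕ) + 1) : ℕ) : ZMod p) =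
      ((∏ a ∈ range (m + 1), (m + 1).choose (a + 1) : ℕ) : ZMod p) := by
    rw [Finset.prod_range]
    push_cast
    rfl
  rw [h4, h5]
  have h6 : ((∏ a ∈ range (m + 1), (m + 1).choose (a + 1) : ℕ) : ZMod p) *
      ((Nat.superFactorial m : ℕ) : ZMod p) ^ 2 = (((m + 1).factorial : ℕ) : ZMod p) ^ m := by
    have := choose_prod m
    exact_mod_cast congrArg (Nat.cast : ℕ → ZMod p) this
  have h7 : (((m + 2).factorial : ℕ) : ZMod p) = ((m : ZMod p) + 2) *
      (((m + 1).factorial : ℕ) : ZMod p) := by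
    rw [Nat.factorial_succ (m + 1)]
    push_cast
    ring
  rw [h7]
  linear_combination (((m : ZMod p) + 2) * (((m + 1).factorial : ℕ) : ZMod p)) * h6

lemma minor_mod (m : ℕ) :
    (Matrix.of fun a b : Fin m =>
      (((m + 1).choose ((a : ℕ) + 1) : ℕ) : ZMod p) *
        ((-1 : ZMod p) - ((b : ℕ) : ZMod p)) ^ (m - (a : ℕ))).det =
      (-1) ^ m * ((∏ a ∈ range (m + 1), (m + 1).choose (a + 1) : ℕ) : ZMod p) *
        ((Nat.superFactorial m : ℕ) : ZMod p) := by
  cases m with
  | zero => simp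
  | succ k =>
    set Rm : Matrix (Fin (k + 1)) (Fin (k + 1)) (ZMod p) :=
      Matrix.of fun a j => (((k + 1 + 1).choose ((a : ℕ) + 1) : ℕ) : ZMod p) *
      (Matrix.of fun a b : Fin (k + 1) => ((-1 : ZMod p) - ((b : ℕ) : ZMod p)) *
        (Matrix.of fun a b : Fin (k + 1) => ((-1 : ZMod p) - ((b : ℕ) : ZMod p)) ^
          (k - (a : ℕ))) a b) a j with hR
    have h1 : (Matrix.of fun a b : Fin (k + 1) =>
      (((k + 1 + 1).choose ((a : ℕ) + 1) : ℕ) : ZMod p) *
        ((-1 : ZMod p) - ((b : ℕ) : ZMod p)) ^ (k + 1 - (a : ℕ))) = Rm := by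
      ext a b
      simp only [hR, Matrix.of_apply]
      have h3 : k + 1 - (a : ℕ) = (k - (a : ℕ)) + 1 := by omega
      rw [h3, pow_succ]
      ring
    rw [h1, hR, Matrix.det_mul_column, Matrix.det_mul_row, rev_vand]
    have h4 : ∏ b : Fin (k + 1), ((-1 : ZMod p) - ((b : ℕ) : ZMod p)) =
        (-1) ^ (k + 1) * (((k + 1).factorial : ℕ) : ZMod p) := by
      rw [← Finset.prod_range (fun i => ((-1 : ZMod p) - (i : ZMod p))),
        ← Finset.prod_range_add_one_eq_factorial]
      push_cast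
      rw [← Finset.card_range (k + 1), ← Finset.prod_const, Finset.card_range,
        ← Finset.prod_mul_distrib]
      refine Finset.prod_congr rfl fun i _ => ?_
      ring
    have h5 : ∏ a : Fin (k + 1), (((k + 1 + 1).choose ((a : ℕ) + 1) : ℕ) : ZMod p) =
        ((∏ a ∈ range (k + 1 + 1), (k + 1 + 1).choose (a + 1) : ℕ) : ZMod p) := by
      rw [Finset.prod_range_succ, Nat.choose_self, mul_one, Finset.prod_range]
      push_cast
      rfl
    rw [h4, h5, Nat.superFactorial_succ]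
    push_cast
    ring

lemma det_two_mod {m : ℕ} :
    (Matrix.of fun i j : Fin (m + 1) =>
      (1 + (((i : ℕ) : ZMod p) - ((j : ℕ) : ZMod p) + 1) ^ (m + 1) -
        (((i : ℕ) : ZMod p) + 1) ^ (m + 1))).det =
      (-1) ^ m * (((m + 1).factorial : ℕ) : ZMod p) ^ m := by
  set L : Matrix (Fin (m + 1)) (Fin (m + 1)) (ZMod p) :=
      (Matrix.vandermonde (fun i : Fin (m + 1) => ((i : ℕ) : ZMod p) + 1)) with hL
  set Rm : Matrix (Fin (m + 1)) (Fin (m + 1)) (ZMod p) :=
    Matrix.of fun a j => (((m + 1).choose (a : ℕ) : ℕ) : ZMod p) *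
       (- ((j : ℕ) : ZMod p)) ^ (m + 1 - (a : ℕ)) + (if (a : ℕ) = 0 then 1 else 0) with hR
  have hfac : (Matrix.of fun i j : Fin (m + 1) =>
      (1 + (((i : ℕ) : ZMod p) - ((j : ℕ) : ZMod p) + 1) ^ (m + 1) -
        (((i : ℕ) : ZMod p) + 1) ^ (m + 1))) = L * Rm := by
    ext i j
    rw [Matrix.mul_apply]
    simp only [Matrix.of_apply, hL, hR, Matrix.vandermonde_apply]
    have h1 : ((i : ℕ) : ZMod p) - ((j : ℕ) : ZMod p) + 1 =
      (((i : ℕ) : ZMod p) + 1) + (-((j : ℕ) : ZMod p)) := by ring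
    simp_rw [mul_add]
    rw [Finset.sum_add_distrib, h1, add_pow, Finset.sum_range_succ, Finset.sum_range]
    have h3 : ∑ x : Fin (m + 1), ((((i : ℕ) : ZMod p) + 1) ^ (x : ℕ) * (if (x : ℕ) = 0 then 1 else 0)
        : ZMod p) = 1 := by
      rw [Fin.sum_univ_succ]
      simp
    rw [h3]
    simp only [Nat.sub_self, pow_zero, mul_one, Nat.choose_self, Nat.cast_one]
    have h4 : ∑ x : Fin (m + 1), (((i : ℕ) : ZMod p) + 1) ^ (x : ℕ) *
        (-((j : ℕ) : ZMod p)) ^ (m + 1 - (x : ℕ)) * (((m + 1).choose (x : ℕ) : ℕ) : ZMod p) =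
        ∑ x : Fin (m + 1), (((i : ℕ) : ZMod p) + 1) ^ (x : ℕ) *
        ((((m + 1).choose (x : ℕ) : ℕ) : ZMod p) * (-((j : ℕ) : ZMod p)) ^ (m + 1 - (x : ℕ))) := by
      refine Finset.sum_congr rfl fun a _ => ?_
      ring
    rw [h4]
    ring
  have hdR : Rm.det = (Matrix.of fun a b : Fin m =>
      (((m + 1).choose ((a : ℕ) + 1) : ℕ) : ZMod p) *
        ((-1 : ZMod p) - ((b : ℕ) : ZMod p)) ^ (m - (a : ℕ))).det := by
    rw [Matrix.det_succ_column_zero, Finset.sum_eq_single 0]
    · have h3 : Rm 0 0 = 1 := by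
        simp [hR]
      rw [h3]
      simp only [Fin.val_zero, pow_zero, one_mul, Fin.succAbove_zero]
      congr 1
      ext a b
      simp only [hR, Matrix.submatrix_apply, Matrix.of_apply, Fin.val_succ, Nat.add_eq_zero_iff,
        one_ne_zero, and_false, if_false, add_zero]
      have h4 : m + 1 - ((a : ℕ) + 1) = m - a := by omega
      rw [h4]
      congr 2
      push_cast
      ring
    · intro b _ hb
      have hb' : (b : ℕ) ≠ 0 := fun h => hb (Fin.ext h)
      have h3 : Rm b 0 = 0 := by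
        simp only [hR, Matrix.of_apply, Fin.val_zero, Nat.cast_zero, neg_zero, if_neg hb', add_zero]
        have h5 : m + 1 - (b : ℕ) ≠ 0 := by
          have := b.2
          omega
        rw [zero_pow h5, mul_zero]
      rw [h3]; ring
    · intro h; exact absurd (mem_univ _) h
  rw [hfac, Matrix.det_mul, hL, vand_shift, hdR, minor_mod]
  have h6 : ((∏ a ∈ range (m + 1), (m + 1).choose (a + 1) : ℕ) : ZMod p) *
      ((Nat.superFactorial m : ℕ) : ZMod p) ^ 2 = (((m + 1).factorial : ℕ) : ZMod p) ^ m := by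
    have := choose_prod m
    exact_mod_cast congrArg (Nat.cast : ℕ → ZMod p) this
  linear_combination ((-1) ^ m) * h6

lemma wilson_half {n : ℕ} (hn : p = 2 * n + 1) :
    (((n).factorial : ℕ) : ZMod p) ^ 2 = (-1) ^ (n + 1) := by
  have h1 := ZMod.wilsons_lemma p
  have hz : ((2 * n + 1 : ℕ) : ZMod p) = 0 := by rw [← hn]; exact ZMod.natCast_self p
  have h2 : (((p - 1).factorial : ℕ) : ZMod p) =
      (n.factorial : ZMod p) * ((-1) ^ n * (n.factorial : ZMod p)) := by
    have e1 : p - 1 = n + n := by omega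
    rw [e1, ← Finset.prod_range_add_one_eq_factorial, Finset.prod_range_add,
      Finset.prod_range_add_one_eq_factorial, Nat.cast_mul]
    congr 1
    rw [← Finset.prod_range_reflect, ← Finset.prod_range_add_one_eq_factorial]
    push_cast
    have hc : ((-1 : ZMod p)) ^ n = ∏ x ∈ range n, (-1 : ZMod p) := by simp
    rw [hc, ← Finset.prod_mul_distrib]
    refine Finset.prod_congr rfl fun i hi => ?_
    rw [mem_range] at hi
    have : n - 1 - i = n - (i + 1) := by omega
    rw [this, Nat.cast_sub (by omega)]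
    push_cast
    push_cast at hz
    linear_combination hz
  rw [h2] at h1
  have h3 : ((-1 : ZMod p) ^ n) * (-1) ^ n = 1 := by
    rw [← mul_pow]; simp
  calc (((n).factorial : ℕ) : ZMod p) ^ 2
      = ((-1 : ZMod p) ^ n * (-1) ^ n) * (((n).factorial : ℕ) : ZMod p) ^ 2 := by
        rw [h3, one_mul]
    _ = (-1) ^ n * ((n.factorial : ZMod p) * ((-1) ^ n * (n.factorial : ZMod p))) := by ring
    _ = (-1) ^ (n + 1) := by rw [h1]; ring

end ModP

end MP0e3347

namespace MP0e3347

variable {p : ℕ} [hp : Fact p.Prime]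

lemma det_formula_rat {m : ℕ} (hn : p = 2 * (m + 1) + 1) (x y z w : ℤ) :
    (Matrix.of fun i j => x + AA p m i j + AA p m i 0 * y + AA p m j 0 * z +
      AA p m i 0 * AA p m j 0 * w).det =
      (AA p m).det * (1 + y + w) + GG (AA p m) * ((w + 1) * x - y * z) +
        HH (AA p m) * ((y + 1) * z - w * x) := by
  set M : Matrix (Fin (m + 1)) (Fin (m + 1)) ℚ := (AA p m).map (Int.castRingHom ℚ) with hM
  have hMd : ((AA p m).det : ℚ) = M.det := by
    rw [hM, ← RingHom.mapMatrix_apply, ← RingHom.map_det]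
    rfl
  have hMG : ((GG (AA p m) : ℤ) : ℚ) = GG M := by
    rw [hM, GG_map]; rfl
  have hMH : ((HH (AA p m) : ℤ) : ℚ) = HH M := by
    rw [hM, HH_map]; rfl
  have hu : IsUnit M.det := by
    rw [← hMd, isUnit_iff_ne_zero]
    exact_mod_cast AA_det_ne_zero hn
  have h0 : M 0 0 = 1 := by
    rw [hM, Matrix.map_apply, AA_zero]; simp
  have h := det_formula M hu h0 (x : ℚ) y z w
  rw [← hMd, ← hMG, ← hMH] at h
  have h1 : (((Matrix.of fun i j => x + AA p m i j + AA p m i 0 * y + AA p m j 0 * z +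
      AA p m i 0 * AA p m j 0 * w).det : ℤ) : ℚ) = (Matrix.of fun i j => (x : ℚ) + M i j +
      M i 0 * y + M j 0 * z + M i 0 * M j 0 * w).det := by
    have : (Matrix.of fun i j => (x : ℚ) + M i j + M i 0 * y + M j 0 * z + M i 0 * M j 0 * w) =
        (Matrix.of fun i j => x + AA p m i j + AA p m i 0 * y + AA p m j 0 * z +
          AA p m i 0 * AA p m j 0 * w).map (Int.castRingHom ℚ) := by
      ext i j
      simp [hM]
    rw [this, ← RingHom.mapMatrix_apply, ← RingHom.map_det]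
    rfl
  have h2 := h1.trans h
  exact_mod_cast h2

lemma cast_neg_one_mul_self : (quadraticChar (ZMod p) (-1)) * (quadraticChar (ZMod p) (-1)) = 1 := by
  have := chi_mul_self (F := ℚ) (neg_one_ne_zero' (p := p))
  unfold chi at this
  exact_mod_cast this

lemma cast_two_mul_self (h2 : p ≠ 2) :
    (quadraticChar (ZMod p) 2) * (quadraticChar (ZMod p) 2) = 1 := by
  have := chi_mul_self (F := ℚ) (two_ne_zero' h2)
  unfold chi at this
  exact_mod_cast this

theorem theta_mod {m : ℕ} (hn : p = 2 * (m + 1) + 1) :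
    ((theta p m : ℤ) : ZMod p) = ((quadraticChar (ZMod p) (-1) : ℤ) : ZMod p) *
      (((m + 1).factorial : ℕ) : ZMod p) ^ (m + 1) := by
  have h2 : p ≠ 2 := by omega
  have h1 := det_formula_rat hn 0 0 (-(quadraticChar (ZMod p) (-1))) 0
  have h3 := HH_eq hn
  have h4 := cast_neg_one_mul_self (p := p)
  set s := quadraticChar (ZMod p) (-1) with hs
  set N := (Matrix.of fun i j => 0 + AA p m i j + AA p m i 0 * 0 + AA p m j 0 * (-s) +
      AA p m i 0 * AA p m j 0 * 0) with hN
  have h5 : 2 * N.det = - theta p m * (p - s) := by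
    rw [h1]
    linear_combination (-s) * h3 + (-2 * (AA p m).det - p * theta p m) * h4
  have h6 : ((N.det : ℤ) : ZMod p) =
      ((m : ZMod p) + 2) * (((m + 1).factorial : ℕ) : ZMod p) ^ (m + 1) := by
    rw [← det_one_mod]
    have : N.map (Int.castRingHom (ZMod p)) = (Matrix.of fun i j : Fin (m + 1) =>
      ((((i : ℕ) : ZMod p) - ((j : ℕ) : ZMod p) + 1) ^ (m + 1) -
        (-(((j : ℕ) : ZMod p) + 1)) ^ (m + 1))) := by
      ext i j
      rw [Matrix.map_apply, hN]
      simp only [Matrix.of_apply, AA, mul_zero, add_zero, zero_add, eq_intCast, Int.cast_add,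
        Int.cast_mul, Int.cast_neg, Fin.val_zero, Nat.cast_zero, sub_zero, hs]
      rw [chi_zmod hn h2, chi_zmod hn h2, chi_zmod hn h2, neg_eq_neg_one_mul
        (((j : ℕ) : ZMod p) + 1), mul_pow]
      ring
    rw [← this, ← RingHom.mapMatrix_apply, ← RingHom.map_det]
    rfl
  have h7 := congrArg (Int.cast : ℤ → ZMod p) h5
  rw [Int.cast_mul, h6] at h7
  push_cast at h7
  have hz : ((2 * (m + 1) + 1 : ℕ) : ZMod p) = 0 := by rw [← hn]; exact ZMod.natCast_self p
  have hp0 : (p : ZMod p) = 0 := ZMod.natCast_self p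
  have h8 : ((s : ℤ) : ZMod p) * ((s : ℤ) : ZMod p) = 1 := by
    rw [← Int.cast_mul, h4, Int.cast_one]
  push_cast at hz
  rw [hp0] at h7
  linear_combination (-(s : ZMod p)) * h7 - ((theta p m : ℤ) : ZMod p) * h8 +
    ((s : ZMod p) * (((m + 1).factorial : ℕ) : ZMod p) ^ (m + 1)) * hz

lemma fact_ne_zero {n : ℕ} (hn : n < p) : ((n.factorial : ℕ) : ZMod p) ≠ 0 := by
  intro h
  rw [ZMod.natCast_eq_zero_iff, hp.out.dvd_factorial] at h
  omega

theorem AL_natAbs {m : ℕ} (hn : p = 2 * (m + 1) + 1) : (AL p m).det.natAbs = 1 := by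
  by_contra hne
  obtain ⟨l, hl, hld⟩ := Nat.exists_prime_and_dvd hne
  have hld' : (l : ℤ) ∣ (AL p m).det := Int.natCast_dvd.mpr hld
  by_cases hlp : l = p
  · have h1 := theta_mod hn
    have h2 : ((theta p m : ℤ) : ZMod p) = 0 := by
      rw [ZMod.intCast_zmod_eq_zero_iff_dvd, theta]
      rw [hlp] at hld'
      exact Dvd.dvd.mul_left hld' _
    rw [h2] at h1
    have h3 : ((quadraticChar (ZMod p) (-1) : ℤ) : ZMod p) ≠ 0 :=
      chi_ne_zero (F := ZMod p) neg_one_ne_zero'
    exact (mul_ne_zero h3 (pow_ne_zero _ (fact_ne_zero (by omega)))) h1.symm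
  · exact AL_not_dvd hn hl hlp hld'

theorem theta_mul_self {m : ℕ} (hn : p = 2 * (m + 1) + 1) : theta p m * theta p m = 1 := by
  have h1 := AL_natAbs hn
  have h2 : (AL p m).det * (AL p m).det = 1 := by
    rw [← sq, ← Int.natAbs_sq, h1]
    norm_num
  have h3 := cast_two_mul_self (p := p) (by omega)
  unfold theta
  linear_combination ((AL p m).det * (AL p m).det) * h3 + h2

theorem theta_eq_of_one {m : ℕ} (hn : p = 2 * (m + 1) + 1) (h4 : p % 4 = 1) :
    theta p m = quadraticChar (ZMod p) 2 := by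
  have h1 := theta_mod hn
  have h2 : p ≠ 2 := by omega
  obtain ⟨k, hk⟩ : ∃ k, m + 1 = 2 * k := ⟨(m + 1) / 2, by omega⟩
  have hw := wilson_half hn
  have hs : quadraticChar (ZMod p) (-1) = 1 := by
    rw [quadraticChar_neg_one (ringChar_ne_two h2), ZMod.card, ZMod.χ₄_nat_one_mod_four h4]
  rw [hs, Int.cast_one, one_mul] at h1
  have e1 : (((m + 1).factorial : ℕ) : ZMod p) ^ (m + 1) = (-1) ^ k := by
    have : (((m + 1).factorial : ℕ) : ZMod p) ^ (m + 1) =
      ((((m + 1).factorial : ℕ) : ZMod p) ^ 2) ^ k := by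
      rw [← pow_mul, ← hk]
    rw [this, hw, hk, pow_succ, pow_mul]
    simp
  rw [e1] at h1
  have e2 : quadraticChar (ZMod p) 2 = (-1) ^ k := by
    rw [quadraticChar_two (ringChar_ne_two h2), ZMod.card]
    rcases (show p % 8 = 1 ∨ p % 8 = 5 by omega) with h8 | h8
    · have : ZMod.χ₈ (p : ZMod 8) = 1 := by
        rw [ZMod.χ₈_nat_eq_if_mod_eight, h8]
        simp
        omega
      rw [this, Even.neg_one_pow]
      exact ⟨p / 8, by omega⟩
    · have : ZMod.χ₈ (p : ZMod 8) = -1 := by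
        rw [ZMod.χ₈_nat_eq_if_mod_eight, h8]
        simp
        omega
      rw [this, Odd.neg_one_pow]
      exact ⟨p / 8, by omega⟩
  rw [e2]
  have h3 := theta_mul_self hn
  rw [← Int.cast_one, ← Int.cast_neg, ← Int.cast_pow] at h1
  rw [ZMod.intCast_eq_intCast_iff_dvd_sub] at h1
  have h5 : theta p m = 1 ∨ theta p m = -1 := mul_self_eq_one_iff.mp h3
  rcases h5 with h5 | h5 <;> rcases neg_one_pow_eq_or ℤ k with h6 | h6
  · rw [h5, h6]
  · rw [h5, h6] at h1
    have := Int.le_of_dvd (by norm_num) ((dvd_neg).mpr h1)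
    omega
  · rw [h5, h6] at h1
    have := Int.le_of_dvd (by norm_num) h1
    omega
  · rw [h5, h6]

theorem GG_mod_of_three {m : ℕ} (hn : p = 2 * (m + 1) + 1) (h4 : p % 4 = 3) :
    ((GG (AA p m) : ℤ) : ZMod p) = 1 := by
  have h2 : p ≠ 2 := by omega
  have h1 := det_formula_rat hn 1 (-1) 0 0
  set N := (Matrix.of fun i j => 1 + AA p m i j + AA p m i 0 * (-1) + AA p m j 0 * 0 +
      AA p m i 0 * AA p m j 0 * 0) with hN
  have h5 : N.det = GG (AA p m) := by
    rw [h1]
    ring
  rw [← h5]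
  have h6 : ((N.det : ℤ) : ZMod p) = (-1) ^ m * (((m + 1).factorial : ℕ) : ZMod p) ^ m := by
    rw [← det_two_mod]
    have : N.map (Int.castRingHom (ZMod p)) = (Matrix.of fun i j : Fin (m + 1) =>
      (1 + (((i : ℕ) : ZMod p) - ((j : ℕ) : ZMod p) + 1) ^ (m + 1) -
        (((i : ℕ) : ZMod p) + 1) ^ (m + 1))) := by
      ext i j
      rw [Matrix.map_apply, hN]
      simp only [Matrix.of_apply, AA, mul_zero, add_zero, mul_neg, mul_one, eq_intCast,
        Int.cast_add, Int.cast_neg, Int.cast_one, Fin.val_zero, Nat.cast_zero, sub_zero]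
      rw [chi_zmod hn h2, chi_zmod hn h2]
      ring
    rw [← this, ← RingHom.mapMatrix_apply, ← RingHom.map_det]
    rfl
  rw [h6]
  obtain ⟨k, hk⟩ : ∃ k, m = 2 * k := ⟨m / 2, by omega⟩
  have hw := wilson_half hn
  have e1 : (((m + 1).factorial : ℕ) : ZMod p) ^ m = 1 := by
    have : (((m + 1).factorial : ℕ) : ZMod p) ^ m =
      ((((m + 1).factorial : ℕ) : ZMod p) ^ 2) ^ k := by
      rw [← pow_mul, ← hk]
    rw [this, hw, hk, pow_succ, pow_succ, pow_mul]
    simp
  rw [e1, hk, pow_mul]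
  simp

end MP0e3347
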