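import Mathlib

open Finset Polynomial

namespace MP0e3347

section Ana

open MeasureTheory Set Filter Topology Asymptotics Complex

/-- The kernel `z e^{-t} / (1 - z e^{-t})`. -/
noncomputable def GK (z : ℂ) (t : ℝ) : ℂ := z * (Real.exp (-t) : ℂ) / (1 - z * (Real.exp (-t) : ℂ))

lemma re_lt_one {z : ℂ} (hz : ‖z‖ = 1) (hz1 : z ≠ 1) : z.re < 1 := by
  have h1 : z.re ≤ ‖z‖ := Complex.re_le_norm z
  rw [hz] at h1
  refine lt_of_le_of_ne h1 fun h => hz1 ?_
  have h2 : z.re ^ 2 + z.im ^ 2 = 1 := by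
    have := Complex.sq_norm z
    rw [hz, Complex.normSq_apply] at this
    nlinarith
  have h3 : z.im = 0 := by
    rw [h] at h2
    have : z.im ^ 2 = 0 := by linarith
    exact pow_eq_zero_iff (two_ne_zero) |>.mp this
  exact Complex.ext h h3

lemma re_pos_GK {z : ℂ} (hz : ‖z‖ = 1) (hz1 : z ≠ 1) {t : ℝ} (ht : 0 ≤ t) :
    0 < (1 - z * (Real.exp (-t) : ℂ)).re := by
  have h1 := re_lt_one hz hz1
  have h2 : (1 - z * (Real.exp (-t) : ℂ)).re = 1 - z.re * Real.exp (-t) := by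
    rw [Complex.sub_re, Complex.re_mul_ofReal, Complex.one_re]
  rw [h2]
  have h3 : Real.exp (-t) ≤ 1 := Real.exp_le_one_iff.mpr (by linarith)
  have h4 : 0 < Real.exp (-t) := Real.exp_pos _
  rcases le_or_gt z.re 0 with h | h
  · nlinarith
  · nlinarith

lemma GK_denom_ne {z : ℂ} (hz : ‖z‖ = 1) (hz1 : z ≠ 1) {t : ℝ} (ht : 0 ≤ t) :
    (1 - z * (Real.exp (-t) : ℂ)) ≠ 0 := by
  intro h
  have := re_pos_GK hz hz1 ht
  rw [h] at this
  simp at this

lemma GK_continuousAt {z : ℂ} (hz : ‖z‖ = 1) (hz1 : z ≠ 1) {t : ℝ} (ht : 0 ≤ t) :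
    ContinuousAt (GK z) t := by
  unfold GK
  refine ContinuousAt.div ?_ ?_ (GK_denom_ne hz hz1 ht)
  · exact (by fun_prop : Continuous fun t : ℝ => z * (Real.exp (-t) : ℂ)).continuousAt
  · exact (by fun_prop : Continuous fun t : ℝ => 1 - z * (Real.exp (-t) : ℂ)).continuousAt

lemma GK_locInt {z : ℂ} (hz : ‖z‖ = 1) (hz1 : z ≠ 1) : LocallyIntegrableOn (GK z) (Ioi 0) := by
  refine ContinuousOn.locallyIntegrableOn ?_ measurableSet_Ioi
  intro t ht
  exact (GK_continuousAt hz hz1 (le_of_lt ht)).continuousWithinAt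

lemma GK_top {z : ℂ} (hz : ‖z‖ = 1) :
    GK z =O[atTop] fun t => Real.exp (-1 * t) := by
  refine IsBigO.of_bound 2 ?_
  filter_upwards [eventually_ge_atTop (1 : ℝ)] with t ht
  have h1 : Real.exp (-t) ≤ 1 / 2 := by
    have h2 : Real.exp (-t) ≤ Real.exp (-1) := Real.exp_le_exp.mpr (by linarith)
    have h3 : Real.exp (-1) < 0.3678794412 := Real.exp_neg_one_lt_d9
    linarith
  have h4 : 0 < Real.exp (-t) := Real.exp_pos _
  have h5 : ‖z * (Real.exp (-t) : ℂ)‖ = Real.exp (-t) := by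
    rw [norm_mul, hz, one_mul, Complex.norm_real, Real.norm_of_nonneg h4.le]
  have h6 : 1 / 2 ≤ ‖1 - z * (Real.exp (-t) : ℂ)‖ := by
    have := norm_sub_norm_le (1 : ℂ) (z * (Real.exp (-t) : ℂ))
    rw [h5, norm_one] at this
    linarith
  rw [GK, norm_div, h5, div_le_iff₀ (by linarith), Real.norm_of_nonneg (Real.exp_pos _).le,
    neg_one_mul]
  nlinarith

lemma GK_bot {z : ℂ} (hz : ‖z‖ = 1) (hz1 : z ≠ 1) :
    GK z =O[𝓝[>] 0] (fun x : ℝ => x ^ (-(0 : ℝ))) := by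
  have h1 : GK z =O[𝓝 0] (fun _ : ℝ => (1 : ℝ)) := (GK_continuousAt hz hz1 le_rfl).isBigO_one ℝ
  have h2 : (fun x : ℝ => x ^ (-(0 : ℝ))) = fun _ : ℝ => (1 : ℝ) := by
    ext x; simp
  rw [h2]
  exact h1.mono nhdsWithin_le_nhds

lemma GK_mellin_diff {z : ℂ} (hz : ‖z‖ = 1) (hz1 : z ≠ 1) :
    DifferentiableAt ℂ (mellin (GK z)) 1 :=
  mellin_differentiableAt_of_isBigO_rpow_exp one_pos (GK_locInt hz hz1) (GK_top hz)
    (GK_bot hz hz1) (by simp)

lemma GK_mellin_conv {z : ℂ} (hz : ‖z‖ = 1) (hz1 : z ≠ 1) :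
    MellinConvergent (GK z) 1 :=
  mellinConvergent_of_isBigO_rpow_exp one_pos (GK_locInt hz hz1) (GK_top hz)
    (GK_bot hz hz1) (by simp)

lemma GK_integrable {z : ℂ} (hz : ‖z‖ = 1) (hz1 : z ≠ 1) :
    IntegrableOn (GK z) (Ioi 0) := by
  have h := GK_mellin_conv hz hz1
  unfold MellinConvergent at h
  refine h.congr_fun (fun t ht => ?_) measurableSet_Ioi
  simp

lemma mellin_GK_one {z : ℂ} (hz : ‖z‖ = 1) (hz1 : z ≠ 1) :
    mellin (GK z) 1 = - Complex.log (1 - z) := by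
  have h1 : mellin (GK z) 1 = ∫ t in Ioi (0 : ℝ), GK z t := by
    unfold mellin
    refine setIntegral_congr_fun measurableSet_Ioi fun t ht => ?_
    simp
  rw [h1]
  have hd : ∀ t ∈ Ici (0 : ℝ),
      HasDerivAt (fun t : ℝ => Complex.log (1 - z * (Real.exp (-t) : ℂ))) (GK z t) t := by
    intro t ht
    have h2 : HasDerivAt (fun t : ℝ => 1 - z * (Real.exp (-t) : ℂ)) (z * (Real.exp (-t) : ℂ)) t := by
      have h3 : HasDerivAt (fun t : ℝ => Real.exp (-t)) (-Real.exp (-t)) t := by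
        have := (hasDerivAt_neg t).exp
        simpa using this
      have h4 := ((h3.ofReal_comp).const_mul z).const_sub 1
      refine h4.congr_deriv ?_
      push_cast
      ring
    have h5 : (1 - z * (Real.exp (-t) : ℂ)) ∈ Complex.slitPlane := by
      left
      exact re_pos_GK hz hz1 ht
    exact h2.clog_real h5
  have hlim : Tendsto (fun t : ℝ => Complex.log (1 - z * (Real.exp (-t) : ℂ))) atTop (𝓝 0) := by
    have h6 : Tendsto (fun t : ℝ => Real.exp (-t)) atTop (𝓝 0) :=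
      Real.tendsto_exp_neg_atTop_nhds_zero
    have h7 : Tendsto (fun t : ℝ => 1 - z * (Real.exp (-t) : ℂ)) atTop (𝓝 (1 - z * (0 : ℝ))) := by
      refine Tendsto.const_sub 1 (Tendsto.const_mul z ?_)
      exact (Complex.continuous_ofReal.tendsto 0).comp h6
    have h8 : (1 - z * ((0 : ℝ) : ℂ)) = 1 := by simp
    rw [h8] at h7
    have h9 := h7.clog (by simp)
    rwa [Complex.log_one] at h9
  have := integral_Ioi_of_hasDerivAt_of_tendsto' hd (GK_integrable hz hz1) hlim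
  rw [this]
  simp

lemma GK_hasSum {z : ℂ} (hz : ‖z‖ = 1) {t : ℝ} (ht : 0 < t) :
    HasSum (fun n : ℕ => z ^ (n + 1) * (Real.exp (-((n : ℝ) + 1) * t) : ℂ)) (GK z t) := by
  have h1 : ‖z * (Real.exp (-t) : ℂ)‖ < 1 := by
    rw [norm_mul, hz, one_mul, Complex.norm_real, Real.norm_of_nonneg (Real.exp_pos _).le]
    exact Real.exp_lt_one_iff.mpr (by linarith)
  have h2 := (hasSum_geometric_of_norm_lt_one h1).mul_left (z * (Real.exp (-t) : ℂ))
  have h3 : z * (Real.exp (-t) : ℂ) * (1 - z * (Real.exp (-t) : ℂ))⁻¹ = GK z t := by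
    rw [GK, div_eq_mul_inv]
  rw [h3] at h2
  have h4 : ∀ n : ℕ, z ^ (n + 1) * (Real.exp (-((n : ℝ) + 1) * t) : ℂ) =
      z * (Real.exp (-t) : ℂ) * (z * (Real.exp (-t) : ℂ)) ^ n := by
    intro n
    have : Real.exp (-((n : ℝ) + 1) * t) = Real.exp (-t) ^ (n + 1) := by
      rw [← Real.exp_nat_mul]
      congr 1
      push_cast
      ring
    rw [this]
    push_cast
    ring
  simp_rw [h4]
  exact h2

lemma GK_mellin_hasSum {z : ℂ} (hz : ‖z‖ = 1) {s : ℂ} (hs : 1 < s.re) :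
    HasSum (fun n : ℕ => Complex.Gamma s * z ^ (n + 1) / (((n : ℝ) + 1 : ℝ) : ℂ) ^ s)
      (mellin (GK z) s) := by
  refine hasSum_mellin (a := fun n : ℕ => z ^ (n + 1)) (p := fun n : ℕ => (n : ℝ) + 1)
    (F := GK z) (s := s) ?_ (by linarith) ?_ ?_
  · intro n
    right
    positivity
  · intro t ht
    exact GK_hasSum hz ht
  · have h1 : ∀ n : ℕ, ‖z ^ (n + 1)‖ / ((n : ℝ) + 1) ^ s.re = 1 / (((n + 1 : ℕ) : ℝ)) ^ s.re := by
      intro n
      rw [norm_pow, hz, one_pow]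
      push_cast
      rfl
    simp_rw [h1]
    exact (summable_nat_add_iff 1).mpr (Real.summable_one_div_nat_rpow.mpr hs)

end Ana

end MP0e3347
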