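import Pool.Agent.Lib.MP_0e3347_nt.AlgA
import Pool.Agent.Lib.MP_0e3347_nt.An0

open Finset Polynomial

namespace MP0e3347

section LFun

open MeasureTheory Set Filter Topology Asymptotics Complex

variable {p : ℕ} [hp : Fact p.Prime]

/-- The quadratic character as a Dirichlet character. -/
noncomputable def chiD (p : ℕ) [Fact p.Prime] : DirichletCharacter ℂ p :=
  (quadraticChar (ZMod p)).ringHomComp (Int.castRingHom ℂ)

lemma chiD_apply (a : ZMod p) : chiD p a = chi ℂ a := by
  simp [chiD, chi]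

lemma chiD_ne_one (h2 : p ≠ 2) : chiD p ≠ 1 := by
  intro h
  obtain ⟨a, ha⟩ := quadraticChar_exists_neg_one' (ringChar_ne_two (p := p) h2)
  have h1 := congrArg (fun f : DirichletCharacter ℂ p => f (a : ZMod p)) h
  simp only [chiD_apply] at h1
  rw [chi, ha, MulChar.one_apply_coe] at h1
  norm_num at h1

lemma norm_e (e : AddChar (ZMod p) ℂ) (a : ZMod p) : ‖e a‖ = 1 := by
  have h1 : e a ^ p = 1 := by
    rw [e_pow]; simp
  exact Complex.norm_eq_one_of_pow_eq_one h1 hp.out.ne_zero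

lemma e_ne_one {F : Type*} [Field F] {e : AddChar (ZMod p) F} (he : e.IsPrimitive) {a : ZMod p}
    (ha : a ≠ 0) : e a ≠ 1 := by
  intro h
  refine (he ha) ?_
  ext k
  rw [AddChar.mulShift_apply, mul_comm, ← ZMod.natCast_zmod_val k, ← e_pow, h, one_pow]
  rfl

lemma LSeries_formula (h2 : p ≠ 2) (e : AddChar (ZMod p) ℂ) {s : ℂ} (hs : 1 < s.re) :
    tau e * Complex.Gamma s * LSeries (fun n => chiD p n) s =
      ∑ r ∈ univ.erase (0 : ZMod p), chi ℂ r * mellin (GK (e r)) s := by
  have h1 : HasSum (LSeries.term (fun n => chiD p n) s) (LSeries (fun n => chiD p n) s) := by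
    have := ZMod.LSeriesSummable_of_one_lt_re (fun a : ZMod p => chiD p a) hs
    exact this.LSeriesHasSum
  have h3 := (hasSum_nat_add_iff' 1).mpr h1
  rw [Finset.sum_range_one, LSeries.term_zero, sub_zero] at h3
  have h4 := h3.mul_left (tau e * Complex.Gamma s)
  have h5 : HasSum (fun n : ℕ => ∑ r ∈ univ.erase (0 : ZMod p),
      chi ℂ r * (Complex.Gamma s * e r ^ (n + 1) / (((n : ℝ) + 1 : ℝ) : ℂ) ^ s))
      (∑ r ∈ univ.erase (0 : ZMod p), chi ℂ r * mellin (GK (e r)) s) := by
    refine hasSum_sum fun r _ => ?_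
    exact (GK_mellin_hasSum (norm_e e r) hs).mul_left _
  refine h4.unique ?_
  convert! h5 using 2 with n
  rw [LSeries.term_of_ne_zero (by omega)]
  have h6 := sum_chi_mul h2 e ((n + 1 : ℕ) : ZMod p)
  rw [chiD_apply]
  have h7 : ∑ r ∈ univ.erase (0 : ZMod p), chi ℂ r *
      (Complex.Gamma s * e r ^ (n + 1) / (((n : ℝ) + 1 : ℝ) : ℂ) ^ s) =
      Complex.Gamma s / (((n : ℝ) + 1 : ℝ) : ℂ) ^ s * ∑ r : ZMod p, chi ℂ r *
        e (r * ((n + 1 : ℕ) : ZMod p)) := by
    rw [Finset.mul_sum, ← Finset.sum_erase (a := (0 : ZMod p)) univ (by simp)]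
    refine Finset.sum_congr rfl fun r _ => ?_
    rw [e_pow, mul_comm (((n + 1 : ℕ) : ZMod p)) r]
    ring
  rw [h7, h6]
  push_cast
  ring

/-- `τ L(1, χ) = - Σ χ(r) log (1 - e(r))`. -/
theorem LFunction_one (h2 : p ≠ 2) {e : AddChar (ZMod p) ℂ} (he : e.IsPrimitive) :
    tau e * DirichletCharacter.LFunction (chiD p) 1 =
      - ∑ r ∈ univ.erase (0 : ZMod p), chi ℂ r * Complex.log (1 - e r) := by
  -- both sides as limits
  have hcoe : Tendsto (fun s : ℝ => (s : ℂ)) (𝓝[>] 1) (𝓝 1) :=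
    (Complex.continuous_ofReal.tendsto' 1 1 (by simp)).mono_left nhdsWithin_le_nhds
  have hL : Tendsto (fun s : ℝ => tau e * Complex.Gamma s *
      DirichletCharacter.LFunction (chiD p) s) (𝓝[>] 1)
      (𝓝 (tau e * Complex.Gamma 1 * DirichletCharacter.LFunction (chiD p) 1)) := by
    have c1 : ContinuousAt (DirichletCharacter.LFunction (chiD p)) 1 :=
      (DirichletCharacter.differentiable_LFunction (chiD_ne_one h2)).continuous.continuousAt
    have c2 : ContinuousAt Complex.Gamma 1 :=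
      (Complex.differentiableAt_Gamma 1 (by
        intro m h
        have := congrArg Complex.re h
        simp at this
        have : (0 : ℝ) ≤ m := Nat.cast_nonneg m
        linarith)).continuousAt
    exact ((tendsto_const_nhds.mul (c2.tendsto.comp hcoe)).mul (c1.tendsto.comp hcoe))
  have hR : Tendsto (fun s : ℝ => ∑ r ∈ univ.erase (0 : ZMod p), chi ℂ r * mellin (GK (e r)) s)
      (𝓝[>] 1) (𝓝 (∑ r ∈ univ.erase (0 : ZMod p), chi ℂ r * mellin (GK (e r)) 1)) := by
    refine tendsto_finsetSum _ fun r hr => ?_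
    have := (GK_mellin_diff (norm_e e r) (e_ne_one he (ne_of_mem_erase hr))).continuousAt
    exact tendsto_const_nhds.mul (this.tendsto.comp hcoe)
  have heq : (fun s : ℝ => tau e * Complex.Gamma s * DirichletCharacter.LFunction (chiD p) s)
      =ᶠ[𝓝[>] 1] (fun s : ℝ => ∑ r ∈ univ.erase (0 : ZMod p), chi ℂ r * mellin (GK (e r)) s) := by
    filter_upwards [self_mem_nhdsWithin] with s hs
    have hs' : 1 < (s : ℂ).re := by simpa using hs
    rw [DirichletCharacter.LFunction_eq_LSeries _ hs']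
    exact LSeries_formula h2 e hs'
  have h5 := tendsto_nhds_unique (hL.congr' heq) hR
  rw [Complex.Gamma_one, mul_one] at h5
  rw [h5, ← Finset.sum_neg_distrib]
  refine Finset.sum_congr rfl fun r hr => ?_
  rw [mellin_GK_one (norm_e e r) (e_ne_one he (ne_of_mem_erase hr))]
  ring

end LFun

end MP0e3347
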