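import Pool.Agent.Lib.MP_0e3347_nt.AlgB
import Pool.Agent.Lib.MP_0e3347_nt.An1

open Finset Polynomial

namespace MP0e3347

variable {p : ℕ} [hp : Fact p.Prime]

lemma re_pos_of_norm {z : ℂ} (hz : ‖z‖ = 1) (hz1 : z ≠ 1) : 0 < (1 - z).re := by
  have := re_lt_one hz hz1
  simp only [Complex.sub_re, Complex.one_re]
  linarith

lemma arg_lt_of_norm {z : ℂ} (hz : ‖z‖ = 1) (hz1 : z ≠ 1) : |(1 - z).arg| < Real.pi / 2 :=
  Complex.abs_arg_lt_pi_div_two_iff.mpr (Or.inl (re_pos_of_norm hz hz1))

lemma log_one_sub_sq {z : ℂ} (hz : ‖z‖ = 1) (hz1 : z ≠ 1) (hz2 : z ≠ -1) :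
    Complex.log (1 - z ^ 2) = Complex.log (1 - z) + Complex.log (1 + z) := by
  have hz' : ‖-z‖ = 1 := by rw [norm_neg, hz]
  have hz1' : -z ≠ 1 := fun h => hz2 (by rw [← h, neg_neg])
  have h1 := arg_lt_of_norm hz hz1
  have h2 := arg_lt_of_norm hz' hz1'
  have h3 := re_pos_of_norm hz hz1
  have h4 := re_pos_of_norm hz' hz1'
  rw [sub_neg_eq_add] at h2 h4
  have h5 : (1 - z ^ 2) = (1 - z) * (1 + z) := by ring
  rw [h5, Complex.log_mul]
  · intro h; rw [h] at h3; simp at h3
  · intro h; rw [h] at h4; simp at h4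
  · rw [abs_lt] at h1 h2
    constructor
    · linarith [h1.1, h2.1]
    · linarith [h1.2, h2.2]

lemma e_ne_neg_one (h2 : p ≠ 2) {e : AddChar (ZMod p) ℂ} (he : e.IsPrimitive) {a : ZMod p}
    (ha : a ≠ 0) : e a ≠ -1 := by
  intro h
  have h1 : e (2 * a) = 1 := by
    have := e_pow e a 2
    rw [h] at this
    push_cast at this
    rw [← this]; norm_num
  exact e_ne_one he (mul_ne_zero (two_ne_zero' h2) ha) h1

lemma sum_erase_mul {M : Type*} [AddCommMonoid M] (f : ZMod p → M) {a : ZMod p} (ha : a ≠ 0) :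
    ∑ i ∈ univ.erase (0 : ZMod p), f (a * i) = ∑ i ∈ univ.erase (0 : ZMod p), f i := by
  refine Finset.sum_bij' (fun i _ => a * i) (fun i _ => a⁻¹ * i) ?_ ?_ ?_ ?_ ?_
  · intro i hi
    exact mem_erase.mpr ⟨mul_ne_zero ha (ne_of_mem_erase hi), mem_univ _⟩
  · intro i hi
    exact mem_erase.mpr ⟨mul_ne_zero (inv_ne_zero ha) (ne_of_mem_erase hi), mem_univ _⟩
  · intro i _
    rw [inv_mul_cancel_left₀ ha]
  · intro i _
    rw [mul_inv_cancel_left₀ ha]
  · intro i _; rfl

lemma sum_log {e : AddChar (ZMod p) ℂ} (he : e.IsPrimitive) :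
    ∑ i ∈ univ.erase (0 : ZMod p), Complex.log (1 - e i) = (Real.log p : ℂ) := by
  set T := ∑ i ∈ univ.erase (0 : ZMod p), Complex.log (1 - e i) with hT
  have hconj : (starRingEnd ℂ) T = T := by
    rw [hT, map_sum, ← sum_erase_mul (fun i => Complex.log (1 - e i)) (neg_one_ne_zero' (p := p))]
    refine Finset.sum_congr rfl fun i hi => ?_
    have hi' := ne_of_mem_erase hi
    have h1 := arg_lt_of_norm (norm_e e i) (e_ne_one he hi')
    rw [← Complex.log_conj]
    · rw [map_sub, map_one, ← Complex.inv_eq_conj (norm_e e i), e_inv, neg_one_mul]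
    · intro h
      rw [h, abs_of_pos Real.pi_pos] at h1
      linarith [Real.pi_pos]
  have hre : T = (T.re : ℂ) := (Complex.conj_eq_iff_real.mp hconj).elim (fun r hr => by
    rw [hr]; simp)
  have hexp : Complex.exp T = p := by
    rw [hT, Complex.exp_sum, ← prod_one_sub_e he]
    refine Finset.prod_congr rfl fun i hi => ?_
    rw [Complex.exp_log]
    exact sub_ne_zero.mpr (e_ne_one he (ne_of_mem_erase hi)).symm
  rw [hre, ← Complex.ofReal_exp] at hexp
  have h3 : Real.exp T.re = p := by exact_mod_cast hexp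
  have h4 : T.re = Real.log p := by rw [← h3, Real.log_exp]
  rw [hre, h4]

lemma norm_uu (h2 : p ≠ 2) (e : AddChar (ZMod p) ℂ) {i : ZMod p} (hi : i ≠ 0) : ‖uu e i‖ = 1 := by
  unfold uu
  rcases chi_dich (F := ℂ) (mul_ne_zero (two_ne_zero' h2) hi) with h | h <;> rw [h] <;>
    simp

theorem PP_QQ_exp {n : ℕ} (hn : p = 2 * n + 1) (h2 : p ≠ 2) {e : AddChar (ZMod p) ℂ}
    (he : e.IsPrimitive) :
    PP e = Complex.exp ((Real.log p - (2 * chi ℂ (2 : ZMod p) - 1) *
        (tau e * DirichletCharacter.LFunction (chiD p) 1)) / 2) ∧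
    QQ e = Complex.exp ((Real.log p + (2 * chi ℂ (2 : ZMod p) - 1) *
        (tau e * DirichletCharacter.LFunction (chiD p) 1)) / 2) := by
  have h2' := two_ne_zero' h2
  set S1 := ∑ i ∈ univ.erase (0 : ZMod p), Complex.log (1 - uu e i) with hS1
  set S2 := ∑ i ∈ univ.erase (0 : ZMod p), Complex.log (1 + uu e i) with hS2
  have hL := LFunction_one h2 he
  set TL := tau e * DirichletCharacter.LFunction (chiD p) 1 with hTL
  have hdiff : S1 - S2 = - (2 * chi ℂ (2 : ZMod p) - 1) * TL := by
    have e1 : ∀ i ∈ univ.erase (0 : ZMod p), Complex.log (1 - uu e i) - Complex.log (1 + uu e i) =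
        2 * chi ℂ (2 : ZMod p) * (chi ℂ i * Complex.log (1 - e i)) -
          chi ℂ (2 * i) * Complex.log (1 - e (2 * i)) := by
      intro i hi
      have hi' := ne_of_mem_erase hi
      have e2 : Complex.log (1 - e (2 * i)) = Complex.log (1 - e i) + Complex.log (1 + e i) := by
        rw [← log_one_sub_sq (norm_e e i) (e_ne_one he hi') (e_ne_neg_one h2 he hi'), e_pow]
        push_cast
        rfl
      rw [e2]
      have e3 : Complex.log (1 - uu e i) - Complex.log (1 + uu e i) = chi ℂ (2 * i) *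
          (Complex.log (1 - e i) - Complex.log (1 + e i)) := by
        unfold uu
        rcases chi_dich (F := ℂ) (mul_ne_zero h2' hi') with h | h <;> rw [h]
        · simp
        · simp only [neg_mul, one_mul, sub_neg_eq_add]
          rw [← sub_eq_add_neg]
          ring
      rw [e3, chi_mul]
      ring
    rw [hS1, hS2, ← Finset.sum_sub_distrib, Finset.sum_congr rfl e1, Finset.sum_sub_distrib,
      ← Finset.mul_sum, sum_erase_mul (fun i => chi ℂ i * Complex.log (1 - e i)) h2']
    have e4 : ∑ i ∈ univ.erase (0 : ZMod p), chi ℂ i * Complex.log (1 - e i) = - TL := by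
      rw [hL, neg_neg]
    rw [e4]
    ring
  have hsum : S1 + S2 = (Real.log p : ℂ) := by
    rw [← sum_log he, hS1, hS2, ← Finset.sum_add_distrib,
      ← sum_erase_mul (fun i => Complex.log (1 - e i)) h2']
    refine Finset.sum_congr rfl fun i hi => ?_
    have hi' := ne_of_mem_erase hi
    have h2i : 2 * i ≠ 0 := mul_ne_zero h2' hi'
    rw [← uu_sq h2 e hi', log_one_sub_sq (norm_uu h2 e hi')]
    · intro h
      have := uu_sq h2 e hi'
      rw [h, one_pow] at this
      exact e_ne_one he h2i this.symm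
    · intro h
      have := uu_sq h2 e hi'
      rw [h] at this
      norm_num at this
      exact e_ne_one he h2i this.symm
  have hP : PP e = Complex.exp S1 := by
    rw [hS1, Complex.exp_sum, PP, EE, eval_prod]
    refine Finset.prod_congr rfl fun i hi => ?_
    have hi' := ne_of_mem_erase hi
    rw [Complex.exp_log]
    · simp
    · intro h
      have := uu_sq h2 e hi'
      rw [← sub_eq_zero.mp h, one_pow] at this
      exact e_ne_one he (mul_ne_zero h2' hi') this.symm
  have hQ : QQ e = Complex.exp S2 := by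
    rw [hS2, Complex.exp_sum, QQ, EE, eval_prod]
    have : ∀ i ∈ univ.erase (0 : ZMod p), eval (-1) (X - C (uu e i)) = (-1) * (1 + uu e i) := by
      intro i _
      simp
      ring
    rw [Finset.prod_congr rfl this, Finset.prod_mul_distrib, Finset.prod_const, card_erase' hn,
      pow_mul, neg_one_sq, one_pow, one_mul]
    refine Finset.prod_congr rfl fun i hi => ?_
    have hi' := ne_of_mem_erase hi
    rw [Complex.exp_log]
    intro h
    have h3 := uu_sq h2 e hi'
    have h4 : uu e i = -1 := by linear_combination h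
    rw [h4] at h3
    norm_num at h3
    exact e_ne_one he (mul_ne_zero h2' hi') h3.symm
  constructor
  · rw [hP]
    congr 1
    linear_combination (1 / 2 : ℂ) * hdiff + (1 / 2 : ℂ) * hsum
  · rw [hQ]
    congr 1
    linear_combination (-1 / 2 : ℂ) * hdiff + (1 / 2 : ℂ) * hsum

end MP0e3347
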