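import Pool.Agent.Lib.MP_0e3347_nt.AlgB

open Module NumberField

namespace MP0e3347

open MvPolynomial

/-- The matrix determinant `D_p`, as a polynomial in `x = X 0, y = X 1, z = X 2, w = X 3`. -/
noncomputable def Dp (p : ℕ) [Fact p.Prime] : MvPolynomial (Fin 4) ℚ :=
  (Matrix.of fun j k : Fin ((p - 1) / 2) =>
    (X 0 : MvPolynomial (Fin 4) ℚ)
      + C (legendreSym p (((j : ℤ) + 1) - ((k : ℤ) + 1) + 1) : ℚ)
      + C (legendreSym p ((j : ℤ) + 1) : ℚ) * X 1
      + C (legendreSym p ((k : ℤ) + 1) : ℚ) * X 2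
      + C (legendreSym p (((j : ℤ) + 1) * ((k : ℤ) + 1)) : ℚ) * X 3).det

variable {p : ℕ} [hp : Fact p.Prime] {K : Type*} [Field K] [NumberField K]

theorem Dp_formula {m : ℕ} (hn : p = 2 * (m + 1) + 1) :
    Dp p = C ((AA p m).det : ℚ) * (1 + X 1 + X 3) +
      C ((GG (AA p m) : ℤ) : ℚ) * ((X 3 + 1) * X 0 - X 1 * X 2) +
      C ((HH (AA p m) : ℤ) : ℚ) * ((X 1 + 1) * X 2 - X 3 * X 0) := by
  have hm : (p - 1) / 2 = m + 1 := by omega
  set R := MvPolynomial (Fin 4) ℚ with hR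
  set M : Matrix (Fin (m + 1)) (Fin (m + 1)) R := (AA p m).map (Int.castRingHom R) with hM
  have hMd : C ((AA p m).det : ℚ) = M.det := by
    rw [hM, ← RingHom.mapMatrix_apply, ← RingHom.map_det]
    simp
  have hMG : (C ((GG (AA p m) : ℤ) : ℚ) : R) = GG M := by
    rw [hM, GG_map]; simp
  have hMH : (C ((HH (AA p m) : ℤ) : ℚ) : R) = HH M := by
    rw [hM, HH_map]; simp
  have hu : IsUnit M.det := by
    rw [← hMd]
    refine IsUnit.map C ?_
    rw [isUnit_iff_ne_zero]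
    exact_mod_cast AA_det_ne_zero hn
  have h0 : M 0 0 = 1 := by
    rw [hM, Matrix.map_apply, AA_zero]; simp
  have h := det_formula M hu h0 (X 0) (X 1) (X 2) (X 3)
  rw [hMd, hMG, hMH, ← h]
  unfold Dp
  have key : ∀ N : ℕ, N = m + 1 → ∀ (f : ℕ → ℕ → R),
      (Matrix.of fun j k : Fin N => f j k).det = (Matrix.of fun j k : Fin (m + 1) => f j k).det := by
    intro N hN f
    subst hN
    rfl
  rw [key _ hm (fun j k => (X 0 : R)
      + C (legendreSym p (((j : ℤ) + 1) - ((k : ℤ) + 1) + 1) : ℚ)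
      + C (legendreSym p ((j : ℤ) + 1) : ℚ) * X 1
      + C (legendreSym p ((k : ℤ) + 1) : ℚ) * X 2
      + C (legendreSym p (((j : ℤ) + 1) * ((k : ℤ) + 1)) : ℚ) * X 3)]
  congr 1
  ext1 i j
  simp only [Matrix.of_apply, hM, Matrix.map_apply, AA, Fin.val_zero, Nat.cast_zero, sub_zero]
  have e1 : legendreSym p (((i : ℕ) : ℤ) + 1 - (((j : ℕ) : ℤ) + 1) + 1) =
      quadraticChar (ZMod p) (((i : ℕ) : ZMod p) - ((j : ℕ) : ZMod p) + 1) := by
    unfold legendreSym
    congr 1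
    push_cast
    ring
  have e2 : ∀ i : ℕ, legendreSym p ((i : ℤ) + 1) = quadraticChar (ZMod p) ((i : ZMod p) + 1) := by
    intro i
    unfold legendreSym
    congr 1
    push_cast
    ring
  rw [e1, legendreSym.mul, e2, e2]
  simp only [Int.cast_mul, map_mul, eq_intCast, map_intCast]

end MP0e3347
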