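import Pool.Agent.Lib.MP_0e3347_nt.An2

open Finset Polynomial

namespace MP0e3347

variable {p : ℕ} [hp : Fact p.Prime]

/-- twisting an additive character by a nonresidue changes the sign of the Gauss sum -/
lemma exists_tau (h2 : p ≠ 2) {r : ℂ} (hr : r ^ 2 = chi ℂ (-1 : ZMod p) * p) :
    ∃ e : AddChar (ZMod p) ℂ, e.IsPrimitive ∧ tau e = r := by
  have hpF : (p : ℂ) ≠ 0 := by exact_mod_cast hp.out.ne_zero
  obtain ⟨e, he⟩ := exists_char (p := p) ℂ hpF
  have h3 := tau_sq h2 he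
  rw [← hr] at h3
  rcases sq_eq_sq_iff_eq_or_eq_neg.mp h3 with h | h
  · exact ⟨e, he, h⟩
  · obtain ⟨a, ha⟩ := quadraticChar_exists_neg_one' (ringChar_ne_two (p := p) h2)
    refine ⟨e.mulShift (a : ZMod p), ?_, ?_⟩
    · intro b hb
      rw [AddChar.mulShift_mulShift]
      exact he (mul_ne_zero a.ne_zero hb)
    · unfold tau
      have h4 := sum_chi_mul h2 e (a : ZMod p)
      have h5 : ∀ r : ZMod p, chi ℂ r * (e.mulShift (a : ZMod p)) r = chi ℂ r * e (r * a) := by
        intro r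
        rw [AddChar.mulShift_apply, mul_comm r]
      rw [Finset.sum_congr rfl fun r _ => h5 r, h4, h]
      have h6 : chi ℂ (a : ZMod p) = -1 := by
        unfold chi
        rw [ha]; simp
      rw [h6]; ring

lemma chi_two_cases (h2 : p ≠ 2) : quadraticChar (ZMod p) 2 = 1 ∨ quadraticChar (ZMod p) 2 = -1 :=
  quadraticChar_dichotomy (two_ne_zero' h2)

lemma exp_half_log : Complex.exp ((Real.log p : ℂ) / 2) = (Real.sqrt p : ℂ) := by
  have hp0 : (0 : ℝ) < p := by exact_mod_cast hp.out.pos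
  rw [Real.sqrt_eq_rpow, Real.rpow_def_of_pos hp0]
  push_cast
  congr 1
  ring

theorem final_one {m : ℕ} (hn : p = 2 * (m + 1) + 1) (h4 : p % 4 = 1) {h : ℕ} {ε : ℝ}
    (hε : 0 < ε)
    (hL : DirichletCharacter.LFunction (chiD p) 1 = ((2 * h * Real.log ε / Real.sqrt p : ℝ) : ℂ))
    {a b : ℚ}
    (hab : ε ^ (((2 : ℤ) - quadraticChar (ZMod p) 2) * h) = (a : ℝ) + b * Real.sqrt p)
    (hN : a ^ 2 - p * b ^ 2 = 1 ∨ a ^ 2 - p * b ^ 2 = -1) :
    ((AA p m).det : ℚ) = (quadraticChar (ZMod p) 2 : ℤ) * (b - a) ∧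
    ((GG (AA p m) : ℤ) : ℚ) = p * b - a ∧
    ((HH (AA p m) : ℤ) : ℚ) = (quadraticChar (ZMod p) 2 : ℤ) * (b - a) +
      (quadraticChar (ZMod p) 2 : ℤ) * ((p - 1) / 2) := by
  have h2 : p ≠ 2 := by omega
  have hs : quadraticChar (ZMod p) (-1) = 1 := by
    rw [quadraticChar_neg_one (ringChar_ne_two h2), ZMod.card, ZMod.χ₄_nat_one_mod_four h4]
  have hs' : chi ℂ (-1 : ZMod p) = 1 := by unfold chi; rw [hs]; simp
  have hp0 : (0 : ℝ) < p := by exact_mod_cast hp.out.pos
  have hsq : Real.sqrt p ^ 2 = p := Real.sq_sqrt hp0.le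
  have hsqpos : 0 < Real.sqrt p := Real.sqrt_pos.mpr hp0
  set q : ℝ := Real.sqrt p with hq
  obtain ⟨e, he, hτ⟩ := exists_tau (p := p) h2 (r := (q : ℂ)) (by
    rw [hs', one_mul, ← Complex.ofReal_pow, hsq]; simp)
  obtain ⟨hP, hQ⟩ := PP_QQ_exp hn h2 he
  have hτL : tau e * DirichletCharacter.LFunction (chiD p) 1 =
      ((2 * h * Real.log ε : ℝ) : ℂ) := by
    rw [hτ, hL, ← Complex.ofReal_mul]
    congr 1
    field_simp
  rw [hτL] at hP hQ
  -- the number eta
  set η : ℝ := (a : ℝ) + b * q with hη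
  have hηpos : 0 < η := by
    rw [← hab]; exact zpow_pos hε _
  have hlogη : Real.log η = ((2 : ℝ) - (quadraticChar (ZMod p) 2 : ℤ)) * h * Real.log ε := by
    rw [← hab, Real.log_zpow]
    push_cast
    ring
  -- D and D'
  have hirr : Irrational q := by
    rw [hq]; exact hp.out.irrational_sqrt
  have key : ∀ t : ℤ, t = quadraticChar (ZMod p) 2 → (t = 1 ∨ t = -1) →
      DD e = ((q * ((1 + q) * η⁻¹ + (1 - q) * η) : ℝ) : ℂ) ∧
      DD' e = ((t * q * ((1 + q) * η⁻¹ - (1 - q) * η) : ℝ) : ℂ) := by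
    intro t ht ht'
    have hchi : chi ℂ (2 : ZMod p) = (t : ℂ) := by
      unfold chi; rw [← ht]
    have hκ : kap e = (t : ℂ) * q := by
      rw [kap, hchi, hs', hτ, mul_one]
    rw [← ht] at hlogη
    have hexpη : Complex.exp (Real.log η : ℂ) = (η : ℂ) := by
      rw [← Complex.ofReal_exp, Real.exp_log hηpos]
    have hexpη' : Complex.exp (-(Real.log η : ℂ)) = (η : ℂ)⁻¹ := by
      rw [Complex.exp_neg, hexpη]
    rw [hchi] at hP hQ
    rcases ht' with rfl | rfl
    · have e1 : PP e = (q : ℂ) * (η : ℂ)⁻¹ := by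
        rw [hP, ← hexpη', ← exp_half_log, ← Complex.exp_add]
        congr 1
        rw [hlogη]
        push_cast
        ring
      have e2 : QQ e = (q : ℂ) * η := by
        rw [hQ, ← hexpη, ← exp_half_log, ← Complex.exp_add]
        congr 1
        rw [hlogη]
        push_cast
        ring
      constructor
      · rw [DD, e1, e2, hκ]
        push_cast
        ring
      · rw [DD', e1, e2, hκ]
        push_cast
        ring
    · have e1 : PP e = (q : ℂ) * η := by
        rw [hP, ← hexpη, ← exp_half_log, ← Complex.exp_add]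
        congr 1
        rw [hlogη]
        push_cast
        ring
      have e2 : QQ e = (q : ℂ) * (η : ℂ)⁻¹ := by
        rw [hQ, ← hexpη', ← exp_half_log, ← Complex.exp_add]
        congr 1
        rw [hlogη]
        push_cast
        ring
      constructor
      · rw [DD, e1, e2, hκ]
        push_cast
        ring
      · rw [DD', e1, e2, hκ]
        push_cast
        ring
  obtain ⟨hD, hD'⟩ := key _ rfl (chi_two_cases h2)
  have hdet := det_eq hn he
  have hG := GG_eq hn he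
  have hH := HH_eq hn
  have hθ := theta_eq_of_one hn h4
  have ht2 := cast_two_mul_self (p := p) h2
  have hAne := AA_det_ne_zero hn
  rw [hθ, hD] at hdet
  rw [hθ, hD', hτ] at hG
  rw [hθ, hs] at hH
  generalize (AA p m).det = dA at hdet hH hAne ⊢
  generalize GG (AA p m) = dG at hG ⊢
  generalize HH (AA p m) = dH at hH ⊢
  set t : ℤ := quadraticChar (ZMod p) 2 with ht
  have ht2' : (t : ℝ) * t = 1 := by exact_mod_cast ht2
  have hdet' : 2 * (p : ℝ) * (dA : ℝ) = t * (q * ((1 + q) * η⁻¹ + (1 - q) * η)) := by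
    exact_mod_cast hdet
  have hG' : 2 * (p : ℝ) * (dG : ℝ) =
      t * q * (t * q * ((1 + q) * η⁻¹ - (1 - q) * η)) := by
    exact_mod_cast hG
  have hNR : (a : ℝ) ^ 2 - p * (b : ℝ) ^ 2 = 1 ∨ (a : ℝ) ^ 2 - p * (b : ℝ) ^ 2 = -1 := by
    rcases hN with h | h
    · left; exact_mod_cast h
    · right; exact_mod_cast h
  have hNR' : (a : ℝ) ^ 2 - p * (b : ℝ) ^ 2 = -1 := by
    rcases hNR with h1 | h1
    · exfalso
      have hinv : η⁻¹ = (a : ℝ) - b * q := by
        have h6 : η * ((a : ℝ) - b * q) = 1 := by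
          rw [hη]; linear_combination h1 - (b : ℝ) ^ 2 * hsq
        exact inv_eq_of_mul_eq_one_right h6
      rw [hinv, hη] at hdet'
      have h3 : q * (dA : ℝ) = t * ((a : ℝ) - p * b) := by
        refine mul_left_cancel₀ (mul_ne_zero two_ne_zero hsqpos.ne') ?_
        linear_combination hdet' + (2 * (dA : ℝ) - 2 * t * q * b) * hsq
      have h5 : (dA : ℝ) ≠ 0 := by
        exact_mod_cast hAne
      apply hirr
      refine ⟨(t * (a - p * b)) / (dA : ℚ), ?_⟩
      push_cast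
      rw [← h3]
      field_simp
    · exact h1
  have hinv : η⁻¹ = -((a : ℝ) - b * q) := by
    have h6 : η * (-((a : ℝ) - b * q)) = 1 := by
      rw [hη]; linear_combination -hNR' + (b : ℝ) ^ 2 * hsq
    exact inv_eq_of_mul_eq_one_right h6
  rw [hinv, hη] at hdet' hG'
  have hpne : (p : ℝ) ≠ 0 := hp0.ne'
  have r1 : (dA : ℝ) = t * ((b : ℝ) - a) := by
    refine mul_left_cancel₀ (mul_ne_zero two_ne_zero hpne) ?_
    rw [hdet']
    linear_combination (2 * t * ((b : ℝ) - a)) * hsq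
  have r2 : (dG : ℝ) = p * b - a := by
    refine mul_left_cancel₀ (mul_ne_zero two_ne_zero hpne) ?_
    rw [hG']
    linear_combination (-2 * q ^ 2 * a + 2 * q ^ 4 * b) * ht2' +
      (-2 * (a : ℝ) + 2 * q ^ 2 * b + 2 * p * b) * hsq
  have r1' : (dA : ℚ) = t * (b - a) := by exact_mod_cast r1
  refine ⟨r1', by exact_mod_cast r2, ?_⟩
  rw [← r1']
  have hH' : 2 * (dH : ℚ) = 2 * 1 * (dA : ℚ) + t * (1 * p - 1) := by
    exact_mod_cast hH
  linear_combination (1 / 2 : ℚ) * hH'

theorem final_three {m : ℕ} (hn : p = 2 * (m + 1) + 1) (h4 : p % 4 = 3) {h : ℕ}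
    (hL : DirichletCharacter.LFunction (chiD p) 1 = ((Real.pi * h / Real.sqrt p : ℝ) : ℂ)) :
    Odd h ∧ (AA p m).det = - quadraticChar (ZMod p) 2 ∧
    GG (AA p m) = 1 ∧
    2 * HH (AA p m) = 2 * quadraticChar (ZMod p) 2 - (-1) ^ ((h - 1) / 2) * (p + 1) := by
  have h2 : p ≠ 2 := by omega
  have hs : quadraticChar (ZMod p) (-1) = -1 := by
    rw [quadraticChar_neg_one (ringChar_ne_two h2), ZMod.card, ZMod.χ₄_nat_three_mod_four h4]
  have hs' : chi ℂ (-1 : ZMod p) = -1 := by unfold chi; rw [hs]; simp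
  have hp0 : (0 : ℝ) < p := by exact_mod_cast hp.out.pos
  have hsq : Real.sqrt p ^ 2 = p := Real.sq_sqrt hp0.le
  have hsqpos : 0 < Real.sqrt p := Real.sqrt_pos.mpr hp0
  set q : ℝ := Real.sqrt p with hq
  have hsqC : (q : ℂ) ^ 2 = p := by
    rw [← Complex.ofReal_pow, hsq]; simp
  have hI : Complex.I ^ 2 = -1 := Complex.I_sq
  obtain ⟨e, he, hτ⟩ := exists_tau (p := p) h2 (r := Complex.I * (q : ℂ)) (by
    rw [hs', mul_pow, hI, hsqC])
  obtain ⟨hP, hQ⟩ := PP_QQ_exp hn h2 he
  have hqC : (q : ℂ) ≠ 0 := by exact_mod_cast hsqpos.ne'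
  have hτL : tau e * DirichletCharacter.LFunction (chiD p) 1 = Real.pi * h * Complex.I := by
    rw [hτ, hL]
    push_cast
    field_simp
  rw [hτL] at hP hQ
  have hexp1 : Complex.exp (- (Real.pi / 2 * Complex.I)) = - Complex.I := by
    rw [Complex.exp_neg, Complex.exp_pi_div_two_mul_I, Complex.inv_I]
  have hexp2 : Complex.exp (Real.pi / 2 * Complex.I) = Complex.I := Complex.exp_pi_div_two_mul_I
  have hI3 : Complex.I ^ 3 = - Complex.I := by
    rw [pow_succ, hI]; ring
  have hP' : PP e = q * (-Complex.I) ^ h := by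
    rcases chi_two_cases h2 with ht | ht
    · have hchi : chi ℂ (2 : ZMod p) = 1 := by unfold chi; rw [ht]; simp
      rw [hP, hchi, ← hexp1, ← exp_half_log, ← Complex.exp_nat_mul, ← Complex.exp_add]
      congr 1
      ring
    · have hchi : chi ℂ (2 : ZMod p) = -1 := by unfold chi; rw [ht]; simp
      rw [hP, hchi, ← hI3, ← pow_mul, ← exp_half_log]
      nth_rewrite 2 [← hexp2]
      rw [← Complex.exp_nat_mul, ← Complex.exp_add]
      congr 1
      push_cast
      ring
  have hQ' : QQ e = q * Complex.I ^ h := by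
    rcases chi_two_cases h2 with ht | ht
    · have hchi : chi ℂ (2 : ZMod p) = 1 := by unfold chi; rw [ht]; simp
      rw [hQ, hchi, ← exp_half_log]
      nth_rewrite 2 [← hexp2]
      rw [← Complex.exp_nat_mul, ← Complex.exp_add]
      congr 1
      ring
    · have hchi : chi ℂ (2 : ZMod p) = -1 := by unfold chi; rw [ht]; simp
      have hI3' : (-Complex.I) ^ 3 = Complex.I := by
        rw [neg_pow, hI3]; ring
      rw [hQ, hchi]
      nth_rewrite 2 [← hI3']
      rw [← pow_mul, ← exp_half_log, ← hexp1, ← Complex.exp_nat_mul, ← Complex.exp_add]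
      congr 1
      push_cast
      ring
  have hdet := det_eq hn he
  have hG := GG_eq hn he
  have hH := HH_eq hn
  have hGm := GG_mod_of_three hn h4
  have ht2 := cast_two_mul_self (p := p) h2
  have hθ2 := theta_mul_self hn
  have hκ : kap e = - ((quadraticChar (ZMod p) 2 : ℤ) : ℂ) * (Complex.I * q) := by
    rw [kap, hs', hτ]
    unfold chi
    ring
  rw [hs] at hH
  rw [DD, hP', hQ', hκ] at hdet
  rw [DD', hP', hQ', hκ, hτ] at hG
  set t : ℤ := quadraticChar (ZMod p) 2 with ht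
  set θ := theta p m with hθ
  have hodd : Odd h := by
    by_contra hne
    rw [Nat.not_odd_iff_even] at hne
    obtain ⟨k, hk⟩ := hne
    have e1 : (-Complex.I) ^ h = (-1) ^ k := by
      rw [hk, ← two_mul, pow_mul, neg_sq, hI]
    have e2 : Complex.I ^ h = (-1) ^ k := by
      rw [hk, ← two_mul, pow_mul, hI]
    rw [e1, e2] at hdet
    have e3 : (q : ℂ) * ((AA p m).det : ℂ) = θ * (-1) ^ k := by
      refine mul_left_cancel₀ (mul_ne_zero two_ne_zero hqC) ?_
      linear_combination hdet + 2 * ((AA p m).det : ℂ) * hsqC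
    have e4 : (p : ℂ) * ((AA p m).det : ℂ) ^ 2 = 1 := by
      have h5 : ((-1 : ℂ) ^ k) * (-1) ^ k = 1 := by
        rw [← mul_pow]; simp
      have h6 : (θ : ℂ) * θ = 1 := by exact_mod_cast hθ2
      linear_combination (-((AA p m).det : ℂ) ^ 2) * hsqC +
        ((q : ℂ) * ((AA p m).det : ℂ) + θ * (-1) ^ k) * e3 +
        ((-1) ^ k * (-1) ^ k) * h6 + h5
    have e5 : (p : ℤ) * (AA p m).det ^ 2 = 1 := by exact_mod_cast e4
    have e6 : (p : ℤ) ∣ 1 := Dvd.intro _ e5
    have := Int.le_of_dvd one_pos e6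
    have := hp.out.two_le
    omega
  obtain ⟨k, hk⟩ := hodd
  have e1 : (-Complex.I) ^ h = - Complex.I * (-1) ^ k := by
    rw [hk, pow_succ, pow_mul, neg_sq, hI]; ring
  have e2 : Complex.I ^ h = Complex.I * (-1) ^ k := by
    rw [hk, pow_succ, pow_mul, hI]; ring
  have hpC : (p : ℂ) ≠ 0 := by exact_mod_cast hp.out.ne_zero
  rw [e1, e2] at hdet hG
  have d1 : ((AA p m).det : ℂ) = - t * (-1) ^ k * θ := by
    refine mul_left_cancel₀ (mul_ne_zero two_ne_zero hpC) ?_
    rw [hdet]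
    linear_combination (2 * t * (-1) ^ k * θ * (q : ℂ) ^ 2) * hI - (2 * t * (-1) ^ k * θ) * hsqC
  have g1 : ((GG (AA p m) : ℤ) : ℂ) = (-1) ^ k * θ := by
    refine mul_left_cancel₀ (mul_ne_zero two_ne_zero hpC) ?_
    rw [hG]
    linear_combination (-2 * (-1) ^ k * θ * (q : ℂ) ^ 2) * hI + (2 * (-1) ^ k * θ) * hsqC
  have d2 : (AA p m).det = - t * (-1) ^ k * θ := by exact_mod_cast d1
  have g2 : GG (AA p m) = (-1) ^ k * θ := by exact_mod_cast g1
  have g3 : (-1) ^ k * θ = 1 := by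
    have h5 : θ = 1 ∨ θ = -1 := mul_self_eq_one_iff.mp hθ2
    have h6 : (-1) ^ k * θ = 1 ∨ (-1) ^ k * θ = -1 := by
      rcases h5 with h5 | h5 <;> rcases neg_one_pow_eq_or ℤ k with h6 | h6 <;> rw [h5, h6] <;> simp
    rcases h6 with h6 | h6
    · exact h6
    · exfalso
      rw [g2, h6] at hGm
      push_cast at hGm
      have h7 : ((2 : ℕ) : ZMod p) = 0 := by
        push_cast
        linear_combination -hGm
      rw [ZMod.natCast_eq_zero_iff] at h7
      have := Nat.le_of_dvd two_pos h7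
      omega
  have hsgn : ((-1 : ℤ) ^ k) * (-1) ^ k = 1 := by
    rw [← mul_pow]; simp
  have hθk : θ = (-1) ^ k := by
    linear_combination ((-1) ^ k) * g3 - θ * hsgn
  have hk' : (h - 1) / 2 = k := by omega
  refine ⟨⟨k, hk⟩, ?_, by rw [g2, g3], ?_⟩
  · rw [d2]
    linear_combination (-t) * g3
  · rw [hH, hk', d2, hθk]
    linear_combination (2 * t) * hsgn

end MP0e3347
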