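import Pool.Agent.Lib.MP_0e3347_nt.NF5
import Pool.Agent.Lib.MP_0e3347_nt.Fin1
import Pool.Agent.Lib.MP_0e3347_nt.Fin0

open Module NumberField

namespace MP0e3347

open MvPolynomial

variable {p : ℕ} [hp : Fact p.Prime] {K : Type*} [Field K] [NumberField K]

lemma leg_two : legendreSym p 2 = quadraticChar (ZMod p) 2 := by
  unfold legendreSym
  rw [Int.cast_ofNat]

section Real

/-- an element `x + yω` of the ring of integers, evaluated at a real place -/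
lemma uv_repr (Y : QF p K) (hpos : 0 < 1 - 4 * Y.c) (φ : K →+* ℝ) :
    ∃ t : ℤ, (t = 1 ∨ t = -1) ∧ ∀ (v : 𝓞 K) (x y : ℤ), v = (x : 𝓞 K) + (y : 𝓞 K) * Y.omI →
      φ (algebraMap (𝓞 K) K v) =
        ((((x : ℚ) + y / 2 : ℚ)) : ℝ) + ((((t : ℚ) * y / 2 : ℚ)) : ℝ) * Real.sqrt p := by
  have hd : (1 - 4 * Y.c : ℤ) = (p : ℤ) := by
    have := Y.d_abs
    rwa [abs_of_pos hpos] at this
  have hp0 : (0 : ℝ) < p := by exact_mod_cast hp.out.pos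
  have h2 : (φ Y.s) ^ 2 = (Real.sqrt p) ^ 2 := by
    rw [← map_pow, Y.hs, hd, Real.sq_sqrt hp0.le]; simp
  have hφ : ∀ t : ℤ, φ Y.s = t * Real.sqrt p → ∀ (v : 𝓞 K) (x y : ℤ),
      v = (x : 𝓞 K) + (y : 𝓞 K) * Y.omI →
      φ (algebraMap (𝓞 K) K v) =
        ((((x : ℚ) + y / 2 : ℚ)) : ℝ) + ((((t : ℚ) * y / 2 : ℚ)) : ℝ) * Real.sqrt p := by
    intro t ht v x y hv
    have hom : algebraMap (𝓞 K) K Y.omI = (1 + Y.s) / 2 := rfl
    rw [hv, map_add, map_mul, hom, map_add, map_mul, map_div₀, map_add, ht]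
    simp only [map_intCast, map_one, map_ofNat]
    push_cast
    ring
  rcases sq_eq_sq_iff_eq_or_eq_neg.mp h2 with h | h
  · exact ⟨1, Or.inl rfl, hφ 1 (by rw [h]; simp)⟩
  · exact ⟨-1, Or.inr rfl, hφ (-1) (by rw [h]; simp)⟩

lemma norm_unit (Y : QF p K) (v : (𝓞 K)ˣ) {x y : ℤ}
    (hv : (v : 𝓞 K) = (x : 𝓞 K) + (y : 𝓞 K) * Y.omI) :
    x ^ 2 + x * y + Y.c * y ^ 2 = 1 ∨ x ^ 2 + x * y + Y.c * y ^ 2 = -1 := by
  obtain ⟨x', y', hv'⟩ := Y.exists_repr ((v⁻¹ : (𝓞 K)ˣ) : 𝓞 K)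
  have h1 : (v : 𝓞 K) * ((v⁻¹ : (𝓞 K)ˣ) : 𝓞 K) = 1 := Units.mul_inv v
  rw [hv, hv'] at h1
  have h2 : ((x * x' - y * y' * Y.c : ℤ) : 𝓞 K) + ((x * y' + x' * y + y * y' : ℤ) : 𝓞 K) * Y.omI =
      ((1 : ℤ) : 𝓞 K) + ((0 : ℤ) : 𝓞 K) * Y.omI := by
    push_cast
    linear_combination h1 - ((y : 𝓞 K) * y') * Y.omI_sq
  obtain ⟨h3, h4⟩ := Y.repr_unique h2
  have h5 : (x ^ 2 + x * y + Y.c * y ^ 2) * (x' ^ 2 + x' * y' + Y.c * y' ^ 2) = 1 := by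
    have : (x ^ 2 + x * y + Y.c * y ^ 2) * (x' ^ 2 + x' * y' + Y.c * y' ^ 2) =
        (x * x' - y * y' * Y.c) ^ 2 + (x * x' - y * y' * Y.c) * (x * y' + x' * y + y * y') +
        Y.c * (x * y' + x' * y + y * y') ^ 2 := by ring
    rw [this, h3, h4]; ring
  exact Int.isUnit_iff.mp (IsUnit.of_mul_eq_one _ h5)

lemma rat_unique {a b a' b' : ℚ} (h : (a : ℝ) + b * Real.sqrt p = a' + b' * Real.sqrt p) :
    a = a' ∧ b = b' := by
  have hirr : Irrational (Real.sqrt p) := hp.out.irrational_sqrt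
  have hb : b = b' := by
    by_contra hne
    apply hirr
    refine ⟨(a' - a) / (b - b'), ?_⟩
    have h1 : ((b : ℝ) - b') ≠ 0 := by
      intro h0
      apply hne
      have : (b : ℝ) = b' := by linarith
      exact_mod_cast this
    push_cast
    field_simp
    linear_combination -h
  subst hb
  refine ⟨?_, rfl⟩
  have : (a : ℝ) = a' := by linarith
  exact_mod_cast this

/-- The exponent `(2 - (2/p)) h` is a natural number. -/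
lemma exists_nat_exp (hp2 : p ≠ 2) (h : ℕ) :
    ∃ N : ℕ, (((2 : ℤ) - quadraticChar (ZMod p) 2) * h) = N := by
  rcases chi_two_cases (p := p) hp2 with ht | ht
  · exact ⟨h, by rw [ht]; ring⟩
  · exact ⟨3 * h, by rw [ht]; push_cast; ring⟩

theorem main_real_exists (Y : QF p K) (hpos : 0 < 1 - 4 * Y.c) (φ : K →+* ℝ) (u : (𝓞 K)ˣ) :
    ∃ a b : ℚ, (∃ i : ℤ, 2 * a = i) ∧ (∃ i : ℤ, 2 * b = i) ∧
      (uv φ u) ^ (((2 : ℤ) - legendreSym p 2) * (classNumber K : ℤ)) =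
        (a : ℝ) + b * Real.sqrt p := by
  obtain ⟨N, hN⟩ := exists_nat_exp (p := p) Y.p_ne_two (classNumber K)
  obtain ⟨t, ht, hφ⟩ := uv_repr Y hpos φ
  obtain ⟨x, y, hxy⟩ := Y.exists_repr ((u ^ N : (𝓞 K)ˣ) : 𝓞 K)
  refine ⟨(x : ℚ) + y / 2, (t : ℚ) * y / 2, ⟨2 * x + y, by push_cast; ring⟩,
    ⟨t * y, by push_cast; ring⟩, ?_⟩
  rw [leg_two, hN, zpow_natCast, ← uv_pow]
  exact hφ _ x y hxy

theorem main_real (Y : QF p K) (hpos : 0 < 1 - 4 * Y.c) (φ : K →+* ℝ) {u : (𝓞 K)ˣ}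
    (hu : IsFund φ u) {a b : ℚ}
    (hab : (uv φ u) ^ (((2 : ℤ) - legendreSym p 2) * (classNumber K : ℤ)) =
        (a : ℝ) + b * Real.sqrt p) (h3 : 3 < p) :
    Dp p = C ((legendreSym p 2 : ℚ) * ((p - 1) / 2)) * ((X 1 + 1) * X 2 - X 3 * X 0)
      + C (p * b - a) * ((X 3 + 1) * X 0 - X 1 * X 2)
      + C ((legendreSym p 2 : ℚ) * (b - a)) * (X 3 * (1 - X 0) + (X 1 + 1) * (X 2 + 1)) := by
  have hd : (1 - 4 * Y.c : ℤ) = (p : ℤ) := by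
    have := Y.d_abs
    rwa [abs_of_pos hpos] at this
  have h4 : p % 4 = 1 := by omega
  obtain ⟨m, hm⟩ : ∃ m, p = 2 * (m + 1) + 1 := ⟨(p - 1) / 2 - 1, by omega⟩
  -- the norm condition
  obtain ⟨N, hN⟩ := exists_nat_exp (p := p) Y.p_ne_two (classNumber K)
  obtain ⟨t, ht, hφ⟩ := uv_repr Y hpos φ
  obtain ⟨x, y, hxy⟩ := Y.exists_repr ((u ^ N : (𝓞 K)ˣ) : 𝓞 K)
  have hnorm := norm_unit Y (u ^ N) hxy
  have h5 : (a : ℝ) + b * Real.sqrt p =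
      ((((x : ℚ) + y / 2 : ℚ)) : ℝ) + ((((t : ℚ) * y / 2 : ℚ)) : ℝ) * Real.sqrt p := by
    rw [← hab, leg_two, hN, zpow_natCast, ← uv_pow]
    exact hφ _ x y hxy
  obtain ⟨ha, hb⟩ := rat_unique h5
  have hnorm' : a ^ 2 - p * b ^ 2 = ((x ^ 2 + x * y + Y.c * y ^ 2 : ℤ) : ℚ) := by
    have hdq : (1 - 4 * (Y.c : ℚ)) = p := by exact_mod_cast hd
    have htq : (t : ℚ) ^ 2 = 1 := by
      rcases ht with rfl | rfl <;> norm_num
    rw [ha, hb]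
    push_cast
    linear_combination (-(y : ℚ) ^ 2 / 4 * p) * htq + ((y : ℚ) ^ 2 / 4) * hdq
  have hN' : a ^ 2 - p * b ^ 2 = 1 ∨ a ^ 2 - p * b ^ 2 = -1 := by
    rw [hnorm']
    rcases hnorm with h | h
    · left; rw [h]; simp
    · right; rw [h]; simp
  have hε : 0 < uv φ u := lt_trans one_pos hu.1
  rw [leg_two] at hab
  obtain ⟨r1, r2, r3⟩ := final_one hm h4 hε (Y.L_real φ hu) hab hN'
  rw [Dp_formula hm, r1, r2, r3, leg_two]
  simp only [map_add, map_mul]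
  ring

end Real

section Imag

theorem main_imag (Y : QF p K) (hneg : 1 - 4 * Y.c < 0) (h3 : 3 < p) :
    Odd (classNumber K) ∧
    Dp p = ((X 3 + 1) * X 0 - X 1 * X 2)
      + C (legendreSym p 2 : ℚ) * ((X 1 + 1) * (X 2 - 1) - X 3 * (X 0 + 1))
      + C ((-1) ^ ((classNumber K - 1) / 2) * (((p : ℚ) + 1) / 2)) * (X 3 * X 0 - (X 1 + 1) * X 2) := by
  have hd : (1 - 4 * Y.c : ℤ) = - (p : ℤ) := by
    have := Y.d_abs
    rw [abs_of_neg hneg] at this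
    omega
  have h4 : p % 4 = 3 := by omega
  obtain ⟨m, hm⟩ : ∃ m, p = 2 * (m + 1) + 1 := ⟨(p - 1) / 2 - 1, by omega⟩
  obtain ⟨r0, r1, r2, r3⟩ := final_three hm h4 (Y.L_imag h3 hneg)
  refine ⟨r0, ?_⟩
  have r1' : (((AA p m).det : ℤ) : ℚ) = - (quadraticChar (ZMod p) 2 : ℤ) := by
    rw [r1]; simp
  have r2' : ((GG (AA p m) : ℤ) : ℚ) = 1 := by rw [r2]; simp
  have r3' : ((HH (AA p m) : ℤ) : ℚ) = (quadraticChar (ZMod p) 2 : ℤ) -
      (-1) ^ ((classNumber K - 1) / 2) * ((p + 1) / 2) := by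
    have h5 := congrArg (Int.cast : ℤ → ℚ) r3
    push_cast at h5
    linear_combination (1 / 2 : ℚ) * h5
  rw [Dp_formula hm, r1', r2', r3', leg_two]
  simp only [map_sub, map_mul, map_neg, map_one]
  ring

end Imag

end MP0e3347
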