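import Mathlib

open Module

namespace MP0e3347

section NF

open NumberField

/-- Data of a quadratic field with a square root of `1 - 4c`, of prime absolute value. -/
structure QF (p : ℕ) (K : Type*) [Field K] [NumberField K] where
  /-- the square root -/
  s : K
  /-- `d = 1 - 4c` -/
  c : ℤ
  hK : finrank ℚ K = 2
  hs : s ^ 2 = ((1 - 4 * c : ℤ) : K)
  hc : (1 - 4 * c).natAbs = p

variable {p : ℕ} [hp : Fact p.Prime] {K : Type*} [Field K] [NumberField K]

namespace QF

variable (X : QF p K)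

lemma d_abs : |(1 - 4 * X.c)| = p := by
  rw [← Int.natCast_natAbs, X.hc]

lemma not_rat (r : ℚ) : algebraMap ℚ K r ≠ X.s := by
  intro h
  have h1 : algebraMap ℚ K (r ^ 2) = algebraMap ℚ K ((1 - 4 * X.c : ℤ) : ℚ) := by
    rw [map_pow, h, X.hs]; simp
  have h2 : r ^ 2 = ((1 - 4 * X.c : ℤ) : ℚ) := (algebraMap ℚ K).injective h1
  rcases abs_choice (1 - 4 * X.c) with h3 | h3
  · -- positive
    rw [X.d_abs] at h3
    rw [← h3] at h2
    have h5 : Irrational (Real.sqrt p) := hp.out.irrational_sqrt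
    apply h5
    refine ⟨|r|, ?_⟩
    rw [eq_comm, Real.sqrt_eq_iff_mul_self_eq (by positivity) (by positivity)]
    have h6 : (r : ℝ) ^ 2 = p := by exact_mod_cast h2
    rw [← h6]
    push_cast
    rw [← sq, sq_abs]
  · rw [X.d_abs] at h3
    have h4 : ((1 - 4 * X.c : ℤ) : ℚ) = - (p : ℚ) := by
      have : (1 - 4 * X.c : ℤ) = - (p : ℤ) := by rw [h3]; ring
      rw [this]; simp
    rw [h4] at h2
    have h5 : (0 : ℚ) < p := by exact_mod_cast hp.out.pos
    nlinarith [sq_nonneg r]

/-- `ω = (1 + s) / 2` -/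
noncomputable def om : K := (1 + X.s) / 2

lemma om_sq : X.om ^ 2 = X.om - (X.c : K) := by
  have h := X.hs
  push_cast at h
  unfold om
  field_simp
  linear_combination h

lemma om_int : IsIntegral ℤ X.om := by
  refine ⟨Polynomial.X ^ 2 - Polynomial.X + Polynomial.C X.c, ?_, ?_⟩
  · monicity!
  · have h := X.om_sq
    rw [Polynomial.eval₂_add, Polynomial.eval₂_sub, Polynomial.eval₂_pow,
      Polynomial.eval₂_X, Polynomial.eval₂_C, algebraMap_int_eq, eq_intCast]
    linear_combination h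

/-- `ω` as an algebraic integer. -/
noncomputable def omI : 𝓞 K := ⟨X.om, X.om_int⟩

lemma omI_coe : ((X.omI : 𝓞 K) : K) = X.om := rfl

lemma omI_sq : X.omI * X.omI = X.omI - (X.c : 𝓞 K) := by
  apply RingOfIntegers.ext
  have h := X.om_sq
  simp only [map_mul, map_sub, map_intCast, omI_coe]
  linear_combination h

lemma linInd : LinearIndependent ℚ ![(1 : K), X.om] := by
  rw [LinearIndependent.pair_iff]
  intro a b h
  have hb : b = 0 := by
    by_contra hb
    apply X.not_rat (-(2 * a / b) - 1)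
    have hb' : (algebraMap ℚ K b) ≠ 0 := by
      rw [Ne, map_eq_zero]; exact hb
    rw [Algebra.smul_def, Algebra.smul_def, mul_one, om] at h
    rw [map_sub, map_neg, map_div₀, map_mul, map_one]
    field_simp
    simp only [map_ofNat]
    field_simp at h
    linear_combination -h
  subst hb
  refine ⟨?_, rfl⟩
  rw [zero_smul, add_zero, Algebra.smul_def, mul_one, map_eq_zero] at h
  exact h

/-- The `ℚ`-basis `1, ω`. -/
noncomputable def bas : Basis (Fin 2) ℚ K :=
  basisOfLinearIndependentOfCardEqFinrank X.linInd (by rw [X.hK]; rfl)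

lemma bas_zero : X.bas 0 = 1 := by
  simp [bas]

lemma bas_one : X.bas 1 = X.om := by
  simp [bas]

lemma bas_coe : (X.bas : Fin 2 → K) = ![(1 : K), X.om] := by
  simp [bas]

include X in
lemma trace_one : Algebra.trace ℚ K 1 = 2 := by
  have := Algebra.trace_algebraMap (R := ℚ) (S := K) 1
  rw [map_one] at this
  rw [this, X.hK]
  norm_num

lemma trace_om : Algebra.trace ℚ K X.om = 1 := by
  rw [Algebra.trace_eq_matrix_trace X.bas, Matrix.trace_fin_two,
    Algebra.leftMulMatrix_eq_repr_mul, Algebra.leftMulMatrix_eq_repr_mul]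
  have h1 : X.om * X.bas 0 = X.bas 1 := by
    rw [X.bas_zero, X.bas_one, mul_one]
  have h2 : X.om * X.bas 1 = X.bas 1 - (X.c : ℚ) • X.bas 0 := by
    rw [X.bas_zero, X.bas_one, ← sq, X.om_sq, Algebra.smul_def, mul_one]
    simp
  rw [h1, h2]
  simp

lemma trace_om_sq : Algebra.trace ℚ K (X.om ^ 2) = 1 - 2 * X.c := by
  have h : X.om ^ 2 = X.om - (X.c : ℚ) • (1 : K) := by
    rw [X.om_sq, Algebra.smul_def, mul_one]
    simp
  rw [h, map_sub, map_smul, X.trace_om, X.trace_one, smul_eq_mul]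
  ring

lemma discr_bas : Algebra.discr ℚ X.bas = ((1 - 4 * X.c : ℤ) : ℚ) := by
  rw [Algebra.discr_def, Matrix.det_fin_two]
  simp only [Algebra.traceMatrix_apply, Algebra.traceForm_apply, X.bas_zero, X.bas_one]
  rw [mul_one, one_mul, mul_one, ← sq, X.trace_one, X.trace_om, X.trace_om_sq]
  push_cast
  ring

include X in
lemma card_index : Fintype.card (Free.ChooseBasisIndex ℤ (𝓞 K)) = 2 := by
  rw [← finrank_eq_card_chooseBasisIndex, RingOfIntegers.rank, X.hK]

/-- an integral basis indexed by `Fin 2` -/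
noncomputable def ib : Basis (Fin 2) ℤ (𝓞 K) :=
  (RingOfIntegers.basis K).reindex (Fintype.equivFinOfCardEq X.card_index)

/-- the family `1, ω` in `𝓞 K` -/
noncomputable def v : Fin 2 → 𝓞 K := ![1, X.omI]

/-- the same basis over `ℚ` -/
noncomputable def ibQ : Basis (Fin 2) ℚ K :=
  X.ib.localizationLocalization ℚ (nonZeroDivisors ℤ) K

lemma discr_ibQ : Algebra.discr ℚ X.ibQ = (discr K : ℚ) := by
  unfold ibQ
  rw [Algebra.discr_localizationLocalization, NumberField.discr_eq_discr]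
  simp

lemma v_coe (j : Fin 2) : X.bas j = algebraMap (𝓞 K) K (X.v j) := by
  fin_cases j
  · simp [bas_zero, v]
  · simp [bas_one, v, omI_coe]

lemma toMat : X.ibQ.toMatrix X.bas = (X.ib.toMatrix X.v).map (Int.castRingHom ℚ) := by
  ext i j
  rw [Basis.toMatrix_apply, Matrix.map_apply, Basis.toMatrix_apply, X.v_coe, ibQ,
    Basis.localizationLocalization_repr_algebraMap]
  simp

lemma d_eq : (1 - 4 * X.c) = (X.ib.toMatrix X.v).det ^ 2 * discr K := by
  have h := Algebra.discr_of_matrix_vecMul X.ibQ (X.ibQ.toMatrix X.bas)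
  rw [Basis.toMatrix_map_vecMul, X.discr_bas, X.discr_ibQ, X.toMat,
    ← RingHom.mapMatrix_apply, ← RingHom.map_det] at h
  rw [eq_intCast] at h
  exact_mod_cast h

lemma det_unit : (X.ib.toMatrix X.v).det.natAbs = 1 := by
  have h := congrArg Int.natAbs X.d_eq
  rw [X.hc, Int.natAbs_mul, Int.natAbs_pow] at h
  set m := (X.ib.toMatrix X.v).det.natAbs with hm
  have h1 : m ∣ p := ⟨m * (discr K).natAbs, by rw [h]; ring⟩
  rcases (Nat.dvd_prime hp.out).mp h1 with h2 | h2
  · exact h2
  · exfalso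
    rw [h2] at h
    have h3 : p * (p * (discr K).natAbs) = p * 1 := by
      rw [mul_one]; linarith [h, (by ring : p * (p * (discr K).natAbs) = p ^ 2 * (discr K).natAbs)]
    have h4 := Nat.eq_of_mul_eq_mul_left hp.out.pos h3
    have h5 : p ∣ 1 := ⟨_, h4.symm⟩
    have := Nat.le_of_dvd one_pos h5
    have := hp.out.two_le
    omega

theorem discr_eq : discr K = 1 - 4 * X.c := by
  have h := X.d_eq
  have h1 : (X.ib.toMatrix X.v).det ^ 2 = 1 := by
    rw [← Int.natAbs_sq, X.det_unit]; norm_num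
  rw [h1, one_mul] at h
  exact h.symm

include X in
theorem discr_abs : |discr K| = p := by
  rw [X.discr_eq, X.d_abs]

lemma v_basis : LinearIndependent ℤ X.v ∧ Submodule.span ℤ (Set.range X.v) = ⊤ := by
  rw [Basis.is_basis_iff_det X.ib, Basis.det_apply, Int.isUnit_iff_natAbs_eq]
  exact X.det_unit

/-- The `ℤ`-basis `1, ω` of the ring of integers. -/
noncomputable def B : Basis (Fin 2) ℤ (𝓞 K) :=
  Basis.mk X.v_basis.1 X.v_basis.2.ge

lemma B_zero : X.B 0 = 1 := by simp [B, v]

lemma B_one : X.B 1 = X.omI := by simp [B, v]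

lemma exists_repr (x : 𝓞 K) : ∃ a b : ℤ, x = (a : 𝓞 K) + (b : 𝓞 K) * X.omI := by
  refine ⟨X.B.repr x 0, X.B.repr x 1, ?_⟩
  have h := X.B.sum_repr x
  rw [Fin.sum_univ_two, X.B_zero, X.B_one, zsmul_eq_mul, zsmul_eq_mul, mul_one] at h
  exact h.symm

lemma repr_unique {a b a' b' : ℤ}
    (h : (a : 𝓞 K) + (b : 𝓞 K) * X.omI = (a' : 𝓞 K) + (b' : 𝓞 K) * X.omI) :
    a = a' ∧ b = b' := by
  have h1 : ∀ a b : ℤ, (a : 𝓞 K) + (b : 𝓞 K) * X.omI = a • X.B 0 + b • X.B 1 := by
    intro a b
    rw [X.B_zero, X.B_one, zsmul_eq_mul, zsmul_eq_mul, mul_one]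
  rw [h1, h1] at h
  have h2 := congrArg (fun x => X.B.repr x 0) h
  have h3 := congrArg (fun x => X.B.repr x 1) h
  simp only [map_add, map_smul, Basis.repr_self, Finsupp.add_apply, Finsupp.smul_apply] at h2 h3
  simp at h2 h3
  exact ⟨h2, h3⟩

end QF

end NF

end MP0e3347
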