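import Pool.Agent.Lib.MP_0e3347_nt.NF1

open Module NumberField

namespace MP0e3347

variable {p : ℕ} [hp : Fact p.Prime] {K : Type*} [Field K] [NumberField K]

namespace QF

variable (X : QF p K)

section Hom

variable {q : ℕ} [hq : Fact q.Prime]

/-- the linear map `a + bω ↦ a + bx` -/
noncomputable def lin (x : ZMod q) : 𝓞 K →ₗ[ℤ] ZMod q := X.B.constr ℤ ![1, x]

lemma lin_apply (x : ZMod q) (a b : ℤ) :
    X.lin x ((a : 𝓞 K) + (b : 𝓞 K) * X.omI) = (a : ZMod q) + (b : ZMod q) * x := by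
  have h1 : (a : 𝓞 K) + (b : 𝓞 K) * X.omI = a • X.B 0 + b • X.B 1 := by
    rw [X.B_zero, X.B_one, zsmul_eq_mul, zsmul_eq_mul, mul_one]
  rw [h1, map_add, map_smul, map_smul, lin, Basis.constr_basis, Basis.constr_basis]
  simp

/-- the ring hom `a + bω ↦ a + bx` for a root `x` -/
noncomputable def hom (x : ZMod q) (hx : x * x - x + (X.c : ZMod q) = 0) : 𝓞 K →+* ZMod q where
  toFun := X.lin x
  map_one' := by
    have := X.lin_apply x 1 0
    simpa using this
  map_zero' := map_zero _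
  map_add' := map_add _
  map_mul' := by
    intro y z
    obtain ⟨a, b, rfl⟩ := X.exists_repr y
    obtain ⟨a', b', rfl⟩ := X.exists_repr z
    have h1 : ((a : 𝓞 K) + (b : 𝓞 K) * X.omI) * ((a' : 𝓞 K) + (b' : 𝓞 K) * X.omI) =
        ((a * a' - b * b' * X.c : ℤ) : 𝓞 K) + ((a * b' + a' * b + b * b' : ℤ) : 𝓞 K) * X.omI := by
      push_cast
      linear_combination ((b : 𝓞 K) * b') * X.omI_sq
    rw [h1, X.lin_apply, X.lin_apply, X.lin_apply]
    push_cast
    linear_combination (-(b : ZMod q) * b') * hx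

lemma hom_apply (x : ZMod q) (hx : x * x - x + (X.c : ZMod q) = 0) (a b : ℤ) :
    X.hom x hx ((a : 𝓞 K) + (b : 𝓞 K) * X.omI) = (a : ZMod q) + (b : ZMod q) * x :=
  X.lin_apply x a b

lemma hom_om (x : ZMod q) (hx : x * x - x + (X.c : ZMod q) = 0) :
    X.hom x hx X.omI = x := by
  have := X.hom_apply x hx 0 1
  simpa using this

lemma absNorm_ker (f : 𝓞 K →+* ZMod q) : Ideal.absNorm (RingHom.ker f) = q := by
  have hf : Function.Surjective f := ZMod.ringHom_surjective f
  rw [Ideal.absNorm_apply, Submodule.cardQuot_apply]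
  rw [Nat.card_congr (RingHom.quotientKerEquivOfSurjective hf).toEquiv, Nat.card_zmod]

lemma exists_hom {I : Ideal (𝓞 K)} (hI : Ideal.absNorm I = q) :
    ∃ f : 𝓞 K →+* ZMod q, RingHom.ker f = I := by
  have hcard : Nat.card (𝓞 K ⧸ I) = q := by
    rw [← hI]; rfl
  have hfin : Finite (𝓞 K ⧸ I) := Nat.finite_of_card_ne_zero (by rw [hcard]; exact hq.out.ne_zero)
  let _ : Fintype (𝓞 K ⧸ I) := Fintype.ofFinite _
  rw [Nat.card_eq_fintype_card] at hcard
  let g := (ZMod.ringEquivOfPrime (𝓞 K ⧸ I) hq.out hcard).symm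
  refine ⟨(g : (𝓞 K ⧸ I) →+* ZMod q).comp (Ideal.Quotient.mk I), ?_⟩
  ext y
  rw [RingHom.mem_ker, RingHom.comp_apply]
  rw [show ((g : (𝓞 K ⧸ I) →+* ZMod q) (Ideal.Quotient.mk I y)) = g (Ideal.Quotient.mk I y) from rfl]
  rw [EmbeddingLike.map_eq_zero_iff, Ideal.Quotient.eq_zero_iff_mem]

lemma hom_root (f : 𝓞 K →+* ZMod q) :
    f X.omI * f X.omI - f X.omI + (X.c : ZMod q) = 0 := by
  have h := congrArg f X.omI_sq
  rw [map_mul, map_sub, map_intCast] at h
  linear_combination h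

lemma hom_eq (f : 𝓞 K →+* ZMod q) : X.hom (f X.omI) (X.hom_root f) = f := by
  ext y
  obtain ⟨a, b, rfl⟩ := X.exists_repr y
  rw [X.hom_apply, map_add, map_mul, map_intCast, map_intCast]

/-- ideals of norm `q` correspond to roots mod `q` -/
lemma card_norm_prime :
    Nat.card {I : Ideal (𝓞 K) // Ideal.absNorm I = q} =
      Nat.card {x : ZMod q // x * x - x + (X.c : ZMod q) = 0} := by
  symm
  refine Nat.card_congr (Equiv.ofBijective
    (fun x => ⟨RingHom.ker (X.hom x.1 x.2), absNorm_ker _⟩) ⟨?_, ?_⟩)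
  · rintro ⟨x, hx⟩ ⟨y, hy⟩ h
    have h1 : RingHom.ker (X.hom x hx) = RingHom.ker (X.hom y hy) := congrArg Subtype.val h
    obtain ⟨m, hm⟩ := ZMod.intCast_surjective x
    have h2 : X.omI - (m : 𝓞 K) ∈ RingHom.ker (X.hom x hx) := by
      rw [RingHom.mem_ker, map_sub, X.hom_om, map_intCast, hm, sub_self]
    rw [h1, RingHom.mem_ker, map_sub, X.hom_om, map_intCast, hm] at h2
    exact Subtype.ext (sub_eq_zero.mp h2).symm
  · rintro ⟨I, hI⟩
    obtain ⟨f, hf⟩ := exists_hom hI
    refine ⟨⟨f X.omI, X.hom_root f⟩, ?_⟩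
    apply Subtype.ext
    simp only [X.hom_eq, hf]

end Hom

lemma d_sign : (1 - 4 * X.c) = ZMod.χ₄ p * p := by
  have h := X.hc
  have hp2 := hp.out.two_le
  rcases Int.natAbs_eq (1 - 4 * X.c) with h1 | h1
  · rw [h] at h1
    have : p % 4 = 1 := by omega
    rw [ZMod.χ₄_nat_one_mod_four this, one_mul, h1]
  · rw [h] at h1
    have : p % 4 = 3 := by omega
    rw [ZMod.χ₄_nat_three_mod_four this, h1]; ring

include X in
lemma p_ne_two : p ≠ 2 := by
  have h := X.hc
  omega

omit hp in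
lemma card_two (c : ZMod 2) : (Nat.card {x : ZMod 2 // x * x - x + c = 0} : ℤ) =
    if c = 0 then 2 else 0 := by
  rw [Nat.card_eq_fintype_card]
  revert c
  decide

lemma card_roots {q : ℕ} [hq : Fact q.Prime] :
    (Nat.card {x : ZMod q // x * x - x + (X.c : ZMod q) = 0} : ℤ) =
      1 + quadraticChar (ZMod p) (q : ZMod p) := by
  have hp2 : p ≠ 2 := X.p_ne_two
  have hr : ringChar (ZMod p) ≠ 2 := by rwa [ZMod.ringChar_zmod_n]
  by_cases hq2 : q = 2
  · subst hq2
    have h1 : quadraticChar (ZMod p) ((2 : ℕ) : ZMod p) = ZMod.χ₈ (p : ZMod 8) := by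
      have := quadraticChar_two hr
      rw [ZMod.card] at this
      exact_mod_cast this
    have h2 := card_two (X.c : ZMod 2)
    rw [h1]
    refine h2.trans ?_
    have h20 : ((2 : ℤ) : ZMod 2) = 0 := by
      rw [ZMod.intCast_zmod_eq_zero_iff_dvd]; norm_num
    have hd := X.d_sign
    rcases Int.even_or_odd' X.c with ⟨k, hk | hk⟩
    · have hc : (X.c : ZMod 2) = 0 := by
        rw [hk, Int.cast_mul, h20, zero_mul]
      rw [if_pos hc]
      have h3 : p % 8 = 1 ∨ p % 8 = 7 := by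
        rcases (show p % 4 = 1 ∨ p % 4 = 3 by
          have := hp.out.eq_two_or_odd; omega) with h4 | h4
        · rw [ZMod.χ₄_nat_one_mod_four h4] at hd; omega
        · rw [ZMod.χ₄_nat_three_mod_four h4] at hd; omega
      rw [ZMod.χ₈_nat_eq_if_mod_eight]
      rcases h3 with h3 | h3 <;> rw [h3] <;> simp <;> omega
    · have hc : (X.c : ZMod 2) = 1 := by
        rw [hk, Int.cast_add, Int.cast_mul, h20, zero_mul, zero_add, Int.cast_one]
      rw [hc, if_neg one_ne_zero]
      have h3 : p % 8 = 3 ∨ p % 8 = 5 := by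
        rcases (show p % 4 = 1 ∨ p % 4 = 3 by
          have := hp.out.eq_two_or_odd; omega) with h4 | h4
        · rw [ZMod.χ₄_nat_one_mod_four h4] at hd; omega
        · rw [ZMod.χ₄_nat_three_mod_four h4] at hd; omega
      rw [ZMod.χ₈_nat_eq_if_mod_eight]
      rcases h3 with h3 | h3 <;> rw [h3] <;> simp <;> omega
  · have hrq : ringChar (ZMod q) ≠ 2 := by rwa [ZMod.ringChar_zmod_n]
    have h2q : (2 : ZMod q) ≠ 0 := by
      intro h
      have : ((2 : ℕ) : ZMod q) = 0 := by exact_mod_cast h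
      rw [ZMod.natCast_eq_zero_iff] at this
      exact hq2 ((Nat.prime_dvd_prime_iff_eq hq.out Nat.prime_two).mp this)
    have h1 := quadraticChar_card_sqrts hrq (((1 - 4 * X.c : ℤ)) : ZMod q)
    have h2 : Nat.card {x : ZMod q // x * x - x + (X.c : ZMod q) = 0} =
        Finset.card {x : ZMod q | x ^ 2 = (((1 - 4 * X.c : ℤ)) : ZMod q)}.toFinset := by
      rw [← Set.ncard_eq_toFinset_card', ← Nat.card_coe_set_eq]
      refine Nat.card_congr (Equiv.ofBijective (fun x => ⟨2 * x.1 - 1, ?_⟩) ⟨?_, ?_⟩)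
      · have := x.2
        simp only [Set.mem_ofPred_eq]
        push_cast
        linear_combination 4 * this
      · rintro ⟨x, hx⟩ ⟨y, hy⟩ h
        have h3 : 2 * x - 1 = 2 * y - 1 := congrArg Subtype.val h
        apply Subtype.ext
        refine mul_left_cancel₀ h2q ?_
        linear_combination h3
      · rintro ⟨y, hy⟩
        simp only [Set.mem_ofPred_eq] at hy
        push_cast at hy
        have h22 : (2 : ZMod q)⁻¹ * 2 = 1 := inv_mul_cancel₀ h2q
        refine ⟨⟨(y + 1) * 2⁻¹, ?_⟩, ?_⟩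
        · refine mul_left_cancel₀ (mul_ne_zero h2q h2q) ?_
          linear_combination hy + ((y + 1) ^ 2 * ((2 : ZMod q)⁻¹ * 2 + 1) - 2 * (y + 1)) * h22
        · apply Subtype.ext
          simp only
          linear_combination (y + 1) * h22
    rw [h2, h1, add_comm]
    congr 1
    rw [X.d_sign]
    push_cast
    by_cases hpq : p = q
    · subst hpq
      simp
    · have := quadraticChar_odd_prime hr (p := q) hq2 (by rwa [ZMod.ringChar_zmod_n])
      rw [this, ZMod.card]

include X in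
theorem card_norm_prime' {q : ℕ} (hq : q.Prime) :
    (Nat.card {I : Ideal (𝓞 K) // Ideal.absNorm I = q} : ℤ) =
      1 + quadraticChar (ZMod p) (q : ZMod p) := by
  have : Fact q.Prime := ⟨hq⟩
  rw [X.card_norm_prime, X.card_roots]

end QF

end MP0e3347
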