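import Pool.Agent.Lib.MP_0e3347_nt.NF2

open Module NumberField

namespace MP0e3347

section Mult

variable {K : Type*} [Field K] [NumberField K]

/-- number of ideals of norm `n` -/
noncomputable def aI (K : Type*) [Field K] [NumberField K] (n : ℕ) : ℕ :=
  Nat.card {I : Ideal (𝓞 K) // Ideal.absNorm I = n}

instance finite_norm (n : ℕ) : Finite {I : Ideal (𝓞 K) // Ideal.absNorm I = n} :=
  (Ideal.finite_setOfPred_absNorm_eq n).to_subtype

lemma sup_top_of_coprime {m n : ℕ} (h : m.Coprime n) {J L : Ideal (𝓞 K)}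
    (hJ : (m : 𝓞 K) ∈ J) (hL : (n : 𝓞 K) ∈ L) : J ⊔ L = ⊤ := by
  rw [Ideal.eq_top_iff_one]
  obtain ⟨a, b, hab⟩ := (Nat.isCoprime_iff_coprime.mpr h)
  have h1 : (1 : 𝓞 K) = (a : 𝓞 K) * (m : 𝓞 K) + (b : 𝓞 K) * (n : 𝓞 K) := by
    have := congrArg (Int.cast : ℤ → 𝓞 K) hab
    push_cast at this
    exact this.symm
  rw [h1]
  exact Submodule.add_mem_sup (Ideal.mul_mem_left _ _ hJ) (Ideal.mul_mem_left _ _ hL)

lemma mul_sup_span {m n : ℕ} (h : m.Coprime n) {J L : Ideal (𝓞 K)}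
    (hJ : Ideal.absNorm J = m) (hL : Ideal.absNorm L = n) :
    J * L ⊔ Ideal.span {(m : 𝓞 K)} = J := by
  have hmJ : (m : 𝓞 K) ∈ J := by rw [← hJ]; exact Ideal.absNorm_mem J
  have hnL : (n : 𝓞 K) ∈ L := by rw [← hL]; exact Ideal.absNorm_mem L
  apply le_antisymm
  · refine sup_le Ideal.mul_le_left ?_
    rw [Ideal.span_singleton_le_iff_mem]; exact hmJ
  · have h1 : L ⊔ Ideal.span {(m : 𝓞 K)} = ⊤ :=
      sup_top_of_coprime h.symm hnL (Ideal.mem_span_singleton_self _)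
    calc J = J * (L ⊔ Ideal.span {(m : 𝓞 K)}) := by rw [h1, Ideal.mul_top]
      _ = J * L ⊔ J * Ideal.span {(m : 𝓞 K)} := Ideal.mul_sup _ _ _
      _ ≤ J * L ⊔ Ideal.span {(m : 𝓞 K)} := sup_le_sup_left Ideal.mul_le_right _

lemma split_ideal {m n : ℕ} (h : m.Coprime n) (hm : m ≠ 0) (hn : n ≠ 0) {I : Ideal (𝓞 K)}
    (hI : Ideal.absNorm I = m * n) :
    (I ⊔ Ideal.span {(m : 𝓞 K)}) * (I ⊔ Ideal.span {(n : 𝓞 K)}) = I ∧
    Ideal.absNorm (I ⊔ Ideal.span {(m : 𝓞 K)}) = m ∧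
    Ideal.absNorm (I ⊔ Ideal.span {(n : 𝓞 K)}) = n := by
  set J := I ⊔ Ideal.span {(m : 𝓞 K)} with hJ
  set L := I ⊔ Ideal.span {(n : 𝓞 K)} with hL
  have hIJ : I ≤ J := le_sup_left
  have hIL : I ≤ L := le_sup_left
  have hmJ : Ideal.span {(m : 𝓞 K)} ≤ J := le_sup_right
  have hnL : Ideal.span {(n : 𝓞 K)} ≤ L := le_sup_right
  have hmn : ((m : 𝓞 K) * (n : 𝓞 K)) ∈ I := by
    have := Ideal.absNorm_mem I
    rw [hI] at this
    exact_mod_cast this
  have h1 : J * L = I := by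
    apply le_antisymm
    · rw [hJ, hL, Ideal.sup_mul, Ideal.mul_sup, Ideal.mul_sup]
      refine sup_le (sup_le Ideal.mul_le_left Ideal.mul_le_left) (sup_le Ideal.mul_le_right ?_)
      rw [Ideal.span_singleton_mul_span_singleton, Ideal.span_singleton_le_iff_mem]
      exact hmn
    · have h2 : Ideal.span {(m : 𝓞 K)} ⊔ Ideal.span {(n : 𝓞 K)} = ⊤ :=
        sup_top_of_coprime h (Ideal.mem_span_singleton_self _) (Ideal.mem_span_singleton_self _)
      calc I = I * (Ideal.span {(m : 𝓞 K)} ⊔ Ideal.span {(n : 𝓞 K)}) := by rw [h2, Ideal.mul_top]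
        _ = I * Ideal.span {(m : 𝓞 K)} ⊔ I * Ideal.span {(n : 𝓞 K)} := Ideal.mul_sup _ _ _
        _ ≤ J * L := by
          refine sup_le ?_ ?_
          · rw [mul_comm I]
            exact Ideal.mul_mono hmJ hIL
          · exact Ideal.mul_mono hIJ hnL
  have hN : Ideal.absNorm J * Ideal.absNorm L = m * n := by
    rw [← map_mul, h1, hI]
  have hJm : Ideal.absNorm J ∣ m ^ Module.finrank ℤ (𝓞 K) := by
    rw [← Ideal.absNorm_span_natCast]
    exact Ideal.absNorm_dvd_absNorm_of_le hmJ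
  have hLn : Ideal.absNorm L ∣ n ^ Module.finrank ℤ (𝓞 K) := by
    rw [← Ideal.absNorm_span_natCast]
    exact Ideal.absNorm_dvd_absNorm_of_le hnL
  have c1 : (Ideal.absNorm J).Coprime n :=
    Nat.Coprime.coprime_dvd_left hJm (Nat.Coprime.pow_left _ h)
  have c2 : (Ideal.absNorm L).Coprime m :=
    Nat.Coprime.coprime_dvd_left hLn (Nat.Coprime.pow_left _ h.symm)
  have d1 : Ideal.absNorm J ∣ m :=
    c1.dvd_of_dvd_mul_right (Dvd.intro _ hN)
  have d2 : Ideal.absNorm L ∣ n :=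
    c2.dvd_of_dvd_mul_left (Dvd.intro_left _ hN)
  have p1 := Nat.le_of_dvd (Nat.pos_of_ne_zero hm) d1
  have p2 := Nat.le_of_dvd (Nat.pos_of_ne_zero hn) d2
  have hmpos := Nat.pos_of_ne_zero hm
  have hnpos := Nat.pos_of_ne_zero hn
  refine ⟨h1, ?_, ?_⟩
  · by_contra hne
    have : Ideal.absNorm J < m := lt_of_le_of_ne p1 hne
    have : Ideal.absNorm J * Ideal.absNorm L < m * n := by nlinarith
    omega
  · by_contra hne
    have : Ideal.absNorm L < n := lt_of_le_of_ne p2 hne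
    have : Ideal.absNorm J * Ideal.absNorm L < m * n := by nlinarith
    omega

theorem aI_mul {m n : ℕ} (h : m.Coprime n) (hm : m ≠ 0) (hn : n ≠ 0) :
    aI K (m * n) = aI K m * aI K n := by
  unfold aI
  rw [← Nat.card_prod]
  symm
  refine Nat.card_congr (Equiv.ofBijective
    (fun x => ⟨x.1.1 * x.2.1, by rw [map_mul, x.1.2, x.2.2]⟩) ⟨?_, ?_⟩)
  · rintro ⟨⟨J, hJ⟩, ⟨L, hL⟩⟩ ⟨⟨J', hJ'⟩, ⟨L', hL'⟩⟩ heq
    have h1 : J * L = J' * L' := congrArg Subtype.val heq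
    have h2 : J = J' := by
      rw [← mul_sup_span h hJ hL, h1, mul_sup_span h hJ' hL']
    have h3 : L = L' := by
      rw [← mul_sup_span h.symm hL hJ, mul_comm L, h1, mul_comm, mul_sup_span h.symm hL' hJ']
    subst h2 h3
    rfl
  · rintro ⟨I, hI⟩
    obtain ⟨h1, h2, h3⟩ := split_ideal h hm hn hI
    exact ⟨⟨⟨_, h2⟩, ⟨_, h3⟩⟩, Subtype.ext h1⟩

lemma aI_one : aI K 1 = 1 := by
  unfold aI
  rw [Nat.card_eq_one_iff_unique]
  refine ⟨⟨?_⟩, ⟨⟨⊤, Ideal.absNorm_top⟩⟩⟩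
  rintro ⟨I, hI⟩ ⟨J, hJ⟩
  have h1 := Ideal.absNorm_eq_one_iff.mp hI
  have h2 := Ideal.absNorm_eq_one_iff.mp hJ
  exact Subtype.ext (h1.trans h2.symm)

end Mult

section PP

variable {K : Type*} [Field K] [NumberField K]

lemma exists_prime_dvd (hK : finrank ℚ K = 2) {q : ℕ} (hq : q.Prime) {k : ℕ} {I : Ideal (𝓞 K)}
    (hI : Ideal.absNorm I = q ^ (k + 1)) :
    ∃ P : Ideal (𝓞 K), P ∣ I ∧ P ∣ Ideal.span {(q : 𝓞 K)} ∧
      (Ideal.absNorm P = q ∨ P = Ideal.span {(q : 𝓞 K)}) := by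
  have hne : I ≠ ⊤ := by
    intro h
    rw [h, Ideal.absNorm_top] at hI
    have : 1 < q ^ (k + 1) := Nat.one_lt_pow (Nat.succ_ne_zero k) hq.one_lt
    omega
  obtain ⟨P, hP, hIP⟩ := Ideal.exists_le_maximal I hne
  have hPp : P.IsPrime := hP.isPrime
  have hqP : (q : 𝓞 K) ∈ P := by
    have h1 : ((q : 𝓞 K)) ^ (k + 1) ∈ P := by
      have := hIP (Ideal.absNorm_mem I)
      rw [hI] at this
      exact_mod_cast this
    exact hPp.mem_of_pow_mem _ h1
  have hdvd : P ∣ Ideal.span {(q : 𝓞 K)} := by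
    rw [Ideal.dvd_iff_le, Ideal.span_singleton_le_iff_mem]; exact hqP
  refine ⟨P, Ideal.dvd_iff_le.mpr hIP, hdvd, ?_⟩
  have hrk : Module.finrank ℤ (𝓞 K) = 2 := by rw [RingOfIntegers.rank, hK]
  have hnq : Ideal.absNorm (Ideal.span {(q : 𝓞 K)}) = q ^ 2 := by
    rw [Ideal.absNorm_span_natCast, hrk]
  have h2 : Ideal.absNorm P ∣ q ^ 2 := by
    rw [← hnq]; exact map_dvd Ideal.absNorm hdvd
  have h3 : Ideal.absNorm P ≠ 1 := by
    rw [Ne, Ideal.absNorm_eq_one_iff]; exact hP.ne_top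
  obtain ⟨j, hj, hPj⟩ := (Nat.dvd_prime_pow hq).mp h2
  have hj' : j = 0 ∨ j = 1 ∨ j = 2 := by omega
  rcases hj' with rfl | rfl | rfl
  · rw [pow_zero] at hPj; exact absurd hPj h3
  · left; rw [hPj, pow_one]
  · right
    obtain ⟨C, hC⟩ := hdvd
    have h4 : Ideal.absNorm C = 1 := by
      have h5 := hnq
      rw [hC, map_mul, hPj] at h5
      have : 0 < q ^ 2 := pow_pos hq.pos 2
      exact Nat.eq_of_mul_eq_mul_left this (by rw [h5, mul_one])
    rw [Ideal.absNorm_eq_one_iff] at h4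
    rw [hC, h4, Ideal.mul_top]

lemma exists_prime_dvd' (hK : finrank ℚ K = 2) {q : ℕ} (hq : q.Prime) {k : ℕ} {I : Ideal (𝓞 K)}
    (hI : Ideal.absNorm I = q ^ (k + 1)) (hex : ∃ P0 : Ideal (𝓞 K), Ideal.absNorm P0 = q) :
    ∃ P : Ideal (𝓞 K), P ∣ I ∧ Ideal.absNorm P = q := by
  obtain ⟨P, h1, h2, h3⟩ := exists_prime_dvd hK hq hI
  rcases h3 with h3 | h3
  · exact ⟨P, h1, h3⟩
  · obtain ⟨P0, hP0⟩ := hex
    refine ⟨P0, ?_, hP0⟩
    refine dvd_trans ?_ h1
    rw [h3, Ideal.dvd_iff_le, Ideal.span_singleton_le_iff_mem, ← hP0]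
    exact Ideal.absNorm_mem P0

lemma absNorm_quot {q : ℕ} (hq : q.Prime) {k j : ℕ} {P J : Ideal (𝓞 K)}
    (hP : Ideal.absNorm P = q ^ j) (h : Ideal.absNorm (P * J) = q ^ (k + j)) :
    Ideal.absNorm J = q ^ k := by
  rw [map_mul, hP] at h
  have : 0 < q ^ j := pow_pos hq.pos j
  exact Nat.eq_of_mul_eq_mul_left this (by rw [h]; ring)

lemma ne_zero_of_absNorm {n : ℕ} (hn : n ≠ 0) {P : Ideal (𝓞 K)} (hP : Ideal.absNorm P = n) :
    P ≠ 0 := by
  rintro rfl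
  rw [map_zero] at hP
  exact hn hP.symm

/-- inert case -/
lemma aI_inert (hK : finrank ℚ K = 2) {q : ℕ} (hq : q.Prime) (h0 : aI K q = 0) (k : ℕ) :
    aI K (q ^ (k + 2)) = aI K (q ^ k) ∧ aI K (q ^ 1) = 0 := by
  have hempty : ∀ P : Ideal (𝓞 K), Ideal.absNorm P ≠ q := by
    intro P hP
    have h1 := (Finite.card_eq_zero_iff (α := {I : Ideal (𝓞 K) // Ideal.absNorm I = q})).mp h0
    exact h1.false ⟨P, hP⟩
  have hrk : Module.finrank ℤ (𝓞 K) = 2 := by rw [RingOfIntegers.rank, hK]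
  have hnq : Ideal.absNorm (Ideal.span {(q : 𝓞 K)}) = q ^ 2 := by
    rw [Ideal.absNorm_span_natCast, hrk]
  refine ⟨?_, by rw [pow_one]; exact h0⟩
  unfold aI
  symm
  refine Nat.card_congr (Equiv.ofBijective
    (fun x => ⟨Ideal.span {(q : 𝓞 K)} * x.1, by rw [map_mul, x.2, hnq]; ring⟩) ⟨?_, ?_⟩)
  · rintro ⟨J, hJ⟩ ⟨J', hJ'⟩ heq
    have h1 : Ideal.span {(q : 𝓞 K)} * J = Ideal.span {(q : 𝓞 K)} * J' := congrArg Subtype.val heq
    exact Subtype.ext (mul_left_cancel₀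
      (ne_zero_of_absNorm (pow_ne_zero 2 hq.ne_zero) hnq) h1)
  · rintro ⟨I, hI⟩
    obtain ⟨P, h1, -, h3⟩ := exists_prime_dvd hK hq (k := k + 1) hI
    rcases h3 with h3 | h3
    · exact absurd h3 (hempty P)
    · obtain ⟨J, hJ⟩ := h1
      rw [h3] at hJ
      refine ⟨⟨J, ?_⟩, Subtype.ext hJ.symm⟩
      rw [hJ] at hI
      exact absNorm_quot hq hnq hI

/-- ramified case -/
lemma aI_ram (hK : finrank ℚ K = 2) {q : ℕ} (hq : q.Prime) (h0 : aI K q = 1) (k : ℕ) :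
    aI K (q ^ (k + 1)) = aI K (q ^ k) := by
  obtain ⟨hsub, ⟨⟨P, hP⟩⟩⟩ := Nat.card_eq_one_iff_unique.mp h0
  have huniq : ∀ P' : Ideal (𝓞 K), Ideal.absNorm P' = q → P' = P := by
    intro P' hP'
    exact congrArg Subtype.val (hsub.elim ⟨P', hP'⟩ ⟨P, hP⟩)
  unfold aI
  symm
  refine Nat.card_congr (Equiv.ofBijective
    (fun x => ⟨P * x.1, by rw [map_mul, x.2, hP]; ring⟩) ⟨?_, ?_⟩)
  · rintro ⟨J, hJ⟩ ⟨J', hJ'⟩ heq
    have h1 : P * J = P * J' := congrArg Subtype.val heq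
    exact Subtype.ext (mul_left_cancel₀ (ne_zero_of_absNorm hq.ne_zero hP) h1)
  · rintro ⟨I, hI⟩
    obtain ⟨P', h1, h3⟩ := exists_prime_dvd' hK hq hI ⟨P, hP⟩
    rw [huniq P' h3] at h1
    obtain ⟨J, hJ⟩ := h1
    refine ⟨⟨J, ?_⟩, Subtype.ext hJ.symm⟩
    rw [hJ] at hI
    exact absNorm_quot (j := 1) hq (by rw [hP, pow_one]) hI

/-- split case -/
lemma aI_split (hK : finrank ℚ K = 2) {q : ℕ} (hq : q.Prime) (h0 : aI K q = 2) (k : ℕ) :
    aI K (q ^ (k + 1)) = aI K (q ^ k) + 1 := by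
  obtain ⟨⟨P, hP⟩, ⟨P', hP'⟩, hne, huniv⟩ := Nat.card_eq_two_iff.mp h0
  have hne' : P ≠ P' := fun h => hne (Subtype.ext h)
  have huniq : ∀ R : Ideal (𝓞 K), Ideal.absNorm R = q → R = P ∨ R = P' := by
    intro R hR
    have : (⟨R, hR⟩ : {I : Ideal (𝓞 K) // Ideal.absNorm I = q}) ∈
        ({⟨P, hP⟩, ⟨P', hP'⟩} : Set {I : Ideal (𝓞 K) // Ideal.absNorm I = q}) := by
      rw [huniv]; trivial
    rcases this with h | h
    · left; exact congrArg Subtype.val h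
    · right; exact congrArg Subtype.val h
  have hP0 : P ≠ 0 := ne_zero_of_absNorm hq.ne_zero hP
  have hP0' : P' ≠ 0 := ne_zero_of_absNorm hq.ne_zero hP'
  have hPprime : Prime P := Ideal.prime_of_isPrime hP0
    (Ideal.isPrime_of_irreducible_absNorm (by rw [hP]; exact hq))
  have hPprime' : Prime P' := Ideal.prime_of_isPrime hP0'
    (Ideal.isPrime_of_irreducible_absNorm (by rw [hP']; exact hq))
  have hnd : ∀ j : ℕ, ¬ P ∣ P' ^ j := by
    intro j h
    have h1 : P ∣ P' := hPprime.dvd_of_dvd_pow h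
    have h2 : Associated P P' := hPprime.associated_of_dvd hPprime' h1
    exact hne' (associated_iff_eq.mp h2)
  have hpow : ∀ k : ℕ, ∀ I : Ideal (𝓞 K), Ideal.absNorm I = q ^ k → ¬ P ∣ I → I = P' ^ k := by
    intro k
    induction k with
    | zero =>
      intro I hI _
      rw [pow_zero, Ideal.absNorm_eq_one_iff] at hI
      rw [pow_zero, hI, Ideal.one_eq_top]
    | succ k ih =>
      intro I hI hPI
      obtain ⟨R, h1, h3⟩ := exists_prime_dvd' hK hq hI ⟨P, hP⟩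
      rcases huniq R h3 with h | h
      · rw [h] at h1; exact absurd h1 hPI
      · rw [h] at h1
        obtain ⟨J, hJ⟩ := h1
        have hJn : Ideal.absNorm J = q ^ k := by
          rw [hJ] at hI
          exact absNorm_quot (j := 1) hq (by rw [hP', pow_one]) hI
        have hPJ : ¬ P ∣ J := fun h => hPI (by rw [hJ]; exact Dvd.dvd.mul_left h P')
        rw [hJ, ih J hJn hPJ, pow_succ, mul_comm]
  have hnP' : Ideal.absNorm (P' ^ (k + 1)) = q ^ (k + 1) := by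
    rw [map_pow, hP']
  unfold aI
  rw [← Finite.card_option]
  symm
  refine Nat.card_congr (Equiv.ofBijective (fun x : Option {I : Ideal (𝓞 K) //
      Ideal.absNorm I = q ^ k} => (x.elim ⟨P' ^ (k + 1), hnP'⟩
      (fun J => ⟨P * J.1, by rw [map_mul, J.2, hP]; ring⟩) :
      {I : Ideal (𝓞 K) // Ideal.absNorm I = q ^ (k + 1)})) ⟨?_, ?_⟩)
  · intro x y hxy
    rcases x with _ | ⟨J, hJ⟩ <;> rcases y with _ | ⟨J', hJ'⟩
    · rfl
    · exfalso
      have h1 : P' ^ (k + 1) = P * J' := congrArg Subtype.val hxy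
      exact hnd (k + 1) (Dvd.intro _ h1.symm)
    · exfalso
      have h1 : P * J = P' ^ (k + 1) := congrArg Subtype.val hxy
      exact hnd (k + 1) (Dvd.intro _ h1)
    · have h1 : P * J = P * J' := congrArg Subtype.val hxy
      have h2 := mul_left_cancel₀ hP0 h1
      subst h2
      rfl
  · rintro ⟨I, hI⟩
    by_cases hPI : P ∣ I
    · obtain ⟨J, hJ⟩ := hPI
      have hJn : Ideal.absNorm J = q ^ k := by
        rw [hJ] at hI
        exact absNorm_quot (j := 1) hq (by rw [hP, pow_one]) hI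
      exact ⟨some ⟨J, hJn⟩, Subtype.ext hJ.symm⟩
    · exact ⟨none, Subtype.ext (hpow (k + 1) I hI hPI).symm⟩

end PP

section Final

variable {p : ℕ} [hp : Fact p.Prime] {K : Type*} [Field K] [NumberField K]

theorem QF.aI_pow (X : QF p K) {q : ℕ} (hq : q.Prime) (k : ℕ) :
    (aI K (q ^ k) : ℤ) = ∑ j ∈ Finset.range (k + 1), (quadraticChar (ZMod p) (q : ZMod p)) ^ j := by
  have h1 : (aI K q : ℤ) = 1 + quadraticChar (ZMod p) (q : ZMod p) := X.card_norm_prime' hq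
  have htri : quadraticChar (ZMod p) (q : ZMod p) = 0 ∨ quadraticChar (ZMod p) (q : ZMod p) = 1 ∨
      quadraticChar (ZMod p) (q : ZMod p) = -1 := by
    by_cases h : (q : ZMod p) = 0
    · left; rw [h]; simp
    · right; exact quadraticChar_dichotomy h
  rcases htri with h | h | h
  · rw [h] at h1 ⊢
    have h2 : aI K q = 1 := by omega
    have h3 : ∀ k, aI K (q ^ k) = 1 := by
      intro k
      induction k with
      | zero => rw [pow_zero, aI_one]
      | succ k ih => rw [aI_ram X.hK hq h2, ih]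
    rw [h3, Finset.sum_range_succ']
    simp
  · rw [h] at h1 ⊢
    have h2 : aI K q = 2 := by omega
    have h3 : ∀ k, aI K (q ^ k) = k + 1 := by
      intro k
      induction k with
      | zero => rw [pow_zero, aI_one]
      | succ k ih => rw [aI_split X.hK hq h2, ih]
    rw [h3]
    simp
  · rw [h] at h1 ⊢
    have h2 : aI K q = 0 := by omega
    have h3 : ∀ k, (aI K (q ^ k) : ℤ) = (∑ j ∈ Finset.range (k + 1), (-1 : ℤ) ^ j) ∧
        (aI K (q ^ (k + 1)) : ℤ) = (∑ j ∈ Finset.range (k + 1 + 1), (-1 : ℤ) ^ j) := by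
      intro k
      induction k with
      | zero =>
        rw [pow_zero, aI_one, zero_add, (aI_inert X.hK hq h2 0).2]
        simp [Finset.sum_range_succ]
      | succ k ih =>
        refine ⟨ih.2, ?_⟩
        rw [(aI_inert X.hK hq h2 k).1, ih.1, Finset.sum_range_succ _ (k + 1 + 1),
          Finset.sum_range_succ _ (k + 1)]
        ring
    exact (h3 k).1

end Final

end MP0e3347
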