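import Pool.Agent.Lib.MP_0e3347_nt.NF3
import Pool.Agent.Lib.MP_0e3347_nt.An1

open Module NumberField

namespace MP0e3347

open LSeries ArithmeticFunction DirichletCharacter Filter Topology


variable {p : ℕ} [hp : Fact p.Prime] {K : Type*} [Field K] [NumberField K]

/-- the ideal counting function as an arithmetic function -/
noncomputable def fA (K : Type*) [Field K] [NumberField K] : ArithmeticFunction ℂ :=
  ⟨fun n => if n = 0 then 0 else (aI K n : ℂ), by simp⟩

lemma fA_apply {n : ℕ} (hn : n ≠ 0) : fA K n = (aI K n : ℂ) := by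
  simp [fA, hn]

lemma fA_mult : (fA K).IsMultiplicative := by
  rw [ArithmeticFunction.IsMultiplicative.iff_ne_zero]
  refine ⟨?_, ?_⟩
  · rw [fA_apply one_ne_zero, aI_one, Nat.cast_one]
  · intro m n hm hn hmn
    rw [fA_apply (mul_ne_zero hm hn), fA_apply hm, fA_apply hn, aI_mul hmn hm hn, Nat.cast_mul]

lemma zetaMul_pow {q : ℕ} (hq : q.Prime) (k : ℕ) :
    (chiD p).zetaMul (q ^ k) = ∑ j ∈ Finset.range (k + 1), (chi ℂ (q : ZMod p)) ^ j := by
  rw [zetaMul, coe_zeta_mul_apply, Nat.sum_divisors_prime_pow hq]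
  refine Finset.sum_congr rfl fun j _ => ?_
  rw [← DirichletCharacter.apply_eq_toArithmeticFunction_apply (chiD p)
    (pow_ne_zero j hq.ne_zero), Nat.cast_pow, map_pow, chiD_apply]

theorem QF.fA_eq (X : QF p K) : fA K = (chiD p).zetaMul := by
  rw [ArithmeticFunction.IsMultiplicative.eq_iff_eq_on_prime_powers _ fA_mult _
    (isMultiplicative_zetaMul _)]
  intro q k hq
  rw [zetaMul_pow hq, fA_apply (pow_ne_zero _ hq.ne_zero)]
  have h := congrArg (Int.cast : ℤ → ℂ) (X.aI_pow hq k)
  push_cast at h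
  rw [h]
  rfl

lemma dedekind_eq {s : ℂ} : dedekindZeta K s = LSeries (fA K) s := by
  unfold dedekindZeta
  refine LSeries_congr ?_ s
  intro n hn
  rw [fA_apply hn]
  rfl

theorem QF.dedekind_factor (X : QF p K) {s : ℂ} (hs : 1 < s.re) :
    dedekindZeta K s = riemannZeta s * LFunction (chiD p) s := by
  rw [dedekind_eq, X.fA_eq, zetaMul, ← coe_mul, LSeries_convolution']
  · rw [LFunction_eq_LSeries _ hs]
    congr 1
    · simp_rw [← LSeries_zeta_eq_riemannZeta hs, ← natCoe_apply]
    · exact (LSeries_congr (fun h => ((chiD p).apply_eq_toArithmeticFunction_apply h)) s).symm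
  · exact LSeriesSummable_zeta_iff.mpr hs
  · exact (LSeriesSummable_congr _ fun h ↦
      ((chiD p).apply_eq_toArithmeticFunction_apply h).symm).mpr <|
        ZMod.LSeriesSummable_of_one_lt_re (chiD p) hs

theorem QF.residue_eq (X : QF p K) :
    LFunction (chiD p) 1 = (dedekindZeta_residue K : ℂ) := by
  have hp2 : p ≠ 2 := X.p_ne_two
  have h1 := tendsto_sub_one_mul_dedekindZeta_nhdsGT K
  have hcoe : Tendsto (fun s : ℝ => (s : ℂ)) (𝓝[>] 1) (𝓝[≠] 1) := by
    rw [tendsto_nhdsWithin_iff]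
    refine ⟨(Complex.continuous_ofReal.tendsto' 1 1 (by simp)).mono_left nhdsWithin_le_nhds, ?_⟩
    filter_upwards [self_mem_nhdsWithin] with s hs
    simp only [Set.mem_compl_iff, Set.mem_singleton_iff]
    intro h
    have h2 : s = 1 := by exact_mod_cast h
    rw [h2] at hs
    exact lt_irrefl (1 : ℝ) hs
  have hcoe' : Tendsto (fun s : ℝ => (s : ℂ)) (𝓝[>] 1) (𝓝 1) :=
    hcoe.mono_right nhdsWithin_le_nhds
  have h2 : Tendsto (fun s : ℝ => ((s : ℂ) - 1) * riemannZeta s * LFunction (chiD p) s)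
      (𝓝[>] 1) (𝓝 (1 * LFunction (chiD p) 1)) := by
    refine Tendsto.mul (riemannZeta_residue_one.comp hcoe) ?_
    exact ((differentiable_LFunction (chiD_ne_one hp2)).continuous.tendsto 1).comp hcoe'
  have h3 : Tendsto (fun s : ℝ => ((s : ℂ) - 1) * riemannZeta s * LFunction (chiD p) s)
      (𝓝[>] 1) (𝓝 (dedekindZeta_residue K : ℂ)) := by
    refine h1.congr' ?_
    filter_upwards [self_mem_nhdsWithin] with s hs
    have hs' : 1 < (s : ℂ).re := by simpa using hs
    rw [X.dedekind_factor hs', mul_assoc]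
  have h4 := tendsto_nhds_unique h2 h3
  rw [one_mul] at h4
  exact h4

end MP0e3347
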