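import Pool.Agent.Lib.MP_0e3347_nt.NF4

open Module NumberField NumberField.Units NumberField.InfinitePlace

namespace MP0e3347

variable {p : ℕ} [hp : Fact p.Prime] {K : Type*} [Field K] [NumberField K]

lemma torsionOrder_two (h : ∀ x ∈ torsion K, x = 1 ∨ x = -1) : torsionOrder K = 2 := by
  unfold torsionOrder
  rw [Nat.card_eq_two_iff]
  refine ⟨⟨1, one_mem _⟩, ⟨-1, neg_one_mem_torsion⟩, ?_, ?_⟩
  · intro h1
    have h2 : (1 : (𝓞 K)ˣ) = -1 := congrArg Subtype.val h1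
    have h3 : (1 : 𝓞 K) = -1 := by
      have := congrArg Units.val h2
      simpa using this
    have h4 : (2 : 𝓞 K) = 0 := by linear_combination h3
    exact two_ne_zero h4
  · ext x
    simp only [Set.mem_insert_iff, Set.mem_singleton_iff, Set.mem_univ, iff_true]
    rcases h x.1 x.2 with h1 | h1
    · left; exact Subtype.ext h1
    · right; exact Subtype.ext h1

section Real

/-- value of a unit at a real embedding -/
noncomputable def uv (φ : K →+* ℝ) (u : (𝓞 K)ˣ) : ℝ := φ (algebraMap (𝓞 K) K (u : 𝓞 K))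

lemma uv_one (φ : K →+* ℝ) : uv φ 1 = 1 := by simp [uv]

lemma uv_mul (φ : K →+* ℝ) (u v : (𝓞 K)ˣ) : uv φ (u * v) = uv φ u * uv φ v := by simp [uv]

lemma uv_neg (φ : K →+* ℝ) (u : (𝓞 K)ˣ) : uv φ (-u) = - uv φ u := by
  unfold uv
  rw [Units.val_neg, map_neg, map_neg]

lemma uv_mul_inv (φ : K →+* ℝ) (u : (𝓞 K)ˣ) : uv φ u * uv φ u⁻¹ = 1 := by
  rw [← uv_mul, mul_inv_cancel, uv_one]

lemma uv_ne_zero (φ : K →+* ℝ) (u : (𝓞 K)ˣ) : uv φ u ≠ 0 :=
  left_ne_zero_of_mul_eq_one (uv_mul_inv φ u)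

lemma uv_inv (φ : K →+* ℝ) (u : (𝓞 K)ˣ) : uv φ u⁻¹ = (uv φ u)⁻¹ :=
  eq_inv_of_mul_eq_one_right (uv_mul_inv φ u)

lemma uv_pow (φ : K →+* ℝ) (u : (𝓞 K)ˣ) (n : ℕ) : uv φ (u ^ n) = (uv φ u) ^ n := by
  induction n with
  | zero => simp [uv_one]
  | succ n ih => rw [pow_succ, pow_succ, uv_mul, ih]

lemma uv_zpow (φ : K →+* ℝ) (u : (𝓞 K)ˣ) (n : ℤ) : uv φ (u ^ n) = (uv φ u) ^ n := by
  rcases n with n | n
  · simp [uv_pow]
  · rw [zpow_negSucc, zpow_negSucc, uv_inv, uv_pow]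

lemma uv_injective (φ : K →+* ℝ) {u v : (𝓞 K)ˣ} (h : uv φ u = uv φ v) : u = v := by
  apply Units.ext
  apply RingOfIntegers.ext
  exact φ.injective h

/-- if there is a real embedding then the torsion is `±1` -/
lemma torsion_real (φ : K →+* ℝ) (x : (𝓞 K)ˣ) (hx : x ∈ torsion K) : x = 1 ∨ x = -1 := by
  obtain ⟨n, hn, hxn⟩ := isOfFinOrder_iff_pow_eq_one.mp ((CommGroup.mem_torsion x).mp hx)
  have h1 : (uv φ x) ^ n = 1 := by
    rw [← uv_pow, hxn, uv_one]
  have h3 : |uv φ x| = 1 := by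
    have h4 : |uv φ x| ^ n = 1 := by rw [← abs_pow, h1, abs_one]
    exact (pow_eq_one_iff_of_nonneg (abs_nonneg _) hn.ne').mp h4
  rcases (abs_eq zero_le_one).mp h3 with h5 | h5
  · left
    exact uv_injective φ (by rw [h5, uv_one])
  · right
    exact uv_injective φ (by rw [h5, uv_neg, uv_one])

/-- the place attached to a real embedding -/
noncomputable def plc (φ : K →+* ℝ) : InfinitePlace K :=
  InfinitePlace.mk ((algebraMap ℝ ℂ).comp φ)

lemma plc_apply (φ : K →+* ℝ) (x : K) : plc φ x = |φ x| := by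
  unfold plc
  rw [InfinitePlace.apply]
  simp

lemma plc_isReal (φ : K →+* ℝ) : (plc φ).IsReal := by
  refine ⟨(algebraMap ℝ ℂ).comp φ, ?_, rfl⟩
  rw [ComplexEmbedding.isReal_iff]
  ext x
  simp

lemma nr_real (hK : finrank ℚ K = 2) (φ : K →+* ℝ) :
    nrRealPlaces K = 2 ∧ nrComplexPlaces K = 0 := by
  have h1 := card_add_two_mul_card_eq_rank K
  rw [hK] at h1
  have h2 : nrRealPlaces K ≠ 0 := by
    intro h
    exact ((@Fintype.card_eq_zero_iff _ (_)).1 h).false ⟨plc φ, plc_isReal φ⟩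
  omega

lemma rank_real (hK : finrank ℚ K = 2) (φ : K →+* ℝ) :
    Fintype.card (InfinitePlace K) = 2 := by
  have := nr_real hK φ
  rw [card_eq_nrRealPlaces_add_nrComplexPlaces, this.1, this.2]

/-- A fundamental unit with respect to a real embedding. -/
def IsFund (φ : K →+* ℝ) (u : (𝓞 K)ˣ) : Prop :=
  1 < φ (algebraMap (𝓞 K) K (u : 𝓞 K)) ∧ ∀ v : (𝓞 K)ˣ, ∃ k : ℤ, v = u ^ k ∨ v = - u ^ k

lemma abs_phi_zpow (φ : K →+* ℝ) {u v : (𝓞 K)ˣ} {k : ℤ} (h : v = u ^ k ∨ v = - u ^ k) :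
    Real.log |uv φ v| = k * Real.log |uv φ u| := by
  have h1 : |uv φ v| = |uv φ u| ^ k := by
    rcases h with h | h
    · rw [h, uv_zpow, abs_zpow]
    · rw [h, uv_neg, abs_neg, uv_zpow, abs_zpow]
  rw [h1, Real.log_zpow]

lemma regulator_real (hK : finrank ℚ K = 2) (φ : K →+* ℝ) :
    ∃ u₁ : (𝓞 K)ˣ, regulator K = abs (Real.log |uv φ u₁|) ∧
      ∀ v : (𝓞 K)ˣ, ∃ k : ℤ, v = u₁ ^ k ∨ v = - u₁ ^ k := by
  classical
  have hcard := rank_real hK φ
  have hrank : rank K = 1 := by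
    unfold rank
    rw [hcard]
  -- another place
  obtain ⟨w', hw'⟩ : ∃ w' : InfinitePlace K, plc φ ≠ w' := by
    by_contra hcon
    push Not at hcon
    have : Fintype.card (InfinitePlace K) ≤ 1 :=
      Fintype.card_le_one_iff.mpr fun a b => by rw [← hcon a, ← hcon b]
    omega
  have hc1 : Fintype.card {w : InfinitePlace K // w ≠ w'} = 1 := by
    rw [Fintype.card_subtype_compl, hcard]
    simp
  have e : {w : InfinitePlace K // w ≠ w'} ≃ Fin (rank K) :=
    Fintype.equivOfCardEq (by rw [hc1, Fintype.card_fin, hrank])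
  have hu : Subsingleton {w : InfinitePlace K // w ≠ w'} :=
    Fintype.card_le_one_iff_subsingleton.mp hc1.le
  set w₁ : {w : InfinitePlace K // w ≠ w'} := ⟨plc φ, hw'⟩ with hw₁
  have hreg := regulator_eq_det K w' e
  rw [Matrix.det_eq_elem_of_subsingleton _ w₁] at hreg
  simp only [Matrix.of_apply] at hreg
  have hmult : (mult w₁.val : ℝ) = 1 := by
    rw [mult_isReal ⟨plc φ, plc_isReal φ⟩]
    simp
  rw [hmult, one_mul] at hreg
  refine ⟨fundSystem K (e w₁), ?_, ?_⟩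
  · rw [hreg, hw₁, plc_apply]
    rfl
  · intro v
    obtain ⟨⟨ζ, f⟩, hv, -⟩ := exist_unique_eq_mul_prod K v
    refine ⟨f (e w₁), ?_⟩
    simp only at hv
    have hprod : ∏ i, (fundSystem K i) ^ (f i) = (fundSystem K (e w₁)) ^ (f (e w₁)) := by
      refine Finset.prod_eq_single (e w₁) ?_ ?_
      · intro b _ hb
        exfalso
        apply hb
        have : Subsingleton (Fin (rank K)) := by rw [hrank]; infer_instance
        exact Subsingleton.elim _ _
      · intro h; exact absurd (Finset.mem_univ _) h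
    rw [hprod] at hv
    rcases torsion_real φ ζ.1 ζ.2 with h | h
    · left; rw [hv, h, one_mul]
    · right; rw [hv, h, neg_one_mul]

theorem regulator_fund (hK : finrank ℚ K = 2) (φ : K →+* ℝ) {u : (𝓞 K)ˣ} (hu : IsFund φ u) :
    regulator K = Real.log (uv φ u) := by
  obtain ⟨u₁, hreg, hall⟩ := regulator_real hK φ
  obtain ⟨k, hk⟩ := hu.2 u₁
  obtain ⟨l, hl⟩ := hall u
  have h1 := abs_phi_zpow φ hk
  have h2 := abs_phi_zpow φ hl
  have hu1 : 1 < uv φ u := hu.1
  have hpos : 0 < Real.log |uv φ u| := by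
    apply Real.log_pos
    rw [abs_of_pos (lt_trans one_pos hu1)]
    exact hu1
  rw [h1] at h2
  have h3 : ((l * k : ℤ) : ℝ) = 1 := by
    have h4 : Real.log |uv φ u| ≠ 0 := hpos.ne'
    push_cast
    refine mul_right_cancel₀ h4 ?_
    linear_combination -h2
  have h5 : l * k = 1 := by exact_mod_cast h3
  have h6 : |k| = 1 := by
    have := Int.isUnit_iff.mp (IsUnit.of_mul_eq_one_right l h5)
    rcases this with h | h <;> rw [h] <;> simp
  rw [hreg, h1, abs_mul, abs_of_pos hpos, ← Int.cast_abs, h6, Int.cast_one, one_mul,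
    abs_of_pos (lt_trans one_pos hu1)]

theorem exists_fund (hK : finrank ℚ K = 2) (φ : K →+* ℝ) : ∃ u : (𝓞 K)ˣ, IsFund φ u := by
  obtain ⟨u₁, hreg, hall⟩ := regulator_real hK φ
  have hpos := regulator_pos K
  rw [hreg] at hpos
  have hne : Real.log |uv φ u₁| ≠ 0 := by
    intro h; rw [h, abs_zero] at hpos; exact lt_irrefl _ hpos
  have h0 : uv φ u₁ ≠ 0 := uv_ne_zero φ u₁
  have h1 : |uv φ u₁| ≠ 1 := by
    intro h; rw [h, Real.log_one] at hne; exact hne rfl
  -- replace u₁ by ±u₁^{±1}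
  have step1 : ∃ u₂ : (𝓞 K)ˣ, 0 < uv φ u₂ ∧ |uv φ u₂| ≠ 1 ∧
      ∀ v : (𝓞 K)ˣ, ∃ k : ℤ, v = u₂ ^ k ∨ v = - u₂ ^ k := by
    rcases lt_or_gt_of_ne h0 with h3 | h3
    · refine ⟨-u₁, ?_, ?_, ?_⟩
      · rw [uv_neg]; linarith
      · rw [uv_neg, abs_neg]; exact h1
      · intro v
        obtain ⟨k, hk⟩ := hall v
        refine ⟨k, ?_⟩
        rcases Int.even_or_odd k with he | ho
        · rw [he.neg_zpow]; exact hk
        · rw [ho.neg_zpow, neg_neg]; exact hk.symm
    · exact ⟨u₁, h3, h1, hall⟩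
  obtain ⟨u₂, hp2, hn2, hall2⟩ := step1
  rw [abs_of_pos hp2] at hn2
  rcases lt_or_gt_of_ne hn2 with h3 | h3
  · refine ⟨u₂⁻¹, ?_, ?_⟩
    · have : 1 < uv φ u₂⁻¹ := by
        rw [uv_inv]
        exact (one_lt_inv₀ hp2).mpr h3
      exact this
    · intro v
      obtain ⟨k, hk⟩ := hall2 v
      refine ⟨-k, ?_⟩
      rw [inv_zpow', neg_neg]
      exact hk
  · exact ⟨u₂, h3, hall2⟩

theorem QF.L_real (X : QF p K) (φ : K →+* ℝ) {u : (𝓞 K)ˣ} (hu : IsFund φ u) :
    DirichletCharacter.LFunction (chiD p) 1 =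
      ((2 * classNumber K * Real.log (uv φ u) / Real.sqrt p : ℝ) : ℂ) := by
  rw [X.residue_eq, dedekindZeta_residue_def]
  congr 1
  obtain ⟨h1, h2⟩ := nr_real X.hK φ
  have h3 : |(discr K : ℝ)| = p := by exact_mod_cast X.discr_abs
  rw [h1, h2, regulator_fund X.hK φ hu, torsionOrder_two (torsion_real φ), h3]
  push_cast
  have hp0 : (0 : ℝ) < p := by exact_mod_cast hp.out.pos
  have : Real.sqrt p ≠ 0 := (Real.sqrt_pos.mpr hp0).ne'
  field_simp

end Real

section Imag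

lemma nr_imag (X : QF p K) (hc : 1 - 4 * X.c < 0) :
    nrRealPlaces K = 0 ∧ nrComplexPlaces K = 1 := by
  have h1 := card_add_two_mul_card_eq_rank K
  rw [X.hK] at h1
  have h2 : nrRealPlaces K = 0 := by
    refine (@Fintype.card_eq_zero_iff _ (_)).2 ⟨fun ⟨w, hw⟩ => ?_⟩
    have h3 := congrArg (embedding_of_isReal hw) X.hs
    rw [map_pow, map_intCast] at h3
    have h4 : (0 : ℝ) ≤ ((1 - 4 * X.c : ℤ) : ℝ) := by rw [← h3]; positivity
    have h5 : (0 : ℤ) ≤ 1 - 4 * X.c := by exact_mod_cast h4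
    omega
  omega

lemma card_imag (X : QF p K) (hc : 1 - 4 * X.c < 0) :
    Fintype.card (InfinitePlace K) = 1 := by
  have := nr_imag X hc
  rw [card_eq_nrRealPlaces_add_nrComplexPlaces, this.1, this.2]

lemma regulator_imag (X : QF p K) (hc : 1 - 4 * X.c < 0) : regulator K = 1 := by
  classical
  have hcard := card_imag X hc
  rw [regulator_eq_det']
  have : IsEmpty {w : InfinitePlace K // w ≠ dirichletUnitTheorem.w₀} := by
    have hs : Subsingleton (InfinitePlace K) := Fintype.card_le_one_iff_subsingleton.mp hcard.le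
    exact ⟨fun ⟨w, hw⟩ => hw (Subsingleton.elim _ _)⟩
  rw [Matrix.det_isEmpty, abs_one]

lemma torsion_imag (X : QF p K) (h3 : 3 < p) (hc : 1 - 4 * X.c < 0) (x : (𝓞 K)ˣ)
    (hx : x ∈ torsion K) : x = 1 ∨ x = -1 := by
  obtain ⟨a, b, hab⟩ := X.exists_repr (x : 𝓞 K)
  -- a complex embedding
  have hw := (mem_torsion K).mp hx
  set w : InfinitePlace K := dirichletUnitTheorem.w₀ with hw0
  set φ := w.embedding with hφ
  have h1 : ‖φ (algebraMap (𝓞 K) K (x : 𝓞 K))‖ = 1 := by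
    have := hw w
    rw [← norm_embedding_eq] at this
    exact this
  have hd : (1 - 4 * X.c : ℤ) = - (p : ℤ) := by
    have := X.d_abs
    rw [abs_of_neg hc] at this
    omega
  have h2 : (φ X.s) ^ 2 = - (p : ℂ) := by
    rw [← map_pow, X.hs, hd]; simp
  have h4 : φ (algebraMap (𝓞 K) K (x : 𝓞 K)) = (a : ℂ) + (b : ℂ) * ((1 + φ X.s) / 2) := by
    rw [hab, map_add, map_mul, map_add, map_mul]
    have : algebraMap (𝓞 K) K X.omI = (1 + X.s) / 2 := rfl
    rw [this]
    simp [map_ofNat]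
  have hre : (φ X.s).re = 0 ∧ (φ X.s).im ^ 2 = p := by
    have e1 := congrArg Complex.re h2
    have e2 := congrArg Complex.im h2
    rw [sq, Complex.mul_re] at e1
    rw [sq, Complex.mul_im] at e2
    simp only [Complex.neg_re, Complex.natCast_re, Complex.neg_im, Complex.natCast_im,
      neg_zero] at e1 e2
    have hp0 : (0 : ℝ) < p := by exact_mod_cast hp.out.pos
    have e3 : (φ X.s).im ≠ 0 := by
      intro h; rw [h] at e1; nlinarith [mul_self_nonneg (φ X.s).re]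
    have e4 : (φ X.s).re = 0 := by
      have : (φ X.s).re * (φ X.s).im = 0 := by linarith
      exact (mul_eq_zero.mp this).resolve_right e3
    refine ⟨e4, ?_⟩
    rw [e4] at e1
    linarith
  have him : (φ (algebraMap (𝓞 K) K (x : 𝓞 K))).im = b * (φ X.s).im / 2 := by
    rw [h4]
    simp [Complex.add_im, Complex.mul_im, hre.1]
    ring
  have h5 : |(φ (algebraMap (𝓞 K) K (x : 𝓞 K))).im| ≤ 1 := by
    rw [← h1]; exact Complex.abs_im_le_norm _
  have h6 : ((b : ℝ)) ^ 2 * p ≤ 4 := by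
    rw [him] at h5
    have h7 := sq_le_one_iff_abs_le_one _ |>.mpr h5
    have : (b : ℝ) ^ 2 * (φ X.s).im ^ 2 ≤ 4 := by nlinarith
    rw [hre.2] at this
    exact this
  have hb : b = 0 := by
    by_contra hb
    have h7 : (1 : ℤ) ≤ b ^ 2 := by
      have := Int.one_le_abs hb
      nlinarith [sq_abs b]
    have h8 : (1 : ℝ) ≤ (b : ℝ) ^ 2 := by exact_mod_cast h7
    have h9 : (4 : ℝ) < p := by
      have h10 : p ≠ 4 := by
        intro h
        have := hp.out
        rw [h] at this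
        exact absurd this (by decide)
      have : 4 < p := by omega
      exact_mod_cast this
    nlinarith
  rw [hb, Int.cast_zero, zero_mul, add_zero] at hab
  have h7 : (a : ℝ) ^ 2 = 1 := by
    rw [hab] at h1
    rw [map_intCast, map_intCast, Complex.norm_intCast] at h1
    rw [← sq_abs, h1]; norm_num
  have h8 : a ^ 2 = 1 := by exact_mod_cast h7
  rcases mul_self_eq_one_iff.mp ((sq a).symm.trans h8) with h | h
  · left
    apply Units.ext
    rw [hab, h]; simp
  · right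
    apply Units.ext
    rw [hab, h]; simp

theorem QF.L_imag (X : QF p K) (h3 : 3 < p) (hc : 1 - 4 * X.c < 0) :
    DirichletCharacter.LFunction (chiD p) 1 =
      ((Real.pi * classNumber K / Real.sqrt p : ℝ) : ℂ) := by
  rw [X.residue_eq, dedekindZeta_residue_def]
  congr 1
  obtain ⟨h1, h2⟩ := nr_imag X hc
  have h4 : |(discr K : ℝ)| = p := by exact_mod_cast X.discr_abs
  rw [h1, h2, regulator_imag X hc, torsionOrder_two (torsion_imag X h3 hc), h4]
  push_cast
  have hp0 : (0 : ℝ) < p := by exact_mod_cast hp.out.pos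
  have : Real.sqrt p ≠ 0 := (Real.sqrt_pos.mpr hp0).ne'
  field_simp

end Imag

end MP0e3347
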